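import Mathlib

/-!
Final definitions for MP_f0eba7_co: proportional colourings, the proportional choice number,
complete multipartite graphs.
-/

namespace Pool.Agent.H.MP_f0eba7_co

open Finset

/-- `f` is a proportional `L`-colouring of `G`: a proper `L`-colouring in which every colour `c`
of the palette is used on exactly `⌊η(c)/k⌋` or `⌈η(c)/k⌉` vertices, `η(c)` being the number of
lists that contain `c`. -/
def PropColouring {V C : Type} [Fintype V] [DecidableEq C] (G : SimpleGraph V)
    (L : V → Finset C) (k : ℕ) (f : V → C) : Prop :=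
  (∀ v, f v ∈ L v) ∧ (∀ u v, G.Adj u v → f u ≠ f v) ∧
  ∀ c, (∃ v, c ∈ L v) →
    ((univ.filter (fun v => f v = c)).card : ℤ) =
        ⌊((univ.filter (fun v => c ∈ L v)).card : ℚ) / k⌋ ∨
    ((univ.filter (fun v => f v = c)).card : ℤ) =
        ⌈((univ.filter (fun v => c ∈ L v)).card : ℚ) / k⌉

/-- `G` is proportionally `k`-choosable: every `k`-assignment has a proportional colouring. -/
def PropChoosable {V : Type} [Fintype V] (G : SimpleGraph V) (k : ℕ) : Prop :=
  ∀ (C : Type) [DecidableEq C] (L : V → Finset C), (∀ v, (L v).card = k) →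
    ∃ f, PropColouring G L k f

/-- The proportional choice number: the least `k ≥ 1` such that `G` is proportionally
`k`-choosable. -/
noncomputable def propChoiceNumber {V : Type} [Fintype V] (G : SimpleGraph V) : ℕ :=
  sInf {k | 1 ≤ k ∧ PropChoosable G k}

/-- The complete multipartite graph with parts of sizes `n 0, ..., n (t-1)`. -/
abbrev K {t : ℕ} (n : Fin t → ℕ) : SimpleGraph (Σ i : Fin t, Fin (n i)) :=
  SimpleGraph.completeMultipartiteGraph (fun i : Fin t => Fin (n i))

end Pool.Agent.H.MP_f0eba7_co
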