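import Pool.Agent.H.MP_f0eba7_co.Defs
import Pool.Agent.H.MP_f0eba7_co.FinalDefs

/-!
I1: proportional choosability of complete multipartite graphs from the colouring theorem for
graphs with a partial pairing of the vertices (`upper` and `lower` as one hypothesis).
-/

namespace Pool.Agent.H.MP_f0eba7_co

open Finset

/-- the partner of a position in a part -/
def Choosable_m (j : ℕ) : ℕ := if j % 2 = 0 then j + 1 else j - 1

theorem Choosable_m_m (j : ℕ) : Choosable_m (Choosable_m j) = j := by
  unfold Choosable_m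
  split_ifs <;> omega

/-- the mate of a vertex of the complete multipartite graph -/
def Choosable_mate {t : ℕ} (n : Fin t → ℕ) (v : Σ i : Fin t, Fin (n i)) :
    Σ i : Fin t, Fin (n i) :=
  if h : Choosable_m v.2.1 < n v.1 then ⟨v.1, ⟨Choosable_m v.2.1, h⟩⟩ else v

theorem Choosable_mate_mate {t : ℕ} (n : Fin t → ℕ) (v : Σ i : Fin t, Fin (n i)) :
    Choosable_mate n (Choosable_mate n v) = v := by
  obtain ⟨i, j, hj⟩ := v
  by_cases h : Choosable_m j < n i
  · have e1 : Choosable_mate n ⟨i, ⟨j, hj⟩⟩ = ⟨i, ⟨Choosable_m j, h⟩⟩ := by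
      simp [Choosable_mate, h]
    rw [e1]
    have h2 : Choosable_m (Choosable_m j) < n i := by rw [Choosable_m_m]; exact hj
    have e2 : Choosable_mate n ⟨i, ⟨Choosable_m j, h⟩⟩ =
        ⟨i, ⟨Choosable_m (Choosable_m j), h2⟩⟩ := by
      simp [Choosable_mate, h2]
    rw [e2]
    simp [Choosable_m_m]
  · have e1 : Choosable_mate n ⟨i, ⟨j, hj⟩⟩ = ⟨i, ⟨j, hj⟩⟩ := by
      simp [Choosable_mate, h]
    rw [e1, e1]

theorem Choosable_mate_fst {t : ℕ} (n : Fin t → ℕ) (v : Σ i : Fin t, Fin (n i)) :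
    (Choosable_mate n v).1 = v.1 := by
  unfold Choosable_mate
  split_ifs <;> rfl

theorem Choosable_fixed {t : ℕ} (n : Fin t → ℕ) (i : Fin t) (j : Fin (n i))
    (h : Choosable_mate n ⟨i, j⟩ = ⟨i, j⟩) : j.1 + 1 = n i ∧ n i % 2 = 1 := by
  have hj := j.2
  by_cases h1 : Choosable_m j.1 < n i
  · have e1 : Choosable_mate n ⟨i, j⟩ = ⟨i, ⟨Choosable_m j.1, h1⟩⟩ := by
      simp [Choosable_mate, h1]
    rw [e1] at h
    have h2 : (⟨Choosable_m j.1, h1⟩ : Fin (n i)) = j := by
      simpa using h
    have h3 : Choosable_m j.1 = j.1 := congrArg Fin.val h2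
    unfold Choosable_m at h3
    split_ifs at h3 <;> omega
  · unfold Choosable_m at h1
    split_ifs at h1 <;> omega

theorem Choosable_card_fixed {t : ℕ} (n : Fin t → ℕ) :
    (univ.filter (fun v => Choosable_mate n v = v)).card ≤ ∑ i, n i % 2 := by
  rw [Finset.card_filter, Fintype.sum_sigma]
  apply Finset.sum_le_sum
  intro i _
  rw [← Finset.card_filter]
  rcases Nat.mod_two_eq_zero_or_one (n i) with h | h
  · rw [h, Nat.le_zero, Finset.card_eq_zero, Finset.filter_eq_empty_iff]
    intro j _ hj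
    have := (Choosable_fixed n i j hj).2
    omega
  · rw [h, Finset.card_le_one]
    intro a ha b hb
    rw [Finset.mem_filter] at ha hb
    have h1 := (Choosable_fixed n i a ha.2).1
    have h2 := (Choosable_fixed n i b hb.2).1
    apply Fin.ext
    omega

theorem Choosable_floor_ceil {c D k : ℕ} (hD : 1 ≤ D) (hDk : D < 2 * k)
    (h1 : D ≤ k → c ≤ 1) (h2 : c ≤ 2) (h3 : k ≤ D → 1 ≤ c) :
    (c : ℤ) = ⌊(D : ℚ) / k⌋ ∨ (c : ℤ) = ⌈(D : ℚ) / k⌉ := by
  have hk : 1 ≤ k := by omega
  have hk0 : (0 : ℚ) < k := by exact_mod_cast hk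
  have hD0 : (1 : ℚ) ≤ D := by exact_mod_cast hD
  have hDk' : (D : ℚ) < 2 * k := by exact_mod_cast hDk
  rcases lt_trichotomy D k with h | h | h
  · have hlt : (D : ℚ) < k := by exact_mod_cast h
    have hf : ⌊(D : ℚ) / k⌋ = 0 := by
      rw [Int.floor_eq_iff]
      constructor
      · push_cast
        positivity
      · rw [div_lt_iff₀ hk0]
        push_cast
        linarith
    have hc : ⌈(D : ℚ) / k⌉ = 1 := by
      rw [Int.ceil_eq_iff]
      constructor
      · push_cast
        rw [sub_self]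
        positivity
      · rw [div_le_iff₀ hk0]
        push_cast
        linarith
    rw [hf, hc]
    have := h1 h.le
    omega
  · have hf : ⌊(D : ℚ) / k⌋ = 1 := by
      rw [h, div_self hk0.ne', Int.floor_one]
    rw [hf]
    have := h1 h.le
    have := h3 h.ge
    omega
  · have hlt : (k : ℚ) < D := by exact_mod_cast h
    have hf : ⌊(D : ℚ) / k⌋ = 1 := by
      rw [Int.floor_eq_iff]
      constructor
      · rw [le_div_iff₀ hk0]
        push_cast
        linarith
      · rw [div_lt_iff₀ hk0]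
        push_cast
        linarith
    have hc : ⌈(D : ℚ) / k⌉ = 2 := by
      rw [Int.ceil_eq_iff]
      constructor
      · rw [lt_div_iff₀ hk0]
        push_cast
        linarith
      · rw [div_le_iff₀ hk0]
        push_cast
        linarith
    rw [hf, hc]
    have := h3 h.le
    omega

/-- I1 -/
theorem choosable_of_le
    (H : ∀ (V C : Type) [Fintype V] [DecidableEq V] [DecidableEq C] (mate : V → V)
      (_ : ∀ v, mate (mate v) = v) (L : V → Finset C) (k : ℕ) (_ : ∀ v, (L v).card = k)
      (_ : Fintype.card V + 1 ≤ 2 * k)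
      (_ : Fintype.card V + (univ.filter (fun v => mate v = v)).card ≤ 2 * k),
      ∃ f : V → C, (∀ v, f v ∈ L v) ∧
        (∀ u v, u ≠ v → f u = f v → mate u = v ∧ k + 1 ≤ deg L (f v)) ∧
        ∀ c, k ≤ deg L c → ∃ v, f v = c)
    {t : ℕ} (n : Fin t → ℕ) (k : ℕ)
    (h1 : ∑ i, n i + 1 ≤ 2 * k) (h2 : ∑ i, (n i + 1) / 2 ≤ k) : PropChoosable (K n) k := by
  intro C _ L hL
  have hV : Fintype.card (Σ i : Fin t, Fin (n i)) = ∑ i, n i := by
    simp
  have hfix : Fintype.card (Σ i : Fin t, Fin (n i)) +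
      (univ.filter (fun v => Choosable_mate n v = v)).card ≤ 2 * k := by
    have h3 := Choosable_card_fixed n
    have h4 : ∑ i, n i + ∑ i, n i % 2 = 2 * ∑ i, (n i + 1) / 2 := by
      rw [← Finset.sum_add_distrib, Finset.mul_sum]
      apply Finset.sum_congr rfl
      intro i _
      omega
    rw [hV]
    omega
  obtain ⟨f, hf1, hf2, hf3⟩ := H (Σ i : Fin t, Fin (n i)) C (Choosable_mate n)
    (Choosable_mate_mate n) L k hL (by rw [hV]; exact h1) hfix
  refine ⟨f, hf1, ?_, ?_⟩
  · intro u v huv hfuv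
    have h3 := (hf2 u v huv.ne hfuv).1
    have h4 : u.1 = v.1 := by rw [← h3, Choosable_mate_fst]
    exact huv h4
  · rintro c ⟨v0, hv0⟩
    have hdeg1 : 1 ≤ deg L c :=
      Finset.card_pos.mpr ⟨v0, Finset.mem_filter.mpr ⟨Finset.mem_univ _, hv0⟩⟩
    have hdeg2 : deg L c < 2 * k := by
      have h3 : deg L c ≤ Fintype.card (Σ i : Fin t, Fin (n i)) := Finset.card_le_univ _
      rw [hV] at h3
      omega
    apply Choosable_floor_ceil (D := deg L c) hdeg1 hdeg2
    · intro hle
      rw [Finset.card_le_one]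
      intro a ha b hb
      rw [Finset.mem_filter] at ha hb
      by_contra hab
      have h3 := (hf2 a b hab (by rw [ha.2, hb.2])).2
      rw [hb.2] at h3
      omega
    · rcases (univ.filter (fun v => f v = c)).eq_empty_or_nonempty with h3 | ⟨u, hu⟩
      · rw [h3]
        simp
      · have h3 : univ.filter (fun v => f v = c) ⊆ {u, Choosable_mate n u} := by
          intro v hv
          rw [Finset.mem_filter] at hv hu
          rw [Finset.mem_insert, Finset.mem_singleton]
          by_cases huv : u = v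
          · exact Or.inl huv.symm
          · exact Or.inr (hf2 u v huv (by rw [hu.2, hv.2])).1.symm
        exact (Finset.card_le_card h3).trans Finset.card_le_two
    · intro hk
      obtain ⟨v, hv⟩ := hf3 c hk
      exact Finset.card_pos.mpr ⟨v, Finset.mem_filter.mpr ⟨Finset.mem_univ _, hv⟩⟩

end Pool.Agent.H.MP_f0eba7_co
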