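import Pool.Agent.H.MP_f0eba7_co.Defs

namespace Pool.Agent.H.MP_f0eba7_co

open Finset

variable {V C : Type} [Fintype V] [DecidableEq V] [Fintype C] [DecidableEq C]

omit [DecidableEq V] in
theorem colU_gam_mate {mate : V → V} (hmate : ∀ v, mate (mate v) = v) (L : V → Finset C) (k : ℕ)
    (v : V) : gam mate L k (mate v) = gam mate L k v := by
  unfold gam
  rw [hmate, inter_comm (L (mate v)) (L v)]

omit [Fintype V] in
/-- representatives of the pairs -/
theorem colU_reps {mate : V → V} (hmate : ∀ v, mate (mate v) = v)
    {U : Finset V} (hU1 : ∀ v ∈ U, mate v ∈ U) (hU2 : ∀ v ∈ U, mate v ≠ v) {δ : ℕ}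
    (hU3 : U.card = 2 * δ) [Finite V] :
    ∃ R ⊆ U, (∀ v ∈ U, v ∈ R ↔ mate v ∉ R) ∧ R.card = δ := by
  classical
  obtain ⟨n, ⟨e⟩⟩ := Finite.exists_equiv_fin V
  set R : Finset V := U.filter (fun v => e v < e (mate v)) with hR
  have hiff : ∀ v ∈ U, v ∈ R ↔ mate v ∉ R := by
    intro v hv
    rw [hR, mem_filter, mem_filter, hmate]
    have h1 : e v ≠ e (mate v) := fun h => hU2 v hv (e.injective h).symm
    constructor
    · rintro ⟨-, h2⟩ ⟨-, h3⟩
      exact lt_asymm h2 h3
    · intro h2
      refine ⟨hv, ?_⟩
      by_contra h3
      exact h2 ⟨hU1 v hv, lt_of_le_of_ne (not_lt.1 h3) h1.symm⟩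
  refine ⟨R, filter_subset _ _, hiff, ?_⟩
  have hinj : Function.Injective mate := by
    intro a b hab
    rw [← hmate a, hab, hmate]
  have h1 : U = R ∪ R.image mate := by
    ext v
    rw [mem_union, mem_image]
    constructor
    · intro hv
      by_cases h2 : v ∈ R
      · exact Or.inl h2
      · right
        refine ⟨mate v, ?_, hmate v⟩
        by_contra h3
        exact h2 ((hiff v hv).2 h3)
    · rintro (h2 | ⟨w, h2, rfl⟩)
      · exact filter_subset _ _ h2
      · exact hU1 w (filter_subset _ _ h2)
  have h2 : Disjoint R (R.image mate) := by
    rw [disjoint_left]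
    intro v hv h3
    rw [mem_image] at h3
    obtain ⟨w, hw, rfl⟩ := h3
    exact (hiff w (filter_subset _ _ hw)).1 hw hv
  have h3 : U.card = R.card + R.card := by
    conv_lhs => rw [h1]
    rw [card_union_of_disjoint h2, card_image_of_injective _ hinj]
  omega

/-- F2: the colouring from `U`. -/
theorem col_of_U {mate : V → V} (hmate : ∀ v, mate (mate v) = v) {L : V → Finset C} {k δ : ℕ}
    (hL : ∀ v, (L v).card = k) (hV : Fintype.card V + 1 ≤ 2 * k)
    (hδ : Fintype.card V = Fintype.card C + δ)
    {U : Finset V} (hU1 : ∀ v ∈ U, mate v ∈ U) (hU2 : ∀ v ∈ U, mate v ≠ v)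
    (hU3 : U.card = 2 * δ)
    (hU4 : ∀ S : Finset C, Disjoint S (big L k) → S.card ≤ (nb L S \ U).card)
    (hU5 : ∑ v ∈ U.filter (fun v => gam mate L k v < δ), 1 / ((gam mate L k v : ℝ) + 1) < 2) :
    ∃ f : V → C, (∀ v, f v ∈ L v) ∧
      ∀ u v, u ≠ v → f u = f v → mate u = v ∧ k + 1 ≤ deg L (f v) := by
  obtain ⟨R, hRU, hRiff, hRcard⟩ := colU_reps hmate hU1 hU2 hU3
  have hinj : Function.Injective mate := by
    intro a b hab
    rw [← hmate a, hab, hmate]
  set A : V → Finset C := fun v => if v ∈ U then L v ∩ L (mate v) ∩ big L k else L v with hA
  have hAU : ∀ v ∈ U, A v = L v ∩ L (mate v) ∩ big L k := fun v hv => if_pos hv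
  have hAn : ∀ v, v ∉ U → A v = L v := fun v hv => if_neg hv
  -- Hall's condition
  have hall : ∀ Z : Finset V, (∀ v ∈ Z, v ∉ U ∨ v ∈ R) → Z.card ≤ (Z.biUnion A).card := by
    intro Z hZ
    set N : Finset C := Z.biUnion A with hN
    have hAN : ∀ v ∈ Z, A v ⊆ N := fun v hv => subset_biUnion_of_mem A hv
    set ZP : Finset V := Z.filter (fun v => v ∈ U) with hZP
    set ZQ : Finset V := Z.filter (fun v => v ∉ U) with hZQ
    have hcard : ZP.card + ZQ.card = Z.card := card_filter_add_card_filter_not _
    have hZPR : ZP ⊆ R := by
      intro v hv
      rw [hZP, mem_filter] at hv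
      rcases hZ v hv.1 with h | h
      · exact absurd hv.2 h
      · exact h
    have hZPcard : ZP.card ≤ δ := by
      rw [← hRcard]
      exact card_le_card hZPR
    by_cases hQ : ZQ = ∅
    · -- case (a)
      have hZZP : Z = ZP := by
        rw [hZP, eq_comm, filter_eq_self]
        intro v hv
        by_contra h
        have : v ∈ ZQ := by
          rw [hZQ, mem_filter]
          exact ⟨hv, h⟩
        rw [hQ] at this
        exact notMem_empty v this
      rcases Z.eq_empty_or_nonempty with h0 | hne
      · rw [h0, card_empty]
        exact Nat.zero_le _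
      · obtain ⟨p, hp, hmax⟩ := exists_max_image Z (fun v => gam mate L k v) hne
        have hpU : p ∈ U := by
          rw [hZZP, hZP, mem_filter] at hp
          exact hp.2
        have hgN : gam mate L k p ≤ N.card := by
          have h1 := card_le_card (hAN p hp)
          rw [hAU p hpU] at h1
          exact h1
        by_cases hg : δ ≤ gam mate L k p
        · rw [← hZZP] at hZPcard
          omega
        · push Not at hg
          -- the weights
          have hZR : Z ⊆ R := hZZP ▸ hZPR
          have hZU : Z ⊆ U := hZR.trans hRU
          have hdisj : Disjoint Z (Z.image mate) := by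
            rw [disjoint_left]
            intro v hv h3
            rw [mem_image] at h3
            obtain ⟨w, hw, rfl⟩ := h3
            exact (hRiff w (hZU hw)).1 (hZR hw) (hZR hv)
          have hsub : Z ∪ Z.image mate ⊆ U.filter (fun v => gam mate L k v < δ) := by
            intro v hv
            rw [mem_union, mem_image] at hv
            rw [mem_filter]
            rcases hv with hv | ⟨w, hw, rfl⟩
            · exact ⟨hZU hv, lt_of_le_of_lt (hmax v hv) hg⟩
            · rw [colU_gam_mate hmate]
              exact ⟨hU1 w (hZU hw), lt_of_le_of_lt (hmax w hw) hg⟩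
          have h1 : ∑ v ∈ Z ∪ Z.image mate, 1 / ((gam mate L k v : ℝ) + 1) < 2 := by
            refine lt_of_le_of_lt (sum_le_sum_of_subset_of_nonneg hsub ?_) hU5
            intro v _ _
            positivity
          rw [sum_union hdisj, sum_image (fun a _ b _ hab => hinj hab)] at h1
          have h2 : (Z.card : ℝ) * (1 / ((gam mate L k p : ℝ) + 1)) ≤
              ∑ v ∈ Z, 1 / ((gam mate L k v : ℝ) + 1) := by
            rw [← nsmul_eq_mul]
            apply card_nsmul_le_sum
            intro v hv
            apply one_div_le_one_div_of_le
            · positivity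
            · have := hmax v hv
              have h3 : (gam mate L k v : ℝ) ≤ gam mate L k p := by exact_mod_cast this
              linarith
          have h3 : ∑ v ∈ Z, 1 / ((gam mate L k (mate v) : ℝ) + 1) =
              ∑ v ∈ Z, 1 / ((gam mate L k v : ℝ) + 1) := by
            refine sum_congr rfl fun v _ => ?_
            rw [colU_gam_mate hmate]
          rw [h3] at h1
          have h4 : (Z.card : ℝ) * (1 / ((gam mate L k p : ℝ) + 1)) < 1 := by linarith
          have h5 : (0 : ℝ) < (gam mate L k p : ℝ) + 1 := by positivity
          have h6 : (Z.card : ℝ) < (gam mate L k p : ℝ) + 1 := by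
            rw [mul_one_div, div_lt_one h5] at h4
            exact h4
          have h7 : Z.card < gam mate L k p + 1 := by exact_mod_cast h6
          omega
    · obtain ⟨q, hq⟩ := nonempty_iff_ne_empty.2 hQ
      rw [hZQ, mem_filter] at hq
      by_cases hbN : big L k ⊆ N
      · -- case (b)
        have h1 := hU4 Nᶜ (by
          rw [disjoint_left]
          intro c hc hcb
          rw [mem_compl] at hc
          exact hc (hbN hcb))
        have h2 : nb L Nᶜ \ U ⊆ (U ∪ ZQ)ᶜ := by
          intro v hv
          rw [mem_sdiff] at hv
          obtain ⟨hv1, hv2⟩ := hv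
          unfold nb at hv1
          rw [mem_filter] at hv1
          obtain ⟨-, c, hc1, hc2⟩ := hv1
          rw [mem_compl, mem_union]
          rintro (h3 | h3)
          · exact hv2 h3
          · rw [hZQ, mem_filter] at h3
            have h4 := hAN v h3.1
            rw [hAn v h3.2] at h4
            rw [mem_compl] at hc1
            exact hc1 (h4 hc2)
        have h3 := card_le_card h2
        have h4 : Disjoint U ZQ := by
          rw [disjoint_left]
          intro v hv hv2
          rw [hZQ, mem_filter] at hv2
          exact hv2.2 hv
        rw [card_compl, card_union_of_disjoint h4] at h3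
        rw [card_compl] at h1
        have h5 : (U ∪ ZQ).card ≤ Fintype.card V := card_le_univ _
        rw [card_union_of_disjoint h4] at h5
        have h6 : N.card ≤ Fintype.card C := card_le_univ _
        omega
      · -- case (c)
        obtain ⟨b, hb, hbn⟩ := not_subset.1 hbN
        by_contra hcon
        push Not at hcon
        have hk : k ≤ N.card := by
          have h1 := card_le_card (hAN q hq.1)
          rw [hAn q hq.2, hL] at h1
          exact h1
        have hdeg : k + 1 ≤ deg L b := by
          unfold big at hb
          rw [mem_filter] at hb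
          exact hb.2
        let h : V → V := fun v => if b ∈ L v then mate v else v
        have hh1 : ∀ v ∈ Z, b ∉ L (h v) := by
          intro v hv
          by_cases hvU : v ∈ U
          · by_cases hbv : b ∈ L v
            · have h1 : h v = mate v := if_pos hbv
              rw [h1]
              intro h2
              apply hbn
              apply hAN v hv
              rw [hAU v hvU, mem_inter, mem_inter]
              exact ⟨⟨hbv, h2⟩, hb⟩
            · have h1 : h v = v := if_neg hbv
              rw [h1]
              exact hbv
          · have hbv : b ∉ L v := by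
              intro h1
              apply hbn
              apply hAN v hv
              rw [hAn v hvU]
              exact h1
            have h1 : h v = v := if_neg hbv
            rw [h1]
            exact hbv
        have hhv : ∀ v, h v = v ∨ h v = mate v := by
          intro v
          by_cases hbv : b ∈ L v
          · exact Or.inr (if_pos hbv)
          · exact Or.inl (if_neg hbv)
        have hhU : ∀ v ∈ Z, v ∉ U → h v = v := by
          intro v hv hvU
          apply if_neg
          intro h1
          apply hbn
          apply hAN v hv
          rw [hAn v hvU]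
          exact h1
        have hhinj : Set.InjOn h (Z : Set V) := by
          intro u hu v hv huv
          rw [mem_coe] at hu hv
          by_cases huU : u ∈ U
          · by_cases hvU : v ∈ U
            · have huR : u ∈ R := by
                rcases hZ u hu with h1 | h1
                · exact absurd huU h1
                · exact h1
              have hvR : v ∈ R := by
                rcases hZ v hv with h1 | h1
                · exact absurd hvU h1
                · exact h1
              rcases hhv u with h1 | h1 <;> rcases hhv v with h2 | h2
              · rw [← h1, huv, h2]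
              · rw [h1, h2] at huv
                rw [huv] at huR
                exact absurd huR ((hRiff v hvU).1 hvR)
              · rw [h1, h2] at huv
                rw [← huv] at hvR
                exact absurd hvR ((hRiff u huU).1 huR)
              · rw [h1, h2] at huv
                exact hinj huv
            · exfalso
              have h1 := hhU v hv hvU
              rw [h1] at huv
              rcases hhv u with h2 | h2
              · rw [h2] at huv
                exact hvU (huv ▸ huU)
              · rw [h2] at huv
                exact hvU (huv ▸ hU1 u huU)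
          · have h1 := hhU u hu huU
            rw [h1] at huv
            by_cases hvU : v ∈ U
            · exfalso
              rcases hhv v with h2 | h2
              · rw [h2] at huv
                exact huU (huv.symm ▸ hvU)
              · rw [h2] at huv
                exact huU (huv.symm ▸ hU1 v hvU)
            · rw [hhU v hv hvU] at huv
              exact huv
        have h8 : Z.card ≤ (univ.filter (fun v => b ∉ L v)).card := by
          apply card_le_card_of_injOn h
          · intro v hv
            rw [mem_coe, mem_filter]
            exact ⟨mem_univ _, hh1 v hv⟩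
          · exact hhinj
        have h9 : (univ.filter (fun v => b ∈ L v)).card + (univ.filter (fun v => b ∉ L v)).card =
            Fintype.card V := card_filter_add_card_filter_not _
        unfold deg at hdeg
        omega
  obtain ⟨g, hginj, hgA⟩ := (Finset.all_card_le_biUnion_card_iff_exists_injective
    (fun v : {v : V // v ∉ U ∨ v ∈ R} => A v.1)).1 (by
      intro Z
      have h1 := hall (Z.image Subtype.val) (by
        intro v hv
        rw [mem_image] at hv
        obtain ⟨w, -, rfl⟩ := hv
        exact w.2)
      rw [card_image_of_injective _ Subtype.val_injective, image_biUnion] at h1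
      exact h1)
  have hrep : ∀ v, ¬ (v ∉ U ∨ v ∈ R) → (mate v ∉ U ∨ mate v ∈ R) := by
    intro v hv
    push Not at hv
    right
    by_contra h1
    exact hv.2 ((hRiff v hv.1).2 h1)
  let rep : V → {v : V // v ∉ U ∨ v ∈ R} := fun v =>
    if h : v ∉ U ∨ v ∈ R then ⟨v, h⟩ else ⟨mate v, hrep v h⟩
  have hrep1 : ∀ v, (v ∉ U ∨ v ∈ R) → (rep v).1 = v := by
    intro v hv
    have : rep v = ⟨v, hv⟩ := dif_pos hv
    rw [this]
  have hrep2 : ∀ v, ¬ (v ∉ U ∨ v ∈ R) → (rep v).1 = mate v := by
    intro v hv
    have : rep v = ⟨mate v, hrep v hv⟩ := dif_neg hv
    rw [this]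
  have hbigU : ∀ v ∈ U, g (rep v) ∈ L v ∧ g (rep v) ∈ big L k := by
    intro v hv
    have h1 := hgA (rep v)
    by_cases h2 : v ∉ U ∨ v ∈ R
    · rw [hrep1 v h2, hAU v hv, mem_inter, mem_inter] at h1
      exact ⟨h1.1.1, h1.2⟩
    · rw [hrep2 v h2, hAU _ (hU1 v hv), mem_inter, mem_inter, hmate] at h1
      exact ⟨h1.1.2, h1.2⟩
  refine ⟨fun v => g (rep v), ?_, ?_⟩
  · intro v
    by_cases hv : v ∈ U
    · exact (hbigU v hv).1
    · have h1 := hgA (rep v)
      rw [hrep1 v (Or.inl hv), hAn v hv] at h1
      exact h1
  · intro u v huv hf
    have h1 : (rep u).1 = (rep v).1 := congrArg Subtype.val (hginj hf)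
    have hdeg : ∀ w ∈ U, k + 1 ≤ deg L (g (rep w)) := by
      intro w hw
      have h2 := (hbigU w hw).2
      unfold big at h2
      rw [mem_filter] at h2
      exact h2.2
    by_cases hu : u ∉ U ∨ u ∈ R
    · by_cases hv : v ∉ U ∨ v ∈ R
      · rw [hrep1 u hu, hrep1 v hv] at h1
        exact absurd h1 huv
      · rw [hrep1 u hu, hrep2 v hv] at h1
        have hvU : v ∈ U := by
          by_contra h2
          exact hv (Or.inl h2)
        exact ⟨by rw [h1, hmate], hdeg v hvU⟩
    · by_cases hv : v ∉ U ∨ v ∈ R
      · rw [hrep2 u hu, hrep1 v hv] at h1
        have huU : u ∈ U := by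
          by_contra h2
          exact hu (Or.inl h2)
        have hvU : v ∈ U := by
          rw [← h1]
          exact hU1 u huU
        exact ⟨h1, hdeg v hvU⟩
      · rw [hrep2 u hu, hrep2 v hv] at h1
        exact absurd (hinj h1) huv

end Pool.Agent.H.MP_f0eba7_co
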