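import Mathlib

/-!
Basic definitions for the proportional choice number of complete multipartite graphs
(MP_f0eba7_co).

* `IsPM`, `PMP`, `Dec`: perfect matchings as fixed point free involutions, the perfect matching
  polytope of a complete graph (a weighting that is zero outside the support graph), and
  convex combinations of perfect matchings.
* `MP`: the matching polytope.
* `deg`, `big`, `nb`, `gam`, `omi`, `ymul`: the list colouring data.
-/

namespace Pool.Agent.H.MP_f0eba7_co

open Finset

/-- A perfect matching, as a fixed point free involution. -/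
def IsPM {V : Type} (σ : V → V) : Prop := (∀ v, σ (σ v) = v) ∧ ∀ v, σ v ≠ v

/-- The perfect matching polytope (Edmonds): symmetric nonnegative weights with all degrees one
and all odd cuts at least one. -/
structure PMP {V : Type} [Fintype V] [DecidableEq V] (x : V → V → ℝ) : Prop where
  nonneg : ∀ u v, 0 ≤ x u v
  symm : ∀ u v, x u v = x v u
  diag : ∀ u, x u u = 0
  deg : ∀ u, ∑ v, x u v = 1
  odd : ∀ U : Finset V, Odd U.card → 1 ≤ ∑ u ∈ U, ∑ v ∈ Uᶜ, x u v

/-- `x` is a convex combination of perfect matchings. -/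
def Dec {V : Type} [Fintype V] [DecidableEq V] (x : V → V → ℝ) : Prop :=
  ∃ (ι : Type) (_ : Fintype ι) (lam : ι → ℝ) (σ : ι → V → V),
    (∀ i, 0 ≤ lam i) ∧ (∀ i, IsPM (σ i)) ∧ ∑ i, lam i = 1 ∧
    ∀ u v, ∑ i, (if σ i u = v then lam i else 0) = x u v

/-- The matching polytope (Edmonds). -/
structure MP {V : Type} [Fintype V] [DecidableEq V] (z : V → V → ℝ) : Prop where
  nonneg : ∀ u v, 0 ≤ z u v
  symm : ∀ u v, z u v = z v u
  diag : ∀ u, z u u = 0
  deg : ∀ u, ∑ v, z u v ≤ 1
  odd : ∀ U : Finset V, Odd U.card → ∑ u ∈ U, ∑ v ∈ U, z u v ≤ (U.card : ℝ) - 1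

/-- `z` is a convex combination of matchings (involutions; fixed points are the exposed
vertices). -/
def MDec {V : Type} [Fintype V] [DecidableEq V] (z : V → V → ℝ) : Prop :=
  ∃ (ι : Type) (_ : Fintype ι) (lam : ι → ℝ) (τ : ι → V → V),
    (∀ i, 0 ≤ lam i) ∧ (∀ i v, τ i (τ i v) = v) ∧ ∑ i, lam i = 1 ∧
    ∀ u v, u ≠ v → ∑ i, (if τ i u = v then lam i else 0) = z u v

/-- Contraction of the complement of `U` to one point `none`. -/
def contr {V : Type} [Fintype V] [DecidableEq V] (x : V → V → ℝ) (U : Finset V) :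
    Option {v // v ∈ U} → Option {v // v ∈ U} → ℝ
  | none, none => 0
  | none, some b => ∑ v ∈ Uᶜ, x b.1 v
  | some a, none => ∑ v ∈ Uᶜ, x a.1 v
  | some a, some b => x a.1 b.1

/-- Number of vertices whose list contains `c`. -/
def deg {V C : Type} [Fintype V] [DecidableEq C] (L : V → Finset C) (c : C) : ℕ :=
  (univ.filter (fun v => c ∈ L v)).card

/-- Vertices whose list meets `S`. -/
def nb {V C : Type} [Fintype V] [DecidableEq C] (L : V → Finset C) (S : Finset C) : Finset V :=
  univ.filter (fun v => ∃ c ∈ S, c ∈ L v)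

/-- The big colours. -/
def big {V C : Type} [Fintype V] [DecidableEq C] [Fintype C] (L : V → Finset C) (k : ℕ) :
    Finset C :=
  univ.filter (fun c => k + 1 ≤ deg L c)

/-- Number of common big colours of `v` and its mate. -/
def gam {V C : Type} [Fintype V] [DecidableEq C] [Fintype C] (mate : V → V) (L : V → Finset C)
    (k : ℕ) (v : V) : ℕ :=
  (L v ∩ L (mate v) ∩ big L k).card

/-- Number of big colours missing at `v` and at its mate. -/
def omi {V C : Type} [Fintype V] [DecidableEq C] [Fintype C] (mate : V → V) (L : V → Finset C)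
    (k : ℕ) (v : V) : ℕ :=
  (big L k \ (L v ∪ L (mate v))).card

/-- The multigraph `H`: list edges of small colours, and pair edges with multiplicity `gam`. -/
def ymul {V C : Type} [Fintype V] [DecidableEq V] [DecidableEq C] [Fintype C]
    (mate : V → V) (L : V → Finset C) (k : ℕ) : V ⊕ C → V ⊕ C → ℕ
  | Sum.inl u, Sum.inl v => if mate u = v ∧ u ≠ v then gam mate L k u else 0
  | Sum.inl v, Sum.inr c => if c ∈ L v ∧ c ∉ big L k then 1 else 0
  | Sum.inr c, Sum.inl v => if c ∈ L v ∧ c ∉ big L k then 1 else 0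
  | Sum.inr _, Sum.inr _ => 0

/-- The weight of an edge: `1/(gam+1)` on relevant pair edges (`gam < δ`). -/
noncomputable def wgt {V C : Type} [Fintype V] [DecidableEq V] [DecidableEq C] [Fintype C]
    (mate : V → V) (L : V → Finset C) (k δ : ℕ) : V ⊕ C → V ⊕ C → ℝ
  | Sum.inl u, Sum.inl v =>
      if mate u = v ∧ u ≠ v ∧ gam mate L k u < δ then 1 / ((gam mate L k u : ℝ) + 1) else 0
  | _, _ => 0

end Pool.Agent.H.MP_f0eba7_co
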