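import Mathlib
import Pool.Agent.H.MP_f0eba7_co.Defs

/-!
Counting (E1, E2, E4 of the skeleton).
-/

namespace Pool.Agent.H.MP_f0eba7_co

open Finset

variable {V C : Type} [Fintype V] [DecidableEq V] [Fintype C] [DecidableEq C]

lemma count_row_inl (mate : V → V) (L : V → Finset C) (k : ℕ) (v : V) :
    ∑ x', ymul mate L k (Sum.inl v) x' =
      (if mate v ≠ v then gam mate L k v else 0) + (L v \ big L k).card := by
  rw [Fintype.sum_sum_type]
  congr 1
  · by_cases h : mate v = v
    · rw [if_neg (not_not.2 h)]
      refine Finset.sum_eq_zero fun u _ => ?_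
      simp only [ymul]
      rw [if_neg]
      rintro ⟨h1, h2⟩
      exact h2 (h.symm.trans h1)
    · rw [if_pos h, Finset.sum_eq_single (mate v)]
      · simp only [ymul]
        rw [if_pos ⟨trivial, fun h' => h h'.symm⟩]
      · intro u _ hu
        simp only [ymul]
        rw [if_neg]
        rintro ⟨h1, _⟩
        exact hu h1.symm
      · intro h'
        exact absurd (Finset.mem_univ _) h'
  · simp only [ymul]
    rw [← Finset.sum_filter, ← Finset.card_eq_sum_ones]
    congr 1
    ext c
    simp

lemma count_row_inr (mate : V → V) (L : V → Finset C) (k : ℕ) (c : C) :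
    ∑ x', ymul mate L k (Sum.inr c) x' =
      ∑ v, (if c ∈ L v ∧ c ∉ big L k then 1 else 0) := by
  rw [Fintype.sum_sum_type]
  simp [ymul]

/-- E1 -/
theorem ymul_deg {mate : V → V} (hmate : ∀ v, mate (mate v) = v) {L : V → Finset C} {k : ℕ}
    (hL : ∀ v, (L v).card = k) (x : V ⊕ C) : ∑ x', ymul mate L k x x' ≤ k := by
  rcases x with v | c
  · rw [count_row_inl]
    have h1 : (if mate v ≠ v then gam mate L k v else 0) ≤ gam mate L k v := by
      split_ifs <;> omega
    have h2 : gam mate L k v + (L v \ big L k).card ≤ (L v).card := by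
      unfold gam
      rw [← Finset.card_union_of_disjoint]
      · refine Finset.card_le_card ?_
        intro c hc
        rw [Finset.mem_union, Finset.mem_inter, Finset.mem_inter, Finset.mem_sdiff] at hc
        tauto
      · rw [Finset.disjoint_left]
        intro c h1 h2
        exact (Finset.mem_sdiff.1 h2).2 (Finset.mem_inter.1 h1).2
    rw [hL v] at h2
    omega
  · rw [count_row_inr]
    by_cases hc : c ∈ big L k
    · simp [hc]
    · have h1 : ∑ v, (if c ∈ L v ∧ c ∉ big L k then 1 else 0) = deg L c := by
        unfold deg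
        rw [← Finset.sum_filter, ← Finset.card_eq_sum_ones]
        congr 1
        ext v
        simp [hc]
      rw [h1]
      have h2 : ¬ (k + 1 ≤ deg L c) := by
        intro h
        exact hc (by simp [big]; omega)
      omega

lemma count_pair (mate : V → V) (L : V → Finset C) (k : ℕ) (v : V) :
    (L v ∩ big L k).card + (L (mate v) ∩ big L k).card + omi mate L k v =
      (big L k).card + gam mate L k v := by
  unfold omi gam
  have h1 := Finset.card_union_add_card_inter (L v ∩ big L k) (L (mate v) ∩ big L k)
  have h2 : (L v ∩ big L k) ∩ (L (mate v) ∩ big L k) = L v ∩ L (mate v) ∩ big L k := by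
    ext c
    simp only [Finset.mem_inter]
    tauto
  have h3 : (L v ∩ big L k) ∪ (L (mate v) ∩ big L k) = big L k ∩ (L v ∪ L (mate v)) := by
    ext c
    simp only [Finset.mem_inter, Finset.mem_union]
    tauto
  have h4 := Finset.card_inter_add_card_sdiff (big L k) (L v ∪ L (mate v))
  rw [h2, h3] at h1
  omega

lemma count_total (mate : V → V) (L : V → Finset C) (k : ℕ) :
    ∑ x : V ⊕ C, ∑ x' : V ⊕ C, ymul mate L k x x' =
      ∑ v ∈ univ.filter (fun v => mate v ≠ v), gam mate L k v +
        2 * ∑ v, (L v \ big L k).card := by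
  rw [Fintype.sum_sum_type]
  simp only [count_row_inl, count_row_inr]
  rw [Finset.sum_add_distrib, ← Finset.sum_filter]
  have h1 : ∑ c, ∑ v, (if c ∈ L v ∧ c ∉ big L k then 1 else 0) =
      ∑ v, (L v \ big L k).card := by
    rw [Finset.sum_comm]
    refine Finset.sum_congr rfl fun v _ => ?_
    rw [← Finset.sum_filter, ← Finset.card_eq_sum_ones]
    congr 1
    ext c
    simp
  rw [h1]
  ring

/-- E2 -/
theorem size_ineq {mate : V → V} (hmate : ∀ v, mate (mate v) = v) {L : V → Finset C} {k : ℕ}
    (hL : ∀ v, (L v).card = k)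
    (hfix : Fintype.card V + (univ.filter (fun v => mate v = v)).card ≤ 2 * k) :
    2 * k * Fintype.card V + ∑ v ∈ univ.filter (fun v => mate v ≠ v), omi mate L k v ≤
      ∑ x : V ⊕ C, ∑ x' : V ⊕ C, ymul mate L k x x' + 2 * k * (big L k).card := by
  rw [count_total]
  set β := (big L k).card with hβ
  have h1 : ∑ v, (L v \ big L k).card + ∑ v, (L v ∩ big L k).card = k * Fintype.card V := by
    rw [← Finset.sum_add_distrib]
    have : ∀ v ∈ (univ : Finset V), (L v \ big L k).card + (L v ∩ big L k).card = k := by
      intro v _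
      rw [Finset.card_sdiff_add_card_inter, hL v]
    rw [Finset.sum_congr rfl this]
    simp [mul_comm]
  -- sum over nonfixed
  have h2 : ∑ v ∈ univ.filter (fun v => mate v ≠ v), (L (mate v) ∩ big L k).card =
      ∑ v ∈ univ.filter (fun v => mate v ≠ v), (L v ∩ big L k).card := by
    refine Finset.sum_nbij' mate mate ?_ ?_ ?_ ?_ ?_
    · intro v hv
      rw [Finset.mem_filter] at hv ⊢
      refine ⟨Finset.mem_univ _, ?_⟩
      rw [hmate]
      exact fun h => hv.2 h.symm
    · intro v hv
      rw [Finset.mem_filter] at hv ⊢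
      refine ⟨Finset.mem_univ _, ?_⟩
      rw [hmate]
      exact fun h => hv.2 h.symm
    · intro v _
      exact hmate v
    · intro v _
      exact hmate v
    · intro v _
      rfl
  have h3 : 2 * ∑ v ∈ univ.filter (fun v => mate v ≠ v), (L v ∩ big L k).card +
      ∑ v ∈ univ.filter (fun v => mate v ≠ v), omi mate L k v =
      (univ.filter (fun v => mate v ≠ v)).card * β +
        ∑ v ∈ univ.filter (fun v => mate v ≠ v), gam mate L k v := by
    have : ∑ v ∈ univ.filter (fun v => mate v ≠ v), ((L v ∩ big L k).card +
        (L (mate v) ∩ big L k).card + omi mate L k v) =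
        ∑ v ∈ univ.filter (fun v => mate v ≠ v), (β + gam mate L k v) :=
      Finset.sum_congr rfl fun v _ => count_pair mate L k v
    rw [Finset.sum_add_distrib, Finset.sum_add_distrib, Finset.sum_add_distrib, h2] at this
    simp only [Finset.sum_const, smul_eq_mul] at this
    omega
  have h4 : ∑ v, (L v ∩ big L k).card =
      ∑ v ∈ univ.filter (fun v => mate v ≠ v), (L v ∩ big L k).card +
      ∑ v ∈ univ.filter (fun v => mate v = v), (L v ∩ big L k).card := by
    rw [add_comm]
    exact (Finset.sum_filter_add_sum_filter_not univ (fun v => mate v = v) _).symm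
  have h5 : ∑ v ∈ univ.filter (fun v => mate v = v), (L v ∩ big L k).card ≤
      (univ.filter (fun v => mate v = v)).card * β := by
    have := Finset.sum_le_card_nsmul (univ.filter (fun v => mate v = v))
      (fun v => (L v ∩ big L k).card) β
      (fun v _ => Finset.card_le_card Finset.inter_subset_right)
    simpa using this
  have h6 : (univ.filter (fun v => mate v ≠ v)).card +
      (univ.filter (fun v => mate v = v)).card = Fintype.card V := by
    rw [add_comm]
    have := Finset.card_filter_add_card_filter_not (s := (univ : Finset V)) (fun v => mate v = v)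
    simpa using this
  have h7 : ((univ.filter (fun v => mate v ≠ v)).card +
      2 * (univ.filter (fun v => mate v = v)).card) * β ≤ 2 * k * β := by
    refine Nat.mul_le_mul_right _ ?_
    omega
  have h8 : ((univ.filter (fun v => mate v ≠ v)).card +
      2 * (univ.filter (fun v => mate v = v)).card) * β =
      (univ.filter (fun v => mate v ≠ v)).card * β +
      2 * ((univ.filter (fun v => mate v = v)).card * β) := by ring
  have h9 : 2 * k * Fintype.card V = 2 * (k * Fintype.card V) := by ring
  rw [h9]
  omega

/-- E4 -/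
theorem big_card {L : V → Finset C} {k : ℕ} (hL : ∀ v, (L v).card = k)
    (hV : Fintype.card V + 1 ≤ 2 * k) (hC : Fintype.card C < Fintype.card V) :
    Fintype.card V - Fintype.card C + 1 ≤ (big L k).card := by
  have h1 : ∑ c, deg L c = k * Fintype.card V := by
    unfold deg
    simp only [Finset.card_filter]
    rw [Finset.sum_comm]
    have : ∀ v ∈ (univ : Finset V), ∑ c, (if c ∈ L v then 1 else 0) = k := by
      intro v _
      rw [← hL v]
      simp
    rw [Finset.sum_congr rfl this]
    simp [mul_comm]
  have h2 : ∑ c, deg L c = ∑ c ∈ big L k, deg L c + ∑ c ∈ (big L k)ᶜ, deg L c :=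
    (Finset.sum_add_sum_compl (big L k) _).symm
  have h3 : ∑ c ∈ big L k, deg L c ≤ (big L k).card * (2 * k - 1) := by
    have := Finset.sum_le_card_nsmul (big L k) (fun c => deg L c) (2 * k - 1) (by
      intro c _
      have : deg L c ≤ Fintype.card V := by
        unfold deg
        exact Finset.card_le_univ _
      omega)
    simpa using this
  have h4 : ∑ c ∈ (big L k)ᶜ, deg L c ≤ (big L k)ᶜ.card * k := by
    have := Finset.sum_le_card_nsmul (big L k)ᶜ (fun c => deg L c) k (by
      intro c hc
      rw [Finset.mem_compl] at hc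
      by_contra h
      push Not at h
      exact hc (by simp [big]; omega))
    simpa using this
  have h5 : (big L k).card + (big L k)ᶜ.card = Fintype.card C := Finset.card_add_card_compl _
  have hk : 1 ≤ k := by omega
  by_contra hcon
  push Not at hcon
  have h6 : (big L k).card ≤ Fintype.card V - Fintype.card C := by omega
  obtain ⟨d, hd⟩ : ∃ d, Fintype.card V = Fintype.card C + d := ⟨_, (Nat.add_sub_of_le hC.le).symm⟩
  have h7 : (big L k).card ≤ d := by omega
  have hd1 : 1 ≤ d := by omega
  obtain ⟨k', rfl⟩ : ∃ k', k = k' + 1 := ⟨k - 1, by omega⟩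
  have h8 : 2 * (k' + 1) - 1 = 2 * k' + 1 := by omega
  rw [h8] at h3
  rw [hd, ← h5] at h1
  have h9 : (k' + 1) * ((big L (k' + 1)).card + (big L (k' + 1))ᶜ.card + d) ≤
      (big L (k' + 1)).card * (2 * k' + 1) + (big L (k' + 1))ᶜ.card * (k' + 1) := by
    rw [← h1, h2]
    exact Nat.add_le_add h3 h4
  nlinarith [h9, h7, hd1, Nat.mul_le_mul_right k' h7]

end Pool.Agent.H.MP_f0eba7_co
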