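import Pool.Agent.H.MP_f0eba7_co.Defs

/-!
The matching polytope from the perfect matching polytope by doubling
(job 411 of MP_f0eba7_co).
-/

namespace Pool.Agent.H.MP_f0eba7_co

open Finset

variable {V C : Type} [Fintype V] [DecidableEq V] [Fintype C] [DecidableEq C]

/-- The doubled weighting on two copies of `V`, the two copies of `v` being joined by the
missing degree of `v`. -/
def dbl (z : V → V → ℝ) : V ⊕ V → V ⊕ V → ℝ
  | Sum.inl u, Sum.inl v => z u v
  | Sum.inr u, Sum.inr v => z u v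
  | Sum.inl u, Sum.inr v => if u = v then 1 - ∑ w, z u w else 0
  | Sum.inr u, Sum.inl v => if u = v then 1 - ∑ w, z u w else 0

/-- the inequality for one side -/
theorem Double_key {z : V → V → ℝ} (hz : MP z) (A B : Finset V) (hD : Odd (A \ B).card) :
    1 ≤ (∑ u ∈ A, ∑ v ∈ Aᶜ, z u v) + (∑ u ∈ B, ∑ v ∈ Bᶜ, z u v)
      + ∑ u ∈ A \ B, (1 - ∑ w, z u w) := by
  set D := A \ B with hDdef
  have h1 : ∑ u ∈ D, ∑ v ∈ Dᶜ, z u v ≤ (∑ u ∈ A, ∑ v ∈ Aᶜ, z u v)
      + ∑ u ∈ B, ∑ v ∈ Bᶜ, z u v := by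
    have e : Dᶜ = Aᶜ ∪ (A ∩ B) := by
      ext v
      simp only [hDdef, mem_compl, mem_sdiff, mem_union, mem_inter]
      tauto
    have hdisj : Disjoint Aᶜ (A ∩ B) := by
      rw [Finset.disjoint_left]
      intro v h1 h2
      exact (mem_compl.1 h1) (mem_inter.1 h2).1
    have e2 : ∑ u ∈ D, ∑ v ∈ Dᶜ, z u v
        = ∑ u ∈ D, ∑ v ∈ Aᶜ, z u v + ∑ u ∈ D, ∑ v ∈ A ∩ B, z u v := by
      rw [← Finset.sum_add_distrib]
      refine Finset.sum_congr rfl fun u _ => ?_
      rw [e, Finset.sum_union hdisj]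
    rw [e2]
    refine add_le_add ?_ ?_
    · exact Finset.sum_le_sum_of_subset_of_nonneg sdiff_subset
        (fun u _ _ => Finset.sum_nonneg fun v _ => hz.nonneg u v)
    · rw [Finset.sum_comm]
      have e3 : ∑ v ∈ A ∩ B, ∑ u ∈ D, z u v = ∑ v ∈ A ∩ B, ∑ u ∈ D, z v u :=
        Finset.sum_congr rfl fun v _ => Finset.sum_congr rfl fun u _ => hz.symm u v
      rw [e3]
      have h2 : ∑ v ∈ A ∩ B, ∑ u ∈ D, z v u ≤ ∑ v ∈ B, ∑ u ∈ D, z v u :=
        Finset.sum_le_sum_of_subset_of_nonneg inter_subset_right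
          (fun u _ _ => Finset.sum_nonneg fun v _ => hz.nonneg u v)
      refine h2.trans (Finset.sum_le_sum fun v _ => ?_)
      refine Finset.sum_le_sum_of_subset_of_nonneg ?_ (fun u _ _ => hz.nonneg v u)
      intro u hu
      rw [mem_compl]
      exact (mem_sdiff.1 hu).2
  have h3 : ∑ u ∈ D, ∑ v ∈ Dᶜ, z u v + ∑ u ∈ D, (1 - ∑ w, z u w)
      = (D.card : ℝ) - ∑ u ∈ D, ∑ v ∈ D, z u v := by
    rw [← Finset.sum_add_distrib]
    have e : ∀ u ∈ D, (∑ v ∈ Dᶜ, z u v + (1 - ∑ w, z u w)) = 1 - ∑ v ∈ D, z u v := by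
      intro u _
      have := Finset.sum_add_sum_compl D (fun v => z u v)
      linarith
    rw [Finset.sum_congr rfl e, Finset.sum_sub_distrib]
    simp
  have h4 := hz.odd D hD
  linarith

/-- B1 -/
theorem dbl_pmp {z : V → V → ℝ} (hz : MP z) : PMP (dbl z) := by
  refine ⟨?_, ?_, ?_, ?_, ?_⟩
  · rintro (u | u) (v | v)
    · exact hz.nonneg u v
    · simp only [dbl]
      split_ifs
      · have := hz.deg u; linarith
      · exact le_rfl
    · simp only [dbl]
      split_ifs
      · have := hz.deg u; linarith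
      · exact le_rfl
    · exact hz.nonneg u v
  · rintro (u | u) (v | v)
    · exact hz.symm u v
    · simp only [dbl]
      by_cases h : u = v
      · subst h; simp
      · have h' : ¬ v = u := fun e => h e.symm
        simp [h, h']
    · simp only [dbl]
      by_cases h : u = v
      · subst h; simp
      · have h' : ¬ v = u := fun e => h e.symm
        simp [h, h']
    · exact hz.symm u v
  · rintro (u | u)
    · exact hz.diag u
    · exact hz.diag u
  · rintro (u | u)
    · rw [Fintype.sum_sum_type]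
      simp only [dbl]
      rw [Finset.sum_ite_eq]
      simp
    · rw [Fintype.sum_sum_type]
      simp only [dbl]
      rw [Finset.sum_ite_eq]
      simp
  · intro S hS
    set A : Finset V := univ.filter (fun v => (Sum.inl v : V ⊕ V) ∈ S) with hA
    set B : Finset V := univ.filter (fun v => (Sum.inr v : V ⊕ V) ∈ S) with hB
    have hSsum : ∀ f : V ⊕ V → ℝ, ∑ x ∈ S, f x
        = ∑ v ∈ A, f (Sum.inl v) + ∑ v ∈ B, f (Sum.inr v) := by
      intro f
      have h1 : ∑ x ∈ S, f x = ∑ x, if x ∈ S then f x else 0 := by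
        rw [← Finset.sum_filter]; simp
      rw [h1, Fintype.sum_sum_type, hA, hB, Finset.sum_filter, Finset.sum_filter]
    have hScsum : ∀ f : V ⊕ V → ℝ, ∑ x ∈ Sᶜ, f x
        = ∑ v ∈ Aᶜ, f (Sum.inl v) + ∑ v ∈ Bᶜ, f (Sum.inr v) := by
      intro f
      have h1 := Finset.sum_add_sum_compl S f
      have h2 := Finset.sum_add_sum_compl A (fun v => f (Sum.inl v))
      have h3 := Finset.sum_add_sum_compl B (fun v => f (Sum.inr v))
      rw [hSsum f, Fintype.sum_sum_type] at h1
      linarith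
    have hcard : S.card = A.card + B.card := by
      have h1 := hSsum (fun _ => 1)
      simp only [Finset.sum_const, nsmul_eq_mul, mul_one] at h1
      exact_mod_cast h1
    have hcut : ∑ x ∈ S, ∑ y ∈ Sᶜ, dbl z x y
        = (∑ u ∈ A, ∑ v ∈ Aᶜ, z u v) + (∑ u ∈ B, ∑ v ∈ Bᶜ, z u v)
          + (∑ u ∈ A \ B, (1 - ∑ w, z u w) + ∑ u ∈ B \ A, (1 - ∑ w, z u w)) := by
      rw [hSsum]
      simp only [hScsum]
      simp only [dbl]
      have e1 : ∀ u ∈ A, (∑ v ∈ Bᶜ, if u = v then 1 - ∑ w, z u w else 0)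
          = if u ∈ Bᶜ then 1 - ∑ w, z u w else 0 := by
        intro u _
        rw [Finset.sum_ite_eq]
      have e2 : ∀ u ∈ B, (∑ v ∈ Aᶜ, if u = v then 1 - ∑ w, z u w else 0)
          = if u ∈ Aᶜ then 1 - ∑ w, z u w else 0 := by
        intro u _
        rw [Finset.sum_ite_eq]
      rw [Finset.sum_add_distrib, Finset.sum_add_distrib, Finset.sum_congr rfl e1,
        Finset.sum_congr rfl e2, ← Finset.sum_filter, ← Finset.sum_filter]
      have e3 : A.filter (fun u => u ∈ Bᶜ) = A \ B := by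
        ext u; simp
      have e4 : B.filter (fun u => u ∈ Aᶜ) = B \ A := by
        ext u; simp
      rw [e3, e4]
      ring
    rw [hcut]
    have hnn : ∀ (T : Finset V), 0 ≤ ∑ u ∈ T, (1 - ∑ w, z u w) := fun T =>
      Finset.sum_nonneg fun u _ => by have := hz.deg u; linarith
    have hAB : A.card = (A \ B).card + (A ∩ B).card := (card_sdiff_add_card_inter A B).symm
    have hBA : B.card = (B \ A).card + (A ∩ B).card := by
      rw [inter_comm]; exact (card_sdiff_add_card_inter B A).symm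
    rcases Nat.even_or_odd (A \ B).card with hev | hod
    · have hod2 : Odd (B \ A).card := by
        rcases Nat.even_or_odd (B \ A).card with h | h
        · exfalso
          rw [hcard, hAB, hBA] at hS
          have : Even ((A \ B).card + (A ∩ B).card + ((B \ A).card + (A ∩ B).card)) := by
            obtain ⟨a, ha⟩ := hev
            obtain ⟨b, hb⟩ := h
            exact ⟨a + b + (A ∩ B).card, by omega⟩
          exact (Nat.not_even_iff_odd.2 hS) this
        · exact h
      have h1 := Double_key hz B A hod2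
      have h2 := hnn (A \ B)
      linarith
    · have h1 := Double_key hz A B hod
      have h2 := hnn (B \ A)
      linarith

/-- B2 -/
theorem mdec_of_dbl {z : V → V → ℝ} (hz : Dec (dbl z)) : MDec z := by
  obtain ⟨ι, hι, lam, σ, h0, hpm, hsum, hx⟩ := hz
  refine ⟨ι, hι, lam, fun i v => Sum.elim id (fun _ => v) (σ i (Sum.inl v)), h0, ?_, hsum, ?_⟩
  · intro i v
    rcases hσ : σ i (Sum.inl v) with u | u
    · have h1 : σ i (Sum.inl u) = Sum.inl v := by rw [← hσ]; exact (hpm i).1 _
      simp [hσ, h1]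
    · simp [hσ]
  · intro u v huv
    have h1 := hx (Sum.inl u) (Sum.inl v)
    have h2 : dbl z (Sum.inl u) (Sum.inl v) = z u v := rfl
    rw [h2] at h1
    rw [← h1]
    refine Finset.sum_congr rfl fun i _ => ?_
    have h3 : Sum.elim id (fun _ => u) (σ i (Sum.inl u)) = v ↔ σ i (Sum.inl u) = Sum.inl v := by
      rcases hσ : σ i (Sum.inl u) with w | w
      · simp
      · simp [huv]
    by_cases h4 : σ i (Sum.inl u) = Sum.inl v
    · rw [if_pos h4, if_pos (h3.2 h4)]
    · rw [if_neg h4, if_neg (fun h => h4 (h3.1 h))]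

end Pool.Agent.H.MP_f0eba7_co
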