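import Pool.Agent.H.MP_f0eba7_co.Defs

namespace Pool.Agent.H.MP_f0eba7_co

open Finset

variable {V C : Type} [Fintype V] [DecidableEq V] [Fintype C] [DecidableEq C]

/-- the invariant of the exchange argument -/
structure ExUTriple (mate : V → V) (L : V → Finset C) (k : ℕ) (UP : Finset V)
    (m : C → V) (D : Finset C) (U' : Finset V) : Prop where
  small : ∀ c ∈ D, c ∉ big L k
  sub : U' ⊆ UP
  closed : ∀ v ∈ U', mate v ∈ U'
  inj : Set.InjOn m (D : Set C)
  mem : ∀ c ∈ D, c ∈ L (m c) ∧ m c ∉ U'
  size : 2 * Fintype.card V ≤ U'.card + 2 * D.card + 2 * (big L k).card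

theorem exU_extend {mate : V → V} {L : V → Finset C} {k : ℕ} {UP : Finset V} {g : C → V}
    {m : C → V} {D : Finset C} {U' : Finset V} (h : ExUTriple mate L k UP m D U')
    {c : C} (hc : c ∉ big L k) (hcD : c ∉ D) (hgc : c ∈ L (g c))
    {D1 : Finset C} {U1 : Finset V} (hD1 : D1 ⊆ D) (hU1 : U1 ⊆ U')
    (hcl : ∀ v ∈ U1, mate v ∈ U1) (hgU : g c ∉ U1) (hm : ∀ c' ∈ D1, m c' ≠ g c)
    (hsize : 2 * Fintype.card V ≤ U1.card + 2 * (D1.card + 1) + 2 * (big L k).card)
    (hag : ∀ c' ∈ D, m c' = g c' → c' ∈ D1) :
    ExUTriple mate L k UP (Function.update m c (g c)) (insert c D1) U1 ∧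
      (D.filter (fun c => m c = g c)).card <
        ((insert c D1).filter (fun c' => Function.update m c (g c) c' = g c')).card := by
  have hcD1 : c ∉ D1 := fun h1 => hcD (hD1 h1)
  have hne : ∀ c' ∈ D1, c' ≠ c := fun c' h1 h2 => hcD1 (h2 ▸ h1)
  refine ⟨⟨?_, ?_, hcl, ?_, ?_, ?_⟩, ?_⟩
  · intro c' hc'
    rw [mem_insert] at hc'
    rcases hc' with rfl | hc'
    · exact hc
    · exact h.small c' (hD1 hc')
  · exact hU1.trans h.sub
  · intro a ha b hb hab
    rw [mem_coe, mem_insert] at ha hb
    rcases ha with rfl | ha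
    · rcases hb with rfl | hb
      · rfl
      · rw [Function.update_self, Function.update_of_ne (hne b hb)] at hab
        exact absurd hab.symm (hm b hb)
    · rcases hb with rfl | hb
      · rw [Function.update_self, Function.update_of_ne (hne a ha)] at hab
        exact absurd hab (hm a ha)
      · rw [Function.update_of_ne (hne a ha), Function.update_of_ne (hne b hb)] at hab
        exact h.inj (hD1 ha) (hD1 hb) hab
  · intro c' hc'
    rw [mem_insert] at hc'
    rcases hc' with rfl | hc'
    · rw [Function.update_self]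
      exact ⟨hgc, hgU⟩
    · rw [Function.update_of_ne (hne c' hc')]
      have h1 := h.mem c' (hD1 hc')
      exact ⟨h1.1, fun h2 => h1.2 (hU1 h2)⟩
  · rw [card_insert_of_notMem hcD1]
    exact hsize
  · have h1 : insert c (D.filter (fun c => m c = g c)) ⊆
        (insert c D1).filter (fun c' => Function.update m c (g c) c' = g c') := by
      intro c' hc'
      rw [mem_insert, mem_filter] at hc'
      rw [mem_filter, mem_insert]
      rcases hc' with rfl | ⟨h1, h2⟩
      · exact ⟨Or.inl rfl, by rw [Function.update_self]⟩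
      · have h3 := hag c' h1 h2
        refine ⟨Or.inr h3, ?_⟩
        rw [Function.update_of_ne (hne c' h3)]
        exact h2
    have h2 := card_le_card h1
    rw [card_insert_of_notMem (fun h3 => hcD (mem_filter.1 h3).1)] at h2
    omega

theorem exU_step {mate : V → V} (hmate : ∀ v, mate (mate v) = v) {L : V → Finset C} {k : ℕ}
    {UP : Finset V} {g : C → V}
    (hg : Function.Injective g) (hgL : ∀ c, c ∈ L (g c))
    {m : C → V} {D : Finset C} {U' : Finset V} (h : ExUTriple mate L k UP m D U')
    {c : C} (hc : c ∉ big L k) (hcD : c ∉ D) :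
    ∃ (m' : C → V) (D' : Finset C) (U'' : Finset V), ExUTriple mate L k UP m' D' U'' ∧
      (D.filter (fun c => m c = g c)).card < (D'.filter (fun c => m' c = g c)).card := by
  by_cases h1 : g c ∈ U'
  · refine ⟨_, _, _, exU_extend (g := g) h hc hcD (hgL c) (D1 := D)
      (U1 := (U'.erase (g c)).erase (mate (g c))) (Subset.refl _) ?_ ?_ ?_ ?_ ?_ ?_⟩
    · exact (erase_subset _ _).trans (erase_subset _ _)
    · intro w hw
      rw [mem_erase, mem_erase] at hw ⊢
      obtain ⟨w1, w2, w3⟩ := hw
      refine ⟨?_, ?_, h.closed w w3⟩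
      · intro h2
        apply w2
        rw [← hmate w, h2, hmate]
      · intro h2
        apply w1
        rw [← h2, hmate]
    · intro h2
      rw [mem_erase, mem_erase] at h2
      exact h2.2.1 rfl
    · intro c' hc' h2
      exact (h.mem c' hc').2 (h2 ▸ h1)
    · have h2 := h.size
      have h3 : U'.card ≤ ((U'.erase (g c)).erase (mate (g c))).card + 2 := by
        have h4 := pred_card_le_card_erase (s := U') (a := g c)
        have h5 := pred_card_le_card_erase (s := U'.erase (g c)) (a := mate (g c))
        omega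
      omega
    · exact fun c' hc' _ => hc'
  · by_cases h2 : ∃ c' ∈ D, m c' = g c
    · obtain ⟨c', hc', hmc⟩ := h2
      refine ⟨_, _, _, exU_extend (g := g) h hc hcD (hgL c) (D1 := D.erase c')
        (U1 := U') (erase_subset _ _) (Subset.refl _) h.closed h1 ?_ ?_ ?_⟩
      · intro d hd hd2
        rw [mem_erase] at hd
        exact hd.1 (h.inj hd.2 hc' (hd2.trans hmc.symm))
      · have h2 := h.size
        rw [card_erase_of_mem hc']
        have h3 : 1 ≤ D.card := card_pos.2 ⟨c', hc'⟩
        omega
      · intro d hd hd2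
        rw [mem_erase]
        refine ⟨?_, hd⟩
        rintro rfl
        rw [hmc] at hd2
        exact hcD (hg hd2 ▸ hd)
    · push Not at h2
      refine ⟨_, _, _, exU_extend (g := g) h hc hcD (hgL c) (D1 := D)
        (U1 := U') (Subset.refl _) (Subset.refl _) h.closed h1 h2 ?_ ?_⟩
      · have h2 := h.size
        omega
      · exact fun c' hc' _ => hc'

theorem exU_iter {mate : V → V} (hmate : ∀ v, mate (mate v) = v) {L : V → Finset C} {k : ℕ}
    {UP : Finset V} {g : C → V}
    (hg : Function.Injective g) (hgL : ∀ c, c ∈ L (g c)) (j : ℕ) :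
    ∀ (m : C → V) (D : Finset C) (U' : Finset V), ExUTriple mate L k UP m D U' →
      Fintype.card C ≤ (D.filter (fun c => m c = g c)).card + j →
      ∃ (m' : C → V) (D' : Finset C) (U'' : Finset V), ExUTriple mate L k UP m' D' U'' ∧
        ∀ c, c ∉ big L k → c ∈ D' := by
  induction j with
  | zero =>
    intro m D U' h hcard
    refine ⟨m, D, U', h, ?_⟩
    intro c _
    have h1 : (D.filter (fun c => m c = g c)).card = Fintype.card C :=
      le_antisymm (card_le_univ _) (by omega)
    have h2 : D.filter (fun c => m c = g c) = univ := (card_eq_iff_eq_univ _).1 h1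
    have h3 : c ∈ D.filter (fun c => m c = g c) := by
      rw [h2]
      exact mem_univ c
    exact (mem_filter.1 h3).1
  | succ j ih =>
    intro m D U' h hcard
    by_cases hall : ∀ c, c ∉ big L k → c ∈ D
    · exact ⟨m, D, U', h, hall⟩
    · push Not at hall
      obtain ⟨c, hc, hcD⟩ := hall
      obtain ⟨m', D', U'', h', hlt⟩ := exU_step hmate hg hgL h hc hcD
      exact ih m' D' U'' h' (by omega)

omit [Fintype V] in
theorem exU_trim {mate : V → V} (hmate : ∀ v, mate (mate v) = v) {U' : Finset V}
    (hcl : ∀ v ∈ U', mate v ∈ U') (hne : ∀ v ∈ U', mate v ≠ v) (δ : ℕ) :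
    2 * δ ≤ U'.card → ∃ U ⊆ U', (∀ v ∈ U, mate v ∈ U) ∧ U.card = 2 * δ := by
  induction δ with
  | zero =>
    intro _
    exact ⟨∅, empty_subset _, fun v hv => absurd hv (notMem_empty v), rfl⟩
  | succ δ ih =>
    intro h
    obtain ⟨U, hU, hUcl, hUc⟩ := ih (by omega)
    obtain ⟨v, hv, hvU⟩ : ∃ v ∈ U', v ∉ U := by
      by_contra hcon
      push Not at hcon
      have := card_le_card hcon
      omega
    have hmv : mate v ∉ U := by
      intro h1
      have := hUcl _ h1
      rw [hmate] at this
      exact hvU this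
    refine ⟨insert v (insert (mate v) U), ?_, ?_, ?_⟩
    · intro w hw
      rw [mem_insert, mem_insert] at hw
      rcases hw with rfl | rfl | hw
      · exact hv
      · exact hcl v hv
      · exact hU hw
    · intro w hw
      rw [mem_insert, mem_insert] at hw ⊢
      rcases hw with rfl | rfl | hw
      · exact Or.inr (Or.inl rfl)
      · exact Or.inl (hmate v)
      · exact Or.inr (Or.inr (hUcl w hw))
    · rw [card_insert_of_notMem, card_insert_of_notMem hmv, hUc]
      · ring
      · rw [mem_insert]
        rintro (h1 | h1)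
        · exact hne v hv h1.symm
        · exact hvU h1

/-- F1: from the matching `τ` to a set `U` of `2δ` vertices (closed under `mate`) such that the
small colours satisfy Hall's condition outside `U` and the weights are small. -/
theorem exists_U {mate : V → V} (hmate : ∀ v, mate (mate v) = v) {L : V → Finset C} {k δ : ℕ}
    (hδ : Fintype.card V = Fintype.card C + δ)
    (hHall : ∀ S : Finset C, S.card ≤ (nb L S).card)
    {τ : V ⊕ C → V ⊕ C} (hτ : ∀ x, τ (τ x) = x)
    (hpos : ∀ x, τ x ≠ x → 0 < ymul mate L k x (τ x))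
    (hbig : 2 * Fintype.card V ≤ (univ.filter (fun x => τ x ≠ x)).card + 2 * (big L k).card)
    (hw : ∑ x ∈ univ.filter (fun x => τ x ≠ x), wgt mate L k δ x (τ x) < 2) :
    ∃ U : Finset V, (∀ v ∈ U, mate v ∈ U) ∧ (∀ v ∈ U, mate v ≠ v) ∧
      (∀ v ∈ U, 1 ≤ gam mate L k v) ∧ U.card = 2 * δ ∧
      (∀ S : Finset C, Disjoint S (big L k) → S.card ≤ (nb L S \ U).card) ∧
      ∑ v ∈ U.filter (fun v => gam mate L k v < δ), 1 / ((gam mate L k v : ℝ) + 1) < 2 := by
  -- Hall's injection
  obtain ⟨g, hg, hgL⟩ : ∃ g : C → V, Function.Injective g ∧ ∀ c, c ∈ L (g c) := by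
    have h1 := (Finset.all_card_le_biUnion_card_iff_exists_injective
      (fun c : C => univ.filter (fun v => c ∈ L v))).1 (by
        intro S
        refine (hHall S).trans (card_le_card ?_)
        intro v hv
        unfold nb at hv
        rw [mem_filter] at hv
        obtain ⟨-, c, hc1, hc2⟩ := hv
        rw [mem_biUnion]
        exact ⟨c, hc1, mem_filter.2 ⟨mem_univ _, hc2⟩⟩)
    obtain ⟨g, h2, h3⟩ := h1
    exact ⟨g, h2, fun c => (mem_filter.1 (h3 c)).2⟩
  set UP : Finset V := univ.filter (fun v => τ (Sum.inl v) = Sum.inl (mate v) ∧ mate v ≠ v)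
    with hUP
  have hUPgam : ∀ v ∈ UP, 1 ≤ gam mate L k v := by
    intro v hv
    rw [hUP, mem_filter] at hv
    obtain ⟨-, h1, h2⟩ := hv
    have h3 := hpos (Sum.inl v) (by
      rw [h1]
      intro h4
      exact h2 (Sum.inl_injective h4))
    rw [h1] at h3
    change 0 < (if mate v = mate v ∧ v ≠ mate v then gam mate L k v else 0) at h3
    rw [if_pos ⟨rfl, fun h4 => h2 h4.symm⟩] at h3
    exact h3
  set D0 : Finset C := univ.filter (fun c => τ (Sum.inr c) ≠ Sum.inr c) with hD0
  set m0 : C → V := fun c => Sum.elim id (fun _ => g c) (τ (Sum.inr c)) with hm0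
  have hD0' : ∀ c ∈ D0, τ (Sum.inr c) = Sum.inl (m0 c) ∧ c ∈ L (m0 c) ∧ c ∉ big L k := by
    intro c hc
    rw [hD0, mem_filter] at hc
    have h1 := hpos _ hc.2
    rcases h2 : τ (Sum.inr c) with v | c'
    · rw [h2] at h1
      change 0 < (if c ∈ L v ∧ c ∉ big L k then 1 else 0) at h1
      have h3 : m0 c = v := by
        rw [hm0]
        change Sum.elim id (fun _ => g c) (τ (Sum.inr c)) = v
        rw [h2]
        rfl
      rw [h3]
      by_cases h4 : c ∈ L v ∧ c ∉ big L k
      · exact ⟨rfl, h4⟩
      · rw [if_neg h4] at h1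
        exact absurd h1 (lt_irrefl 0)
    · rw [h2] at h1
      exact absurd h1 (lt_irrefl 0)
  have hmoved : (univ.filter (fun x : V ⊕ C => τ x ≠ x)).card ≤ UP.card + 2 * D0.card := by
    rw [← card_toLeft_add_card_toRight]
    have h1 : (univ.filter (fun x : V ⊕ C => τ x ≠ x)).toLeft ⊆ UP ∪ D0.image m0 := by
      intro v hv
      rw [mem_toLeft, mem_filter] at hv
      rw [mem_union]
      have h2 := hpos _ hv.2
      rcases h3 : τ (Sum.inl v) with w | c
      · left
        rw [h3] at h2
        change 0 < (if mate v = w ∧ v ≠ w then gam mate L k v else 0) at h2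
        by_cases h4 : mate v = w ∧ v ≠ w
        · rw [hUP, mem_filter]
          refine ⟨mem_univ _, ?_, ?_⟩
          · rw [h3, h4.1]
          · rw [h4.1]
            exact fun h5 => h4.2 h5.symm
        · rw [if_neg h4] at h2
          exact absurd h2 (lt_irrefl 0)
      · right
        have h4 : τ (Sum.inr c) = Sum.inl v := by rw [← h3, hτ]
        have h5 : c ∈ D0 := by
          rw [hD0, mem_filter]
          refine ⟨mem_univ _, ?_⟩
          rw [h4]
          exact Sum.inl_ne_inr
        rw [mem_image]
        refine ⟨c, h5, ?_⟩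
        have h6 := (hD0' c h5).1
        rw [h4] at h6
        exact (Sum.inl_injective h6).symm
    have h2 : (univ.filter (fun x : V ⊕ C => τ x ≠ x)).toRight = D0 := by
      ext c
      rw [mem_toRight, mem_filter, hD0, mem_filter]
      simp only [mem_univ, true_and]
    have h3 := card_le_card h1
    have h4 := card_union_le UP (D0.image m0)
    have h5 : (D0.image m0).card ≤ D0.card := card_image_le
    rw [h2]
    omega
  have htr0 : ExUTriple mate L k UP m0 D0 UP := by
    refine ⟨fun c hc => (hD0' c hc).2.2, Subset.refl _, ?_, ?_, ?_, ?_⟩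
    · intro v hv
      rw [hUP, mem_filter] at hv ⊢
      obtain ⟨-, h1, h2⟩ := hv
      refine ⟨mem_univ _, ?_, ?_⟩
      · rw [hmate, ← h1, hτ]
      · rw [hmate]
        exact fun h3 => h2 h3.symm
    · intro a ha b hb hab
      have h1 := (hD0' a ha).1
      have h2 := (hD0' b hb).1
      rw [hab, ← h2] at h1
      have h3 := congrArg τ h1
      rw [hτ, hτ] at h3
      exact Sum.inr_injective h3
    · intro c hc
      refine ⟨(hD0' c hc).2.1, ?_⟩
      intro h1
      rw [hUP, mem_filter] at h1
      have h2 := (hD0' c hc).1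
      have h3 := congrArg τ h2
      rw [hτ, h1.2.1] at h3
      exact Sum.inr_ne_inl h3
    · omega
  obtain ⟨m, D, U', htr, hall⟩ := exU_iter hmate hg hgL (Fintype.card C) m0 D0 UP htr0
    (by omega)
  have hDcard : D.card + (big L k).card ≤ Fintype.card C := by
    have h1 : Disjoint D (big L k) := by
      rw [disjoint_left]
      exact htr.small
    rw [← card_union_of_disjoint h1]
    exact card_le_univ _
  have hsize := htr.size
  have hne : ∀ v ∈ U', mate v ≠ v := by
    intro v hv
    have := htr.sub hv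
    rw [hUP, mem_filter] at this
    exact this.2.2
  obtain ⟨U, hU, hUcl, hUc⟩ := exU_trim hmate htr.closed hne δ (by omega)
  refine ⟨U, hUcl, fun v hv => hne v (hU hv), fun v hv => hUPgam v (htr.sub (hU hv)), hUc, ?_, ?_⟩
  · intro S hS
    apply card_le_card_of_injOn m
    · intro c hc
      have hcb : c ∉ big L k := (disjoint_left.1 hS) hc
      have h1 := htr.mem c (hall c hcb)
      rw [mem_coe, mem_sdiff]
      refine ⟨?_, fun h2 => h1.2 (hU h2)⟩
      unfold nb
      rw [mem_filter]
      exact ⟨mem_univ _, c, hc, h1.1⟩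
    · intro a ha b hb hab
      exact htr.inj (hall a ((disjoint_left.1 hS) ha)) (hall b ((disjoint_left.1 hS) hb)) hab
  · refine lt_of_le_of_lt ?_ hw
    have h1 : ∑ v ∈ U.filter (fun v => gam mate L k v < δ), 1 / ((gam mate L k v : ℝ) + 1) =
        ∑ x ∈ (U.filter (fun v => gam mate L k v < δ)).map ⟨Sum.inl, Sum.inl_injective⟩,
          wgt mate L k δ x (τ x) := by
      rw [sum_map]
      refine sum_congr rfl fun v hv => ?_
      rw [mem_filter] at hv
      have h2 := htr.sub (hU hv.1)
      rw [hUP, mem_filter] at h2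
      change _ = wgt mate L k δ (Sum.inl v) (τ (Sum.inl v))
      rw [h2.2.1]
      change _ = if mate v = mate v ∧ v ≠ mate v ∧ gam mate L k v < δ then
        1 / ((gam mate L k v : ℝ) + 1) else 0
      rw [if_pos ⟨rfl, fun h3 => h2.2.2 h3.symm, hv.2⟩]
    rw [h1]
    apply sum_le_sum_of_subset_of_nonneg
    · intro x hx
      rw [mem_map] at hx
      obtain ⟨v, hv, rfl⟩ := hx
      rw [mem_filter] at hv
      have h2 := htr.sub (hU hv.1)
      rw [hUP, mem_filter] at h2
      rw [mem_filter]
      refine ⟨mem_univ _, ?_⟩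
      change τ (Sum.inl v) ≠ Sum.inl v
      rw [h2.2.1]
      intro h3
      exact h2.2.2 (Sum.inl_injective h3)
    · intro x _ _
      rcases x with v | c
      · rcases τ (Sum.inl v) with w | c
        · change 0 ≤ if mate v = w ∧ v ≠ w ∧ gam mate L k v < δ then
            1 / ((gam mate L k v : ℝ) + 1) else 0
          split_ifs
          · positivity
          · exact le_refl 0
        · exact le_refl 0
      · exact le_refl 0

end Pool.Agent.H.MP_f0eba7_co
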