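import Pool.Agent.H.MP_f0eba7_co.Defs

/-!
Lower bounds on colour classes (job 418 of MP_f0eba7_co).
-/

namespace Pool.Agent.H.MP_f0eba7_co

open Finset

/-- Hall's condition for the colours of large degree. -/
theorem Lower_hall {V C : Type} [Fintype V] [DecidableEq V] [DecidableEq C]
    {L : V → Finset C} {k : ℕ} (hk : 1 ≤ k) (hL : ∀ v, (L v).card = k) (R : Finset C)
    (hR : ∀ c ∈ R, k ≤ deg L c) :
    ∃ g : {c // c ∈ R} → V, Function.Injective g ∧ ∀ c, c.1 ∈ L (g c) := by
  classical
  have hH : ∀ s : Finset {c // c ∈ R},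
      s.card ≤ (s.biUnion (fun c => univ.filter (fun v => c.1 ∈ L v))).card := by
    intro s
    set B := s.biUnion (fun c => univ.filter (fun v => c.1 ∈ L v)) with hB
    have h1 : k * s.card ≤ ∑ c ∈ s, deg L c.1 := by
      have : ∑ _c ∈ s, k ≤ ∑ c ∈ s, deg L c.1 := Finset.sum_le_sum fun c _ => hR c.1 c.2
      simpa [mul_comm] using this
    have h2 : ∑ c ∈ s, deg L c.1 = ∑ c ∈ s, ∑ v, (if c.1 ∈ L v then 1 else 0) := by
      refine Finset.sum_congr rfl fun c _ => ?_
      unfold deg
      rw [Finset.card_filter]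
    have h3 : ∑ c ∈ s, ∑ v, (if c.1 ∈ L v then 1 else 0) ≤ ∑ v ∈ B, k := by
      rw [Finset.sum_comm]
      have h4 : ∀ v : V, ∑ c ∈ s, (if c.1 ∈ L v then 1 else 0) ≤ if v ∈ B then k else 0 := by
        intro v
        by_cases hv : v ∈ B
        · rw [if_pos hv, ← Finset.card_filter, ← hL v,
            ← Finset.card_map (Function.Embedding.subtype (fun c => c ∈ R))]
          refine Finset.card_le_card ?_
          intro c hc
          rw [Finset.mem_map] at hc
          obtain ⟨c', hc', rfl⟩ := hc
          exact (Finset.mem_filter.1 hc').2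
        · rw [if_neg hv]
          refine le_of_eq (Finset.sum_eq_zero fun c hc => ?_)
          rw [if_neg]
          intro h
          apply hv
          rw [hB, Finset.mem_biUnion]
          exact ⟨c, hc, Finset.mem_filter.2 ⟨mem_univ _, h⟩⟩
      refine (Finset.sum_le_sum fun v _ => h4 v).trans ?_
      rw [← Finset.sum_filter]
      simp
    rw [Finset.sum_const, smul_eq_mul] at h3
    have h5 : k * s.card ≤ k * B.card := by
      calc k * s.card ≤ ∑ c ∈ s, deg L c.1 := h1
        _ = _ := h2
        _ ≤ B.card * k := h3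
        _ = k * B.card := mul_comm _ _
    exact Nat.le_of_mul_le_mul_left h5 hk
  obtain ⟨g, hg, hgm⟩ := (Finset.all_card_le_biUnion_card_iff_exists_injective
    (fun c : {c // c ∈ R} => univ.filter (fun v => c.1 ∈ L v))).1 hH
  exact ⟨g, hg, fun c => (Finset.mem_filter.1 (hgm c)).2⟩

theorem lower {V C : Type} [Fintype V] [DecidableEq V] [DecidableEq C]
    {mate : V → V} (hmate : ∀ v, mate (mate v) = v) {L : V → Finset C} {k : ℕ} (hk : 1 ≤ k)
    (hL : ∀ v, (L v).card = k)
    (h : ∃ f : V → C, (∀ v, f v ∈ L v) ∧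
      ∀ u v, u ≠ v → f u = f v → mate u = v ∧ k + 1 ≤ deg L (f v)) :
    ∃ f : V → C, (∀ v, f v ∈ L v) ∧
      (∀ u v, u ≠ v → f u = f v → mate u = v ∧ k + 1 ≤ deg L (f v)) ∧
      ∀ c, k ≤ deg L c → ∃ v, f v = c := by
  classical
  set R : Finset C := (univ.biUnion L).filter (fun c => k ≤ deg L c) with hR
  have hRmem : ∀ c, c ∈ R ↔ k ≤ deg L c := by
    intro c
    rw [hR, Finset.mem_filter, Finset.mem_biUnion]
    constructor
    · exact fun h => h.2
    · intro h
      refine ⟨?_, h⟩
      have h1 : 0 < deg L c := by omega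
      obtain ⟨v, hv⟩ := Finset.card_pos.1 h1
      exact ⟨v, mem_univ _, (Finset.mem_filter.1 hv).2⟩
  obtain ⟨g, hg, hgL⟩ := Lower_hall hk hL R (fun c hc => (hRmem c).1 hc)
  obtain ⟨f0, hf01, hf02⟩ := h
  obtain ⟨f, hf, hfmax⟩ := Finset.exists_max_image
    ((Fintype.piFinset L).filter (fun f : V → C =>
      ∀ u v, u ≠ v → f u = f v → mate u = v ∧ k + 1 ≤ deg L (f v)))
    (fun f : V → C => (univ.filter (fun c : {c // c ∈ R} => f (g c) = c.1)).card)
    ⟨f0, Finset.mem_filter.2 ⟨Fintype.mem_piFinset.2 hf01, hf02⟩⟩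
  rw [Finset.mem_filter, Fintype.mem_piFinset] at hf
  refine ⟨f, hf.1, hf.2, ?_⟩
  intro c hc
  by_contra hno
  push Not at hno
  have hcR : c ∈ R := (hRmem c).2 hc
  set w : V := g ⟨c, hcR⟩ with hw
  set f' : V → C := Function.update f w c with hf'
  have h1 : f' ∈ (Fintype.piFinset L).filter (fun f : V → C =>
      ∀ u v, u ≠ v → f u = f v → mate u = v ∧ k + 1 ≤ deg L (f v)) := by
    rw [Finset.mem_filter, Fintype.mem_piFinset]
    constructor
    · intro v
      by_cases hv : v = w
      · rw [hv, hf', Function.update_self]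
        exact hgL ⟨c, hcR⟩
      · rw [hf', Function.update_of_ne hv]
        exact hf.1 v
    · intro u v huv he
      by_cases hu : u = w
      · have hv : v ≠ w := fun h => huv (hu.trans h.symm)
        rw [hf', hu, Function.update_self, Function.update_of_ne hv] at he
        exact absurd he.symm (hno v)
      · by_cases hv : v = w
        · rw [hf', hv, Function.update_self, Function.update_of_ne hu] at he
          exact absurd he (hno u)
        · rw [hf', Function.update_of_ne hu, Function.update_of_ne hv] at he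
          rw [hf', Function.update_of_ne hv]
          exact hf.2 u v huv he
  have h2 := hfmax f' h1
  have h3 : (univ.filter (fun c : {c // c ∈ R} => f (g c) = c.1)).card
      < (univ.filter (fun c : {c // c ∈ R} => f' (g c) = c.1)).card := by
    refine Finset.card_lt_card ?_
    rw [Finset.ssubset_iff_of_subset]
    · refine ⟨⟨c, hcR⟩, ?_, ?_⟩
      · rw [Finset.mem_filter]
        refine ⟨mem_univ _, ?_⟩
        rw [hf', ← hw, Function.update_self]
      · rw [Finset.mem_filter]
        exact fun h => hno _ h.2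
    · intro c1 hc1
      rw [Finset.mem_filter] at hc1 ⊢
      refine ⟨mem_univ _, ?_⟩
      have hne : g c1 ≠ w := by
        intro h
        have h4 : c1 = ⟨c, hcR⟩ := hg h
        rw [h4] at hc1
        exact hno _ hc1.2
      rw [hf', Function.update_of_ne hne]
      exact hc1.2
  exact absurd h2 (not_le.2 h3)

end Pool.Agent.H.MP_f0eba7_co
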