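import Pool.Agent.H.MP_f0eba7_co.Defs

/-!
The key counting inequality for odd sets (E3).
-/

namespace Pool.Agent.H.MP_f0eba7_co

open Finset

variable {V C : Type} [Fintype V] [DecidableEq V] [Fintype C] [DecidableEq C]

theorem oddIneq_split (W : Finset (V ⊕ C)) (f : V ⊕ C → ℤ) :
    ∑ x ∈ W, f x = ∑ v : V, (if Sum.inl v ∈ W then f (Sum.inl v) else 0) +
      ∑ c : C, (if Sum.inr c ∈ W then f (Sum.inr c) else 0) := by
  rw [← Fintype.sum_sum_type (fun x => if x ∈ W then f x else 0), Finset.sum_ite_mem,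
    Finset.univ_inter]

/-- degree of a vertex `inl v` in `W` -/
theorem oddIneq_deg_inl (mate : V → V) (L : V → Finset C) (k : ℕ) (W : Finset (V ⊕ C)) (v : V) :
    ∑ x' ∈ W, (ymul mate L k (Sum.inl v) x' : ℤ) =
      (if Sum.inl (mate v) ∈ W ∧ mate v ≠ v then (gam mate L k v : ℤ) else 0) +
      ∑ c : C, (if Sum.inr c ∈ W then (if c ∈ L v ∧ c ∉ big L k then (1 : ℤ) else 0) else 0) := by
  rw [oddIneq_split]
  congr 1
  · rw [Finset.sum_eq_single (mate v)]
    · simp only [ymul, true_and]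
      by_cases h1 : (Sum.inl (mate v) : V ⊕ C) ∈ W
      · by_cases h2 : mate v = v
        · simp [h1, h2]
        · simp [h1, h2, Ne.symm h2]
      · simp [h1]
    · intro u _ hu
      have : ¬ (mate v = u ∧ v ≠ u) := fun h => hu h.1.symm
      simp [ymul, this]
    · intro h
      exact absurd (Finset.mem_univ _) h
  · apply Finset.sum_congr rfl
    intro c _
    by_cases h1 : (Sum.inr c : V ⊕ C) ∈ W
    · by_cases h2 : c ∈ L v ∧ c ∉ big L k
      · simp [h1, h2, ymul]
      · simp [h1, h2, ymul]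
    · simp [h1]

/-- degree of a vertex `inr c` in `W` -/
theorem oddIneq_deg_inr (mate : V → V) (L : V → Finset C) (k : ℕ) (W : Finset (V ⊕ C)) (c : C) :
    ∑ x' ∈ W, (ymul mate L k (Sum.inr c) x' : ℤ) =
      ∑ v : V, (if Sum.inl v ∈ W then (if c ∈ L v ∧ c ∉ big L k then (1 : ℤ) else 0) else 0) := by
  rw [oddIneq_split]
  have h0 : ∑ c' : C, (if (Sum.inr c' : V ⊕ C) ∈ W then
      (ymul mate L k (Sum.inr c) (Sum.inr c') : ℤ) else 0) = 0 := by
    apply Finset.sum_eq_zero
    intro c' _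
    simp [ymul]
  rw [h0, add_zero]
  apply Finset.sum_congr rfl
  intro v _
  by_cases h1 : (Sum.inl v : V ⊕ C) ∈ W
  · by_cases h2 : c ∈ L v ∧ c ∉ big L k
    · simp [h1, h2, ymul]
    · simp [h1, h2, ymul]
  · simp [h1]

theorem oddIneq_small {L : V → Finset C} {k : ℕ} (hL : ∀ v, (L v).card = k)
    (W : Finset (V ⊕ C)) (v : V) :
    ∑ c : C, (if Sum.inr c ∈ W then (if c ∈ L v ∧ c ∉ big L k then (1 : ℤ) else 0) else 0)
      ≤ k - ((L v ∩ big L k).card : ℤ) := by
  have h1 : ∑ c : C, (if Sum.inr c ∈ W then (if c ∈ L v ∧ c ∉ big L k then (1 : ℤ) else 0) else 0)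
      ≤ ∑ c : C, (if c ∈ L v \ big L k then (1 : ℤ) else 0) := by
    apply Finset.sum_le_sum
    intro c _
    simp only [Finset.mem_sdiff]
    split_ifs <;> simp
  have h2 : ∑ c : C, (if c ∈ L v \ big L k then (1 : ℤ) else 0) = ((L v \ big L k).card : ℤ) := by
    rw [Finset.sum_ite_mem, Finset.univ_inter]
    simp
  have h3 : (L v \ big L k).card + (L v ∩ big L k).card = (L v).card :=
    Finset.card_sdiff_add_card_inter _ _
  rw [hL v] at h3
  omega

theorem oddIneq_small_nonneg (L : V → Finset C) (k : ℕ) (W : Finset (V ⊕ C)) (v : V) :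
    0 ≤ ∑ c : C, (if Sum.inr c ∈ W then (if c ∈ L v ∧ c ∉ big L k then (1 : ℤ) else 0) else 0) := by
  apply Finset.sum_nonneg
  intro c _
  split_ifs <;> simp

theorem oddIneq_col_le_k (L : V → Finset C) (k : ℕ) (W : Finset (V ⊕ C)) (c : C) :
    ∑ v : V, (if Sum.inl v ∈ W then (if c ∈ L v ∧ c ∉ big L k then (1 : ℤ) else 0) else 0)
      ≤ k := by
  by_cases hc : c ∈ big L k
  · have : ∑ v : V, (if (Sum.inl v : V ⊕ C) ∈ W then
        (if c ∈ L v ∧ c ∉ big L k then (1 : ℤ) else 0) else 0) = 0 := by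
      apply Finset.sum_eq_zero
      intro v _
      simp [hc]
    rw [this]
    positivity
  · have h1 : ∑ v : V, (if (Sum.inl v : V ⊕ C) ∈ W then
        (if c ∈ L v ∧ c ∉ big L k then (1 : ℤ) else 0) else 0)
        ≤ ∑ v : V, (if c ∈ L v then (1 : ℤ) else 0) := by
      apply Finset.sum_le_sum
      intro v _
      split_ifs <;> simp_all
    have h2 : ∑ v : V, (if c ∈ L v then (1 : ℤ) else 0) = (deg L c : ℤ) := by
      rw [deg, Finset.sum_boole]
    have h3 : deg L c ≤ k := by
      by_contra h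
      apply hc
      rw [big, Finset.mem_filter]
      exact ⟨Finset.mem_univ _, by omega⟩
    omega

theorem oddIneq_col_le_card (L : V → Finset C) (k : ℕ) (W : Finset (V ⊕ C)) (c : C) :
    ∑ v : V, (if Sum.inl v ∈ W then (if c ∈ L v ∧ c ∉ big L k then (1 : ℤ) else 0) else 0)
      ≤ ∑ v : V, (if Sum.inl v ∈ W then (1 : ℤ) else 0) := by
  apply Finset.sum_le_sum
  intro v _
  split_ifs <;> simp

theorem oddIneq_gam_le (mate : V → V) (L : V → Finset C) (k : ℕ) (v : V) :
    gam mate L k v ≤ (L v ∩ big L k).card := by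
  unfold gam
  apply Finset.card_le_card
  intro c hc
  simp only [Finset.mem_inter] at hc ⊢
  exact ⟨hc.1.1, hc.2⟩

theorem oddIneq_gam_mate {mate : V → V} (hmate : ∀ v, mate (mate v) = v) (L : V → Finset C)
    (k : ℕ) (v : V) : gam mate L k (mate v) = gam mate L k v := by
  unfold gam
  rw [hmate, Finset.inter_comm (L (mate v))]

/-- `|L v ∩ B| + |L (mate v) ∩ B| = β - o v + g v` -/
theorem oddIneq_pair (mate : V → V) (L : V → Finset C) (k : ℕ) (v : V) :
    ((L v ∩ big L k).card : ℤ) + ((L (mate v) ∩ big L k).card : ℤ) =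
      ((big L k).card : ℤ) - omi mate L k v + gam mate L k v := by
  have h1 : ((L v ∩ big L k) ∪ (L (mate v) ∩ big L k)).card +
      ((L v ∩ big L k) ∩ (L (mate v) ∩ big L k)).card =
      (L v ∩ big L k).card + (L (mate v) ∩ big L k).card := Finset.card_union_add_card_inter _ _
  have h2 : (big L k \ (L v ∪ L (mate v))).card + (big L k ∩ (L v ∪ L (mate v))).card
      = (big L k).card := Finset.card_sdiff_add_card_inter _ _
  have h3 : (L v ∩ big L k) ∪ (L (mate v) ∩ big L k) = big L k ∩ (L v ∪ L (mate v)) := by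
    ext c
    simp only [Finset.mem_union, Finset.mem_inter]
    tauto
  have h4 : (L v ∩ big L k) ∩ (L (mate v) ∩ big L k) = L v ∩ L (mate v) ∩ big L k := by
    ext c
    simp only [Finset.mem_inter]
    tauto
  rw [h3, h4] at h1
  have h5 : omi mate L k v = (big L k \ (L v ∪ L (mate v))).card := rfl
  have h6 : gam mate L k v = (L v ∩ L (mate v) ∩ big L k).card := rfl
  omega

/-- the contribution of a vertex `v` with `inl v ∈ W` -/
def oddPhi (mate : V → V) (L : V → Finset C) (k : ℕ) (W : Finset (V ⊕ C)) (v : V) : ℤ :=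
  if mate v = v then 2
  else if Sum.inl (mate v) ∈ W then
    2 - (((big L k).card : ℤ) - omi mate L k v - gam mate L k v)
  else 2 - 2 * (gam mate L k v : ℤ)

theorem oddIneq_one {mate : V → V} (hmate : ∀ v, mate (mate v) = v) {L : V → Finset C} {k : ℕ}
    (hL : ∀ v, (L v).card = k) (W : Finset (V ⊕ C)) (hodd : Odd W.card)
    (hviol : k * W.card < ∑ x ∈ W, ∑ x' ∈ W, ymul mate L k x x' + k) :
    2 * ((k : ℤ) - (k * W.card - ∑ x ∈ W, ∑ x' ∈ W, (ymul mate L k x x' : ℤ))) ≤
      ∑ v : V, (if Sum.inl v ∈ W then oddPhi mate L k W v else 0) := by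
  classical
  set dv : V → ℤ := fun v => ∑ x' ∈ W, (ymul mate L k (Sum.inl v) x' : ℤ) with hdv
  set dc : C → ℤ := fun c => ∑ x' ∈ W, (ymul mate L k (Sum.inr c) x' : ℤ) with hdc
  have e1 : ∑ x ∈ W, ∑ x' ∈ W, (ymul mate L k x x' : ℤ) =
      ∑ v : V, (if Sum.inl v ∈ W then dv v else 0) +
      ∑ c : C, (if Sum.inr c ∈ W then dc c else 0) :=
    oddIneq_split W (fun x => ∑ x' ∈ W, (ymul mate L k x x' : ℤ))
  have e2 : (k : ℤ) * W.card = ∑ v : V, (if Sum.inl v ∈ W then (k : ℤ) else 0) +
      ∑ c : C, (if Sum.inr c ∈ W then (k : ℤ) else 0) := by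
    rw [← oddIneq_split W (fun _ => (k : ℤ)), Finset.sum_const, nsmul_eq_mul]
    ring
  -- `d(W)` as a sum
  have e3 : (k : ℤ) * W.card - ∑ x ∈ W, ∑ x' ∈ W, (ymul mate L k x x' : ℤ) =
      ∑ v : V, (if Sum.inl v ∈ W then (k : ℤ) - dv v else 0) +
      ∑ c : C, (if Sum.inr c ∈ W then (k : ℤ) - dc c else 0) := by
    rw [e1, e2]
    have h1 : ∑ v : V, (if (Sum.inl v : V ⊕ C) ∈ W then (k : ℤ) - dv v else 0) =
        ∑ v : V, (if (Sum.inl v : V ⊕ C) ∈ W then (k : ℤ) else 0) -
        ∑ v : V, (if (Sum.inl v : V ⊕ C) ∈ W then dv v else 0) := by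
      rw [← Finset.sum_sub_distrib]
      apply Finset.sum_congr rfl
      intro v _
      split_ifs <;> simp
    have h2 : ∑ c : C, (if (Sum.inr c : V ⊕ C) ∈ W then (k : ℤ) - dc c else 0) =
        ∑ c : C, (if (Sum.inr c : V ⊕ C) ∈ W then (k : ℤ) else 0) -
        ∑ c : C, (if (Sum.inr c : V ⊕ C) ∈ W then dc c else 0) := by
      rw [← Finset.sum_sub_distrib]
      apply Finset.sum_congr rfl
      intro v _
      split_ifs <;> simp
    rw [h1, h2]
    ring
  have hdvle : ∀ v, dv v ≤ (if Sum.inl (mate v) ∈ W ∧ mate v ≠ v then (gam mate L k v : ℤ) else 0)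
      + (k - ((L v ∩ big L k).card : ℤ)) := by
    intro v
    rw [hdv]
    simp only
    rw [oddIneq_deg_inl]
    have := oddIneq_small hL W v
    omega
  have hgle : ∀ v, (gam mate L k v : ℤ) ≤ ((L v ∩ big L k).card : ℤ) := fun v => by
    exact_mod_cast oddIneq_gam_le mate L k v
  have hdvk : ∀ v, dv v ≤ k := by
    intro v
    have h1 := hdvle v
    have h2 := hgle v
    split_ifs at h1 <;> omega
  have hdck : ∀ c, dc c ≤ k := by
    intro c
    rw [hdc]
    simp only
    rw [oddIneq_deg_inr]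
    exact oddIneq_col_le_k L k W c
  have hdcK : ∀ c, dc c ≤ ∑ v : V, (if Sum.inl v ∈ W then (1 : ℤ) else 0) := by
    intro c
    rw [hdc]
    simp only
    rw [oddIneq_deg_inr]
    exact oddIneq_col_le_card L k W c
  have hviol' : (k : ℤ) * W.card - ∑ x ∈ W, ∑ x' ∈ W, (ymul mate L k x x' : ℤ) < k := by
    have : ((k * W.card : ℕ) : ℤ) < ((∑ x ∈ W, ∑ x' ∈ W, ymul mate L k x x' + k : ℕ) : ℤ) := by
      exact_mod_cast hviol
    push_cast at this
    linarith
  -- Step 1: there is a colour in `W`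
  have hS : ∃ c : C, (Sum.inr c : V ⊕ C) ∈ W := by
    by_contra hno
    push Not at hno
    have hex : ∃ v : V, (Sum.inl v : V ⊕ C) ∈ W ∧
        ¬ ((Sum.inl (mate v) : V ⊕ C) ∈ W ∧ mate v ≠ v) := by
      by_contra hcon
      push Not at hcon
      have hcard : ((W.card : ℕ) : ZMod 2) = 0 := by
        have h0 : ∑ x ∈ W, (1 : ZMod 2) = 0 := by
          apply Finset.sum_involution
            (fun x _ => Sum.elim (fun v => Sum.inl (mate v)) (fun c => Sum.inr c) x)
          · intro x hx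
            decide
          · intro x hx _
            cases x with
            | inl v =>
              have := (hcon v hx).2
              simpa using this
            | inr c => exact absurd hx (hno c)
          · intro x hx
            cases x with
            | inl v => exact (hcon v hx).1
            | inr c => exact absurd hx (hno c)
          · intro x hx
            cases x with
            | inl v => simp [hmate]
            | inr c => exact absurd hx (hno c)
        simpa using h0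
      rw [ZMod.natCast_eq_zero_iff] at hcard
      have : Even W.card := even_iff_two_dvd.mpr hcard
      exact (Nat.not_even_iff_odd.mpr hodd) this
    obtain ⟨v, hv, hv2⟩ := hex
    have hdv0 : dv v = 0 := by
      rw [hdv]
      simp only
      rw [oddIneq_deg_inl, if_neg hv2, zero_add]
      apply Finset.sum_eq_zero
      intro c _
      rw [if_neg (hno c)]
    have h1 : (k : ℤ) ≤ ∑ v : V, (if (Sum.inl v : V ⊕ C) ∈ W then (k : ℤ) - dv v else 0) := by
      have : (if (Sum.inl v : V ⊕ C) ∈ W then (k : ℤ) - dv v else 0) ≤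
          ∑ v : V, (if (Sum.inl v : V ⊕ C) ∈ W then (k : ℤ) - dv v else 0) := by
        apply Finset.single_le_sum (f := fun v => if (Sum.inl v : V ⊕ C) ∈ W then
          (k : ℤ) - dv v else 0) _ (Finset.mem_univ v)
        intro u _
        have := hdvk u
        split_ifs
        · omega
        · exact le_rfl
      rw [if_pos hv, hdv0, sub_zero] at this
      exact this
    have h2 : (0 : ℤ) ≤ ∑ c : C, (if (Sum.inr c : V ⊕ C) ∈ W then (k : ℤ) - dc c else 0) := by
      apply Finset.sum_nonneg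
      intro c _
      have := hdck c
      split_ifs
      · omega
      · exact le_rfl
    rw [e3] at hviol'
    omega
  obtain ⟨c₀, hc₀⟩ := hS
  -- Step 2
  have hstep2 : (k : ℤ) - ∑ v : V, (if (Sum.inl v : V ⊕ C) ∈ W then (1 : ℤ) else 0) ≤
      ∑ c : C, (if (Sum.inr c : V ⊕ C) ∈ W then (k : ℤ) - dc c else 0) := by
    have : (if (Sum.inr c₀ : V ⊕ C) ∈ W then (k : ℤ) - dc c₀ else 0) ≤
        ∑ c : C, (if (Sum.inr c : V ⊕ C) ∈ W then (k : ℤ) - dc c else 0) := by
      apply Finset.single_le_sum (f := fun c => if (Sum.inr c : V ⊕ C) ∈ W then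
        (k : ℤ) - dc c else 0) _ (Finset.mem_univ c₀)
      intro u _
      have := hdck u
      split_ifs
      · omega
      · exact le_rfl
    rw [if_pos hc₀] at this
    have := hdcK c₀
    omega
  -- Step 3
  set a : V → ℤ := fun v => ((L v ∩ big L k).card : ℤ) with ha
  set g : V → ℤ := fun v => (gam mate L k v : ℤ) with hg
  have hstep3 : ∑ v : V, (if (Sum.inl v : V ⊕ C) ∈ W then
        a v - (if (Sum.inl (mate v) : V ⊕ C) ∈ W ∧ mate v ≠ v then g v else 0) else 0) ≤
      ∑ v : V, (if (Sum.inl v : V ⊕ C) ∈ W then (k : ℤ) - dv v else 0) := by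
    apply Finset.sum_le_sum
    intro v _
    have := hdvle v
    simp only [ha, hg]
    split_ifs at this ⊢ <;> omega
  -- symmetrisation
  have hsym : ∑ v : V, (if (Sum.inl v : V ⊕ C) ∈ W ∧ (Sum.inl (mate v) : V ⊕ C) ∈ W ∧ mate v ≠ v
        then a v else 0) =
      ∑ v : V, (if (Sum.inl v : V ⊕ C) ∈ W ∧ (Sum.inl (mate v) : V ⊕ C) ∈ W ∧ mate v ≠ v
        then a (mate v) else 0) := by
    let e : V ≃ V := Function.Involutive.toPerm mate hmate
    rw [← Equiv.sum_comp e]
    apply Finset.sum_congr rfl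
    intro v _
    have he : e v = mate v := rfl
    rw [he, hmate]
    by_cases h : (Sum.inl v : V ⊕ C) ∈ W ∧ (Sum.inl (mate v) : V ⊕ C) ∈ W ∧ mate v ≠ v
    · rw [if_pos ⟨h.2.1, h.1, Ne.symm h.2.2⟩, if_pos h]
    · rw [if_neg (fun h' => h ⟨h'.2.1, h'.1, Ne.symm h'.2.2⟩), if_neg h]
  have hmain : 2 * ∑ v : V, (if (Sum.inl v : V ⊕ C) ∈ W then (1 : ℤ) else 0) -
      2 * ∑ v : V, (if (Sum.inl v : V ⊕ C) ∈ W then
        a v - (if (Sum.inl (mate v) : V ⊕ C) ∈ W ∧ mate v ≠ v then g v else 0) else 0) ≤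
      ∑ v : V, (if (Sum.inl v : V ⊕ C) ∈ W then oddPhi mate L k W v else 0) := by
    have h1 : 2 * ∑ v : V, (if (Sum.inl v : V ⊕ C) ∈ W then (1 : ℤ) else 0) -
      2 * ∑ v : V, (if (Sum.inl v : V ⊕ C) ∈ W then
        a v - (if (Sum.inl (mate v) : V ⊕ C) ∈ W ∧ mate v ≠ v then g v else 0) else 0) =
      ∑ v : V, ((2 * (if (Sum.inl v : V ⊕ C) ∈ W then (1 : ℤ) else 0) -
        2 * (if (Sum.inl v : V ⊕ C) ∈ W then
        a v - (if (Sum.inl (mate v) : V ⊕ C) ∈ W ∧ mate v ≠ v then g v else 0) else 0)) +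
        ((if (Sum.inl v : V ⊕ C) ∈ W ∧ (Sum.inl (mate v) : V ⊕ C) ∈ W ∧ mate v ≠ v
          then a v else 0) -
        (if (Sum.inl v : V ⊕ C) ∈ W ∧ (Sum.inl (mate v) : V ⊕ C) ∈ W ∧ mate v ≠ v
          then a (mate v) else 0))) := by
      rw [Finset.sum_add_distrib, Finset.sum_sub_distrib, Finset.sum_sub_distrib, hsym,
        Finset.mul_sum, Finset.mul_sum]
      ring
    rw [h1]
    apply Finset.sum_le_sum
    intro v _
    have hp := oddIneq_pair mate L k v
    have hgv := hgle v
    have ha0 : (0 : ℤ) ≤ a v := by simp only [ha]; positivity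
    by_cases h2 : (Sum.inl v : V ⊕ C) ∈ W
    · by_cases h3 : mate v = v
      · simp only [h2, h3, oddPhi, if_true, ne_eq, not_true_eq_false, and_false, if_false]
        omega
      · by_cases h4 : (Sum.inl (mate v) : V ⊕ C) ∈ W
        · simp only [h2, h3, h4, oddPhi, if_true, ne_eq, not_false_eq_true, and_self, if_false, ha,
            hg]
          omega
        · simp only [h2, h3, h4, oddPhi, if_true, ne_eq, not_false_eq_true, if_false,
            ha, hg, false_and, and_false]
          omega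
    · simp only [h2, if_false, false_and]
      omega
  rw [e3]
  omega

/-- E3 -/
theorem odd_ineq {mate : V → V} (hmate : ∀ v, mate (mate v) = v) {L : V → Finset C} {k δ : ℕ}
    (hL : ∀ v, (L v).card = k) (hβ : δ + 1 ≤ (big L k).card)
    (F : Finset (Finset (V ⊕ C))) (hodd : ∀ W ∈ F, Odd W.card)
    (hdisj : ∀ W ∈ F, ∀ W' ∈ F, W ≠ W' → Disjoint W W')
    (hviol : ∀ W ∈ F, k * W.card < ∑ x ∈ W, ∑ x' ∈ W, ymul mate L k x x' + k) :
    (∑ W ∈ F, ((k : ℤ) - (k * W.card - ∑ x ∈ W, ∑ x' ∈ W, (ymul mate L k x x' : ℤ)))) +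
      ((univ.filter (fun v => mate v ≠ v ∧ 1 ≤ gam mate L k v ∧ gam mate L k v < δ)).card : ℤ) ≤
      Fintype.card V + ∑ v ∈ univ.filter (fun v => mate v ≠ v), (omi mate L k v : ℤ) := by
  classical
  have hA : 2 * (∑ W ∈ F, ((k : ℤ) -
      (k * W.card - ∑ x ∈ W, ∑ x' ∈ W, (ymul mate L k x x' : ℤ)))) ≤
      ∑ v : V, ∑ W ∈ F, (if Sum.inl v ∈ W then oddPhi mate L k W v else 0) := by
    rw [Finset.sum_comm, Finset.mul_sum]
    apply Finset.sum_le_sum
    intro W hW
    exact oddIneq_one hmate hL W (hodd W hW) (hviol W hW)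
  have hrel : ((univ.filter (fun v => mate v ≠ v ∧ 1 ≤ gam mate L k v ∧
      gam mate L k v < δ)).card : ℤ) =
      ∑ v : V, (if mate v ≠ v ∧ 1 ≤ gam mate L k v ∧ gam mate L k v < δ then (1 : ℤ) else 0) := by
    rw [Finset.sum_boole]
  have homi : ∑ v ∈ univ.filter (fun v => mate v ≠ v), (omi mate L k v : ℤ) =
      ∑ v : V, (if mate v ≠ v then (omi mate L k v : ℤ) else 0) := by
    rw [Finset.sum_filter]
  have hV : (Fintype.card V : ℤ) = ∑ v : V, (1 : ℤ) := by simp
  have hgβ : ∀ v, (gam mate L k v : ℤ) ≤ ((big L k).card : ℤ) := by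
    intro v
    have : gam mate L k v ≤ (big L k).card := by
      unfold gam
      exact Finset.card_le_card Finset.inter_subset_right
    exact_mod_cast this
  have hB : ∑ v : V, ∑ W ∈ F, (if Sum.inl v ∈ W then oddPhi mate L k W v else 0) +
      2 * ∑ v : V, (if mate v ≠ v ∧ 1 ≤ gam mate L k v ∧ gam mate L k v < δ then (1 : ℤ) else 0) ≤
      2 * ∑ v : V, (1 : ℤ) + 2 * ∑ v : V, (if mate v ≠ v then (omi mate L k v : ℤ) else 0) := by
    rw [Finset.mul_sum, Finset.mul_sum, Finset.mul_sum, ← Finset.sum_add_distrib,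
      ← Finset.sum_add_distrib]
    apply Finset.sum_le_sum
    intro v _
    have ho : (0 : ℤ) ≤ (omi mate L k v : ℤ) := by positivity
    have hg := hgβ v
    have hβ' : (δ : ℤ) + 1 ≤ ((big L k).card : ℤ) := by exact_mod_cast hβ
    by_cases hex : ∃ W ∈ F, (Sum.inl v : V ⊕ C) ∈ W
    · obtain ⟨W, hW, hvW⟩ := hex
      have hsum : ∑ W' ∈ F, (if (Sum.inl v : V ⊕ C) ∈ W' then oddPhi mate L k W' v else 0) =
          oddPhi mate L k W v := by
        rw [Finset.sum_eq_single W]
        · rw [if_pos hvW]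
        · intro W' hW' hne
          rw [if_neg]
          intro h
          exact Finset.disjoint_left.mp (hdisj W' hW' W hW hne) h hvW
        · intro h
          exact absurd hW h
      rw [hsum]
      unfold oddPhi
      by_cases h3 : mate v = v
      · simp only [h3, if_true, ne_eq, not_true_eq_false, false_and, if_false]
        omega
      · simp only [h3, if_false, ne_eq, not_false_eq_true, true_and, if_true]
        by_cases h4 : (Sum.inl (mate v) : V ⊕ C) ∈ W
        · simp only [h4, if_true]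
          by_cases h5 : 1 ≤ gam mate L k v ∧ gam mate L k v < δ
          · rw [if_pos h5]
            have := h5.2
            omega
          · rw [if_neg h5]
            omega
        · simp only [h4, if_false]
          by_cases h5 : 1 ≤ gam mate L k v ∧ gam mate L k v < δ
          · rw [if_pos h5]
            have := h5.1
            omega
          · rw [if_neg h5]
            omega
    · push Not at hex
      have hsum : ∑ W' ∈ F, (if (Sum.inl v : V ⊕ C) ∈ W' then oddPhi mate L k W' v else 0) = 0 := by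
        apply Finset.sum_eq_zero
        intro W' hW'
        rw [if_neg (hex W' hW')]
      rw [hsum]
      split_ifs <;> omega
  rw [hrel, homi, hV]
  omega

end Pool.Agent.H.MP_f0eba7_co
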