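import Pool.Agent.H.MP_f0eba7_co.Defs

/-!
A perfect matching in the support of a point of the perfect matching polytope
(MP_f0eba7_co), by Tutte's theorem.
-/

namespace Pool.Agent.H.MP_f0eba7_co

open Finset

variable {V C : Type} [Fintype V] [DecidableEq V] [Fintype C] [DecidableEq C]

namespace PolyTutte

/-- The support graph. -/
def supG {x : V → V → ℝ} (hx : PMP x) : SimpleGraph V where
  Adj u v := 0 < x u v
  symm := ⟨fun u v h => by rw [hx.symm]; exact h⟩
  loopless := ⟨fun u h => by rw [hx.diag] at h; exact lt_irrefl _ h⟩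

theorem not_violator {x : V → V → ℝ} (hx : PMP x) (A : Set V) :
    ¬ (supG hx).IsTutteViolator A := by
  classical
  unfold SimpleGraph.IsTutteViolator
  rw [not_lt]
  set H := ((⊤ : (supG hx).Subgraph).deleteVerts A) with hH
  have hfin : Finite H.coe.ConnectedComponent := inferInstance
  set K : Finset H.coe.ConnectedComponent := (Set.toFinite H.coe.oddComponents).toFinset with hK
  set Cc : H.coe.ConnectedComponent → Finset V :=
    fun c => (Set.toFinite (Subtype.val '' c.supp)).toFinset with hCc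
  have hmem : ∀ c a, a ∈ Cc c ↔ ∃ h : a ∈ H.verts, (⟨a, h⟩ : H.verts) ∈ c.supp := by
    intro c a
    simp only [hCc, Set.Finite.mem_toFinset, Set.mem_image, Subtype.exists, exists_and_right,
      exists_eq_right]
  have hcard : ∀ c, (Cc c).card = c.supp.ncard := by
    intro c
    simp only [hCc]
    rw [← Set.ncard_eq_toFinset_card, Set.ncard_image_of_injective _ Subtype.val_injective]
  have hverts : ∀ a, a ∈ H.verts ↔ a ∉ A := by
    intro a
    simp [hH]
  set Af : Finset V := (Set.toFinite A).toFinset with hAf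
  have hcut : ∀ c ∈ K, (1 : ℝ) ≤ ∑ a ∈ Cc c, ∑ b ∈ Af, x a b := by
    intro c hc
    have h1 := hx.odd (Cc c) (by rw [hcard]; simpa [hK] using hc)
    refine h1.trans (Finset.sum_le_sum fun a ha => ?_)
    rw [← Finset.sum_filter_add_sum_filter_not (Cc c)ᶜ (fun b => b ∈ Af)]
    have h2 : ∑ b ∈ (Cc c)ᶜ with b ∉ Af, x a b = 0 := by
      refine Finset.sum_eq_zero fun b hb => ?_
      rw [Finset.mem_filter, Finset.mem_compl] at hb
      by_contra hne
      have hpos : 0 < x a b := lt_of_le_of_ne (hx.nonneg _ _) (Ne.symm hne)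
      obtain ⟨ha1, ha2⟩ := (hmem c a).1 ha
      have hb1 : b ∈ H.verts := (hverts b).2 fun h => hb.2 ((Set.Finite.mem_toFinset _).2 h)
      apply hb.1
      rw [hmem]
      refine ⟨hb1, ?_⟩
      rw [SimpleGraph.ConnectedComponent.mem_supp_iff] at ha2 ⊢
      rw [← ha2]
      apply SimpleGraph.ConnectedComponent.sound
      apply SimpleGraph.Adj.reachable
      rw [SimpleGraph.Subgraph.coe_adj]
      change (((⊤ : (supG hx).Subgraph).deleteVerts A)).Adj b a
      rw [SimpleGraph.Subgraph.deleteVerts_adj]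
      refine ⟨by simp, (hverts b).1 hb1, by simp, (hverts a).1 ha1, ?_⟩
      rw [SimpleGraph.Subgraph.top_adj]
      change 0 < x b a
      rw [hx.symm]
      exact hpos
    rw [h2, add_zero]
    exact Finset.sum_le_sum_of_subset_of_nonneg (fun b hb => (Finset.mem_filter.1 hb).2)
      (fun _ _ _ => hx.nonneg _ _)
  have hdisj : (K : Set H.coe.ConnectedComponent).PairwiseDisjoint Cc := by
    intro c _ c' _ hne
    rw [Function.onFun, Finset.disjoint_left]
    intro a ha ha'
    obtain ⟨h1, h2⟩ := (hmem c a).1 ha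
    obtain ⟨h1', h2'⟩ := (hmem c' a).1 ha'
    rw [SimpleGraph.ConnectedComponent.mem_supp_iff] at h2 h2'
    exact hne (h2.symm.trans h2')
  have h3 : (K.card : ℝ) ≤ (Af.card : ℝ) := by
    calc (K.card : ℝ) = ∑ c ∈ K, (1 : ℝ) := by simp
      _ ≤ ∑ c ∈ K, ∑ a ∈ Cc c, ∑ b ∈ Af, x a b := Finset.sum_le_sum hcut
      _ = ∑ a ∈ K.biUnion Cc, ∑ b ∈ Af, x a b := (Finset.sum_biUnion hdisj).symm
      _ ≤ ∑ a, ∑ b ∈ Af, x a b := Finset.sum_le_sum_of_subset_of_nonneg (Finset.subset_univ _)
          (fun _ _ _ => Finset.sum_nonneg fun _ _ => hx.nonneg _ _)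
      _ = ∑ b ∈ Af, ∑ a, x a b := Finset.sum_comm
      _ = ∑ b ∈ Af, (1 : ℝ) := Finset.sum_congr rfl fun b _ => by
          rw [← hx.deg b]
          exact Finset.sum_congr rfl fun a _ => hx.symm _ _
      _ = (Af.card : ℝ) := by simp
  rw [Set.ncard_eq_toFinset_card _ (Set.toFinite H.coe.oddComponents),
    Set.ncard_eq_toFinset_card _ (Set.toFinite A)]
  exact_mod_cast h3

end PolyTutte

open PolyTutte in
/-- A3 (Tutte's theorem of Mathlib: `SimpleGraph.tutte`) -/
theorem exists_pm_supp {x : V → V → ℝ} (hx : PMP x) :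
    ∃ σ : V → V, IsPM σ ∧ ∀ v, 0 < x v (σ v) := by
  obtain ⟨M, hM⟩ := SimpleGraph.tutte.2 (not_violator hx)
  rw [SimpleGraph.Subgraph.isPerfectMatching_iff] at hM
  choose σ hσ huniq using hM
  refine ⟨σ, ⟨fun v => ?_, fun v h => ?_⟩, fun v => ?_⟩
  · exact (huniq (σ v) v (hσ v).symm).symm
  · have := hσ v
    rw [h] at this
    exact M.loopless.irrefl v this
  · exact (hσ v).adj_sub

end Pool.Agent.H.MP_f0eba7_co
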