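import Pool.Agent.H.MP_f0eba7_co.PolyGlue
import Pool.Agent.H.MP_f0eba7_co.PolyTutte

/-!
Edmonds' perfect matching polytope theorem for complete graphs (MP_f0eba7_co).
-/

namespace Pool.Agent.H.MP_f0eba7_co

open Finset

variable {V C : Type} [Fintype V] [DecidableEq V] [Fintype C] [DecidableEq C]

namespace Poly

/-- the indicator of a matching -/
def chi (σ : V → V) (u v : V) : ℝ := if σ u = v then 1 else 0

/-- The cut function. -/
def cut (x : V → V → ℝ) (U : Finset V) : ℝ := ∑ u ∈ U, ∑ v ∈ Uᶜ, x u v

theorem chi_symm {σ : V → V} (hσ : IsPM σ) (u v : V) : chi σ u v = chi σ v u := by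
  unfold chi
  by_cases h : σ u = v
  · have h2 : σ v = u := by rw [← h, hσ.1]
    rw [if_pos h, if_pos h2]
  · have h2 : σ v ≠ u := fun h3 => h (by rw [← h3, hσ.1])
    rw [if_neg h, if_neg h2]

theorem even_of_closed {σ : V → V} (hσ : IsPM σ) {U : Finset V} (hU : ∀ u ∈ U, σ u ∈ U) :
    Even U.card := by
  have h : ∑ _u ∈ U, (1 : ZMod 2) = 0 :=
    Finset.sum_involution (fun a _ => σ a) (fun _ _ => by decide) (fun a _ _ => hσ.2 a)
      (fun a ha => hU a ha) (fun a _ => hσ.1 a)
  rw [Finset.sum_const, nsmul_eq_mul, mul_one] at h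
  rw [even_iff_two_dvd]
  exact (ZMod.natCast_eq_zero_iff _ 2).1 h

theorem cut_chi (σ : V → V) (U : Finset V) :
    cut (chi σ) U = ((U.filter (fun u => σ u ∉ U)).card : ℝ) := by
  unfold cut chi
  rw [Finset.card_filter]
  push_cast
  refine Finset.sum_congr rfl fun u _ => ?_
  rw [Finset.sum_ite_eq]
  simp only [Finset.mem_compl]

theorem cut_chi_pos {σ : V → V} (hσ : IsPM σ) {U : Finset V} (hU : Odd U.card) :
    1 ≤ (U.filter (fun u => σ u ∉ U)).card := by
  rw [Nat.one_le_iff_ne_zero]
  intro h
  rw [Finset.card_eq_zero, Finset.filter_eq_empty_iff] at h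
  exact (Nat.not_even_iff_odd.2 hU) (even_of_closed hσ fun u hu => not_not.1 (h hu))

theorem card_compl_ge {σ : V → V} (hσ : IsPM σ) (U : Finset V) :
    (U.filter (fun u => σ u ∉ U)).card ≤ Uᶜ.card := by
  refine Finset.card_le_card_of_injOn σ (fun u hu => ?_) (fun u _ v _ h => ?_)
  · have h2 := (Finset.mem_filter.1 hu).2
    exact Finset.mem_coe.2 (Finset.mem_compl.2 h2)
  · rw [← hσ.1 u, ← hσ.1 v, h]

/-- A combination of a matching and a decomposable vector. -/
theorem dec_comb {x x' : V → V → ℝ} {σ : V → V} (hσ : IsPM σ) {l : ℝ} (h0 : 0 ≤ l) (h1 : l ≤ 1)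
    (hx' : Dec x') (h : ∀ u v, x u v = l * chi σ u v + (1 - l) * x' u v) : Dec x := by
  obtain ⟨ι, hι, lam, τ, a0, a1, a2, a3⟩ := hx'
  refine ⟨Option ι, inferInstance, fun i => i.elim l (fun i => (1 - l) * lam i),
    fun i => i.elim σ τ, ?_, ?_, ?_, ?_⟩
  · rintro (_ | i)
    · exact h0
    · exact mul_nonneg (sub_nonneg.2 h1) (a0 i)
  · rintro (_ | i)
    · exact hσ
    · exact a1 i
  · rw [Fintype.sum_option]
    simp only [Option.elim]
    rw [← Finset.mul_sum, a2]
    ring
  · intro u v
    rw [Fintype.sum_option]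
    simp only [Option.elim]
    rw [h, ← a3 u v, Finset.mul_sum]
    unfold chi
    congr 1
    · split_ifs <;> simp
    · refine Finset.sum_congr rfl fun i _ => ?_
      split_ifs <;> simp

theorem dec_chi {σ : V → V} (hσ : IsPM σ) : Dec (chi σ) :=
  ⟨Unit, inferInstance, fun _ => 1, fun _ => σ, fun _ => zero_le_one, fun _ => hσ, by simp,
    fun u v => by simp [chi]⟩

theorem even_card {x : V → V → ℝ} (hx : PMP x) : Even (Fintype.card V) := by
  by_contra h
  have h1 := hx.odd univ (by rw [Finset.card_univ]; exact Nat.not_even_iff_odd.1 h)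
  simp at h1
  linarith

/-- The support size. -/
noncomputable def supp (x : V → V → ℝ) : Finset (V × V) := by
  classical exact univ.filter (fun p => 0 < x p.1 p.2)

theorem mem_supp {x : V → V → ℝ} {u v : V} : (u, v) ∈ supp x ↔ 0 < x u v := by
  classical
  simp [supp]

theorem case_tight (n : ℕ) (ih : ∀ m < n, ∀ (X : Type) [Fintype X] [DecidableEq X],
      Fintype.card X = m → ∀ x : X → X → ℝ, PMP x → Dec x)
    (X : Type) [Fintype X] [DecidableEq X] (hX : Fintype.card X = n) {x : X → X → ℝ}
    (hx : PMP x) {U : Finset X} (hU : Odd U.card) (hc : cut x U = 1) (h1 : 1 < U.card)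
    (h2 : 1 < Uᶜ.card) : Dec x := by
  have hsum : U.card + Uᶜ.card = n := by rw [Finset.card_add_card_compl, hX]
  have hUc : Odd Uᶜ.card := by
    have he : Even (U.card + Uᶜ.card) := by rw [hsum, ← hX]; exact even_card hx
    rw [Nat.even_add] at he
    rw [← Nat.not_even_iff_odd]
    intro h3
    exact (Nat.not_even_iff_odd.2 hU) (he.2 h3)
  have hc' : ∑ u ∈ Uᶜ, ∑ v ∈ Uᶜᶜ, x u v = 1 := by
    rw [compl_compl, Finset.sum_comm]
    rw [← hc]
    exact Finset.sum_congr rfl fun u _ => Finset.sum_congr rfl fun v _ => hx.symm _ _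
  refine glue hx hU hUc hc ?_ ?_
  · refine ih (U.card + 1) (by omega) _ ?_ _ (contr_pmp hx hU hc)
    rw [Fintype.card_option, Fintype.card_coe]
  · refine ih (Uᶜ.card + 1) (by omega) _ ?_ _ (contr_pmp hx hUc hc')
    rw [Fintype.card_option, Fintype.card_coe]

theorem main (n : ℕ) : ∀ (X : Type) [Fintype X] [DecidableEq X], Fintype.card X = n →
    ∀ x : X → X → ℝ, PMP x → Dec x := by
  induction n using Nat.strong_induction_on with
  | _ n ih =>
  intro X _ _ hX
  suffices hinner : ∀ m : ℕ, ∀ x : X → X → ℝ, (supp x).card = m → PMP x → Dec x from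
    fun x hx => hinner _ x rfl hx
  intro m
  induction m using Nat.strong_induction_on with
  | _ m ihm =>
  intro x hm hx
  classical
  obtain ⟨σ, hσ, hpos⟩ := exists_pm_supp hx
  -- the candidates
  set A : Finset (Finset X) :=
    univ.filter (fun U => Odd U.card ∧ 1 < (U.filter (fun u => σ u ∉ U)).card) with hA
  set S : Finset ℝ := {1} ∪ (univ.image (fun v => x v (σ v)) ∪
    A.image (fun U => (cut x U - 1) / (cut (chi σ) U - 1))) with hS
  have hSne : S.Nonempty := ⟨1, by simp [hS]⟩
  obtain ⟨l, hlS, hlmin⟩ : ∃ l ∈ S, ∀ s ∈ S, l ≤ s := ⟨S.min' hSne, S.min'_mem hSne,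
    fun s hs => S.min'_le s hs⟩
  have hl1 : l ≤ 1 := hlmin 1 (by simp [hS])
  have hlx : ∀ v, l ≤ x v (σ v) := fun v => hlmin _ (by simp [hS])
  have hApos : ∀ U ∈ A, 0 < cut (chi σ) U - 1 := by
    intro U hU
    rw [cut_chi]
    have := (Finset.mem_filter.1 hU).2.2
    have h2 : (1 : ℝ) < ((U.filter (fun u => σ u ∉ U)).card : ℝ) := by exact_mod_cast this
    linarith
  have hlA : ∀ U ∈ A, l * (cut (chi σ) U - 1) ≤ cut x U - 1 := by
    intro U hU
    have := hlmin _ (show (cut x U - 1) / (cut (chi σ) U - 1) ∈ S by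
      rw [hS]
      exact Finset.mem_union_right _ (Finset.mem_union_right _ (Finset.mem_image_of_mem _ hU)))
    rwa [le_div_iff₀ (hApos U hU)] at this
  have hl0 : 0 ≤ l := by
    rw [hS] at hlS
    simp only [Finset.mem_union, Finset.mem_singleton, Finset.mem_image, Finset.mem_univ,
      true_and] at hlS
    rcases hlS with h | ⟨v, h⟩ | ⟨U, hU, h⟩
    · rw [h]; exact zero_le_one
    · rw [← h]; exact hx.nonneg _ _
    · rw [← h]
      exact div_nonneg (sub_nonneg.2 (hx.odd U (Finset.mem_filter.1 hU).2.1)) (hApos U hU).le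
  rcases hl1.lt_or_eq with hlt | hl
  · -- `l < 1`
    have hd : 0 < 1 - l := sub_pos.2 hlt
    set x' : X → X → ℝ := fun u v => (x u v - l * chi σ u v) / (1 - l) with hx'
    have hcomb : ∀ u v, x u v = l * chi σ u v + (1 - l) * x' u v := by
      intro u v
      simp only [hx']
      field_simp
      ring
    have hcut : ∀ U, (1 - l) * cut x' U = cut x U - l * cut (chi σ) U := by
      intro U
      unfold cut
      rw [Finset.mul_sum, Finset.mul_sum, ← Finset.sum_sub_distrib]
      refine Finset.sum_congr rfl fun u _ => ?_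
      rw [Finset.mul_sum, Finset.mul_sum, ← Finset.sum_sub_distrib]
      refine Finset.sum_congr rfl fun v _ => ?_
      have := hcomb u v
      linarith
    have hPMP : PMP x' := by
      refine ⟨fun u v => ?_, fun u v => ?_, fun u => ?_, fun u => ?_, fun U hU => ?_⟩
      · refine div_nonneg ?_ hd.le
        unfold chi
        by_cases h : σ u = v
        · rw [if_pos h, mul_one, ← h]
          exact sub_nonneg.2 (hlx u)
        · rw [if_neg h, mul_zero, sub_zero]
          exact hx.nonneg _ _
      · simp only [hx']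
        rw [hx.symm, chi_symm hσ]
      · simp only [hx']
        rw [hx.diag]
        unfold chi
        rw [if_neg (hσ.2 u)]
        simp
      · simp only [hx']
        rw [← Finset.sum_div, Finset.sum_sub_distrib, hx.deg, ← Finset.mul_sum]
        have : ∑ v, chi σ u v = 1 := by simp [chi]
        rw [this, mul_one]
        exact div_self hd.ne'
      · change 1 ≤ cut x' U
        have h1 : 1 - l ≤ cut x U - l * cut (chi σ) U := by
          by_cases hUA : U ∈ A
          · have := hlA U hUA
            linarith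
          · have h2 : ¬ 1 < (U.filter (fun u => σ u ∉ U)).card := by
              intro h3
              exact hUA (Finset.mem_filter.2 ⟨Finset.mem_univ _, hU, h3⟩)
            have h3 := cut_chi_pos hσ hU
            have h4 : (U.filter (fun u => σ u ∉ U)).card = 1 := by omega
            rw [cut_chi, h4]
            have := hx.odd U hU
            change 1 ≤ cut x U at this
            push_cast
            linarith
        rw [← hcut] at h1
        by_contra h5
        rw [not_le] at h5
        have := mul_lt_mul_of_pos_left h5 hd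
        linarith
    refine dec_comb hσ hl0 hl1 ?_ hcomb
    rw [hS] at hlS
    simp only [Finset.mem_union, Finset.mem_singleton, Finset.mem_image, Finset.mem_univ,
      true_and] at hlS
    rcases hlS with h | ⟨v, h⟩ | ⟨U, hU, h⟩
    · exact absurd h hlt.ne
    · -- smaller support
      refine ihm (supp x').card ?_ x' rfl hPMP
      rw [← hm]
      refine Finset.card_lt_card ?_
      rw [Finset.ssubset_iff_of_subset]
      · refine ⟨(v, σ v), mem_supp.2 (hpos v), ?_⟩
        rw [mem_supp]
        simp only [hx', chi, if_true, mul_one]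
        rw [h]
        simp
      · rintro ⟨a, b⟩ hab
        rw [mem_supp] at hab ⊢
        rw [hcomb]
        have h1 : 0 ≤ chi σ a b := by unfold chi; split_ifs <;> simp
        have h2 := mul_nonneg hl0 h1
        have h3 := mul_pos hd hab
        linarith
    · -- a tight cut
      have hUA := (Finset.mem_filter.1 hU).2
      have hcU : cut x' U = 1 := by
        have h1 := hcut U
        have h2 : l * (cut (chi σ) U - 1) = cut x U - 1 := by
          rw [← h, div_mul_cancel₀ _ (hApos U hU).ne']
        have h3 : (1 - l) * cut x' U = (1 - l) * 1 := by linarith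
        exact mul_left_cancel₀ hd.ne' h3
      refine case_tight n ih X hX hPMP hUA.1 hcU ?_ ?_
      · exact lt_of_lt_of_le hUA.2 (Finset.card_filter_le _ _)
      · exact lt_of_lt_of_le hUA.2 (card_compl_ge hσ U)
  · -- `l = 1`
    subst hl
    have : x = chi σ := by
      funext u v
      have hdeg := hx.deg u
      rw [← Finset.add_sum_erase univ (fun v => x u v) (Finset.mem_univ (σ u))] at hdeg
      have h1 := hlx u
      have h2 : ∀ v ∈ univ.erase (σ u), 0 ≤ x u v := fun v _ => hx.nonneg _ _
      have h3 : ∑ v ∈ univ.erase (σ u), x u v = 0 :=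
        le_antisymm (by linarith) (Finset.sum_nonneg h2)
      unfold chi
      by_cases h : σ u = v
      · rw [if_pos h, ← h]
        linarith
      · rw [if_neg h]
        exact (Finset.sum_eq_zero_iff_of_nonneg h2).1 h3 v
          (Finset.mem_erase.2 ⟨fun h' => h h'.symm, Finset.mem_univ _⟩)
    rw [this]
    exact dec_chi hσ

end Poly

/-- A4 -/
theorem pm_polytope {x : V → V → ℝ} (hx : PMP x) : Dec x :=
  Poly.main _ V rfl x hx

end Pool.Agent.H.MP_f0eba7_co
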