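import Pool.Agent.H.MP_f0eba7_co.Defs

namespace Pool.Agent.H.MP_f0eba7_co

open Finset

/-- The number of points moved by an involution is even. -/
theorem select_even_moved {X : Type} [Fintype X] [DecidableEq X] (σ : X → X)
    (hσ : ∀ x, σ (σ x) = x) : Even (univ.filter (fun x => σ x ≠ x)).card := by
  have h : ∑ x ∈ univ.filter (fun x => σ x ≠ x), (1 : ZMod 2) = 0 := by
    apply Finset.sum_involution (fun a _ => σ a)
    · intro a _
      decide
    · intro a ha _
      exact (Finset.mem_filter.1 ha).2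
    · intro a ha
      have := (Finset.mem_filter.1 ha).2
      refine Finset.mem_filter.2 ⟨mem_univ _, ?_⟩
      rw [hσ]
      exact fun h => this h.symm
    · intro a _
      exact hσ a
  rw [Finset.sum_const, nsmul_eq_mul, mul_one] at h
  rw [← ZMod.natCast_eq_zero_iff_even]
  exact h

/-- Average of a weight over a family of involutions. -/
theorem select_avg {X ι : Type} [Fintype X] [DecidableEq X] [Fintype ι] {x : X → X → ℝ}
    (lam : ι → ℝ) (σ : ι → X → X)
    (hx : ∀ u v, u ≠ v → ∑ i, (if σ i u = v then lam i else 0) = x u v)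
    (f : X → X → ℝ) :
    ∑ i, lam i * ∑ u ∈ univ.filter (fun u => σ i u ≠ u), f u (σ i u) =
      ∑ u, ∑ v ∈ univ.filter (fun v => v ≠ u), f u v * x u v := by
  have h1 : ∀ i, ∑ u ∈ univ.filter (fun u => σ i u ≠ u), f u (σ i u) =
      ∑ u, ∑ v ∈ univ.filter (fun v => v ≠ u), (if σ i u = v then f u v else 0) := by
    intro i
    rw [Finset.sum_filter]
    apply Finset.sum_congr rfl
    intro u _
    rw [Finset.sum_ite_eq]
    by_cases h : σ i u = u
    · simp [h]
    · simp [h]
  have h2 : ∀ i, lam i * ∑ u ∈ univ.filter (fun u => σ i u ≠ u), f u (σ i u) =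
      ∑ u, ∑ v ∈ univ.filter (fun v => v ≠ u), f u v * (if σ i u = v then lam i else 0) := by
    intro i
    rw [h1, Finset.mul_sum]
    apply Finset.sum_congr rfl
    intro u _
    rw [Finset.mul_sum]
    apply Finset.sum_congr rfl
    intro v _
    split_ifs <;> ring
  rw [Finset.sum_congr rfl fun i _ => h2 i, Finset.sum_comm]
  apply Finset.sum_congr rfl
  intro u _
  rw [Finset.sum_comm]
  apply Finset.sum_congr rfl
  intro v hv
  rw [← Finset.mul_sum, hx u v (Ne.symm (Finset.mem_filter.1 hv).2)]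

theorem select_sum_ne {X : Type} [Fintype X] [DecidableEq X] (g : X → X → ℝ)
    (hg : ∀ u, g u u = 0) :
    ∑ u, ∑ v ∈ univ.filter (fun v => v ≠ u), g u v = ∑ u, ∑ v, g u v := by
  apply Finset.sum_congr rfl
  intro u _
  apply Finset.sum_subset (Finset.filter_subset _ _)
  intro v _ hv
  have : v = u := by
    by_contra h
    exact hv (Finset.mem_filter.2 ⟨mem_univ _, h⟩)
  rw [this, hg]

variable {V : Type} [Fintype V] [DecidableEq V]

/-- The extended weighting on `V ⊕ Fin d`. -/
noncomputable def selectExt (z : V → V → ℝ) (R : ℝ) (d : ℕ) : V ⊕ Fin d → V ⊕ Fin d → ℝ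
  | Sum.inl u, Sum.inl v => z u v
  | Sum.inl v, Sum.inr _ => (1 - ∑ w, z v w) / R
  | Sum.inr _, Sum.inl v => (1 - ∑ w, z v w) / R
  | Sum.inr _, Sum.inr _ => 0

theorem selectExt_mp {z : V → V → ℝ} (hz : MP z) {R : ℝ} {d : ℕ}
    (hR : ∑ v, (1 - ∑ w, z v w) = R) (hd : (d : ℝ) + 1 ≤ R) : MP (selectExt z R d) := by
  have hR0 : 0 < R := lt_of_lt_of_le (by positivity) hd
  have he : ∀ v, 0 ≤ 1 - ∑ w, z v w := fun v => by linarith [hz.deg v]
  refine ⟨?_, ?_, ?_, ?_, ?_⟩
  · rintro (u | i) (v | j)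
    · exact hz.nonneg u v
    · exact div_nonneg (he u) hR0.le
    · exact div_nonneg (he v) hR0.le
    · exact le_rfl
  · rintro (u | i) (v | j)
    · exact hz.symm u v
    · rfl
    · rfl
    · rfl
  · rintro (u | i)
    · exact hz.diag u
    · rfl
  · rintro (u | i)
    · rw [Fintype.sum_sum_type]
      show ∑ v, z u v + ∑ _j : Fin d, (1 - ∑ w, z u w) / R ≤ 1
      rw [Finset.sum_const, Finset.card_univ, Fintype.card_fin, nsmul_eq_mul]
      have h1 : (d : ℝ) * ((1 - ∑ w, z u w) / R) ≤ 1 - ∑ w, z u w := by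
        rw [mul_div_assoc', div_le_iff₀ hR0, mul_comm]
        exact mul_le_mul_of_nonneg_left (by linarith) (he u)
      linarith
    · rw [Fintype.sum_sum_type]
      show ∑ v, (1 - ∑ w, z v w) / R + ∑ _j : Fin d, (0 : ℝ) ≤ 1
      rw [← Finset.sum_div, hR, Finset.sum_const_zero, div_self hR0.ne']
      simp
  · intro S hS
    obtain ⟨A, hA⟩ : ∃ A : Finset V, ∀ v, v ∈ A ↔ Sum.inl v ∈ S :=
      ⟨univ.filter (fun v => Sum.inl v ∈ S), by simp⟩
    obtain ⟨J, hJ⟩ : ∃ J : Finset (Fin d), ∀ j, j ∈ J ↔ Sum.inr j ∈ S :=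
      ⟨univ.filter (fun j => Sum.inr j ∈ S), by simp⟩
    have hSd : S = A.disjSum J := by
      ext x
      rcases x with x | x
      · simp [hA]
      · simp [hJ]
    have hcard : S.card = A.card + J.card := by rw [hSd, Finset.card_disjSum]
    obtain ⟨p, hp⟩ : ∃ p, p = ∑ v ∈ A, (1 - ∑ w, z v w) := ⟨_, rfl⟩
    have hp0 : 0 ≤ p := by
      rw [hp]
      exact Finset.sum_nonneg fun v _ => he v
    have hpR : p ≤ R := by
      rw [hp, ← hR]
      exact Finset.sum_le_sum_of_subset_of_nonneg (Finset.subset_univ _) fun v _ _ => he v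
    have hsum : ∑ u ∈ S, ∑ v ∈ S, selectExt z R d u v =
        ∑ u ∈ A, ∑ v ∈ A, z u v + 2 * (J.card * (p / R)) := by
      rw [hSd, Finset.sum_disjSum]
      have e1 : ∑ u ∈ A, ∑ v ∈ A.disjSum J, selectExt z R d (Sum.inl u) v =
          ∑ u ∈ A, ∑ v ∈ A, z u v + J.card * (p / R) := by
        have : ∀ u ∈ A, ∑ v ∈ A.disjSum J, selectExt z R d (Sum.inl u) v =
            ∑ v ∈ A, z u v + J.card * ((1 - ∑ w, z u w) / R) := by
          intro u _
          rw [Finset.sum_disjSum]
          show ∑ v ∈ A, z u v + ∑ _j ∈ J, (1 - ∑ w, z u w) / R = _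
          rw [Finset.sum_const, nsmul_eq_mul]
        rw [Finset.sum_congr rfl this, Finset.sum_add_distrib, ← Finset.mul_sum,
          ← Finset.sum_div, ← hp]
      have e2 : ∑ j ∈ J, ∑ v ∈ A.disjSum J, selectExt z R d (Sum.inr j) v =
          J.card * (p / R) := by
        have : ∀ j ∈ J, ∑ v ∈ A.disjSum J, selectExt z R d (Sum.inr j) v = p / R := by
          intro j _
          rw [Finset.sum_disjSum]
          show ∑ v ∈ A, (1 - ∑ w, z v w) / R + ∑ _j ∈ J, (0 : ℝ) = _
          rw [← Finset.sum_div, ← hp, Finset.sum_const_zero, add_zero]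
        rw [Finset.sum_congr rfl this, Finset.sum_const, nsmul_eq_mul]
      rw [e1, e2]
      ring
    have hzz : ∑ u ∈ A, ∑ v ∈ A, z u v ≤ A.card - p := by
      have : ∑ u ∈ A, ∑ v ∈ A, z u v ≤ ∑ u ∈ A, (1 - (1 - ∑ w, z u w)) := by
        apply Finset.sum_le_sum
        intro u _
        rw [sub_sub_cancel]
        exact Finset.sum_le_sum_of_subset_of_nonneg (Finset.subset_univ _)
          fun v _ _ => hz.nonneg u v
      rw [Finset.sum_sub_distrib, ← hp, Finset.sum_const, nsmul_eq_mul, mul_one] at this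
      exact this
    rw [hsum, hcard]
    push_cast
    rcases Nat.eq_zero_or_pos J.card with hj | hj
    · have hAodd : Odd A.card := by
        rw [hcard, hj, add_zero] at hS
        exact hS
      have := hz.odd A hAodd
      rw [hj]
      simp only [Nat.cast_zero, zero_mul, mul_zero, add_zero]
      exact this
    · have hj1 : (1 : ℝ) ≤ J.card := by exact_mod_cast hj
      have hjd : (J.card : ℝ) ≤ d := by
        have := Finset.card_le_univ J
        rw [Fintype.card_fin] at this
        exact_mod_cast this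
      by_cases h2 : 2 * (J.card : ℝ) ≤ R
      · have : 2 * (J.card * (p / R)) ≤ p := by
          rw [show 2 * ((J.card : ℝ) * (p / R)) = (2 * J.card * p) / R by ring,
            div_le_iff₀ hR0]
          nlinarith
        linarith
      · push Not at h2
        have h3 : 2 * (J.card * (p / R)) - p ≤ 2 * J.card - R := by
          rw [show 2 * ((J.card : ℝ) * (p / R)) - p = (2 * J.card - R) * (p / R) by
            field_simp]
          have h4 : p / R ≤ 1 := by
            rw [div_le_one hR0]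
            exact hpR
          nlinarith
        linarith

theorem select_main (hdec : ∀ (X : Type) [Fintype X] [DecidableEq X] (x : X → X → ℝ), MP x → MDec x)
    {z : V → V → ℝ} (hz : MP z) {w : V → V → ℝ} (hw : ∀ u v, 0 ≤ w u v)
    {N : ℕ} (hN : 2 * N + 1 ≤ Fintype.card V) {q : ℝ} (hq : 0 < q)
    (hsize : 2 * (N : ℝ) - 2 + q ≤ ∑ u, ∑ v, z u v)
    (hsize2 : ∑ u, ∑ v, z u v ≤ 2 * N)
    (hweight : ∑ u, ∑ v, w u v * z u v < q) :
    ∃ τ : V → V, (∀ v, τ (τ v) = v) ∧ (∀ v, τ v ≠ v → 0 < z v (τ v)) ∧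
      2 * N ≤ (univ.filter (fun v => τ v ≠ v)).card ∧
      ∑ v ∈ univ.filter (fun v => τ v ≠ v), w v (τ v) < 2 := by
  obtain ⟨d, hd⟩ : ∃ d, Fintype.card V = 2 * N + 1 + d := ⟨_, (Nat.add_sub_cancel' hN).symm⟩
  obtain ⟨R, hR⟩ : ∃ R, ∑ v, (1 - ∑ u, z v u) = R := ⟨_, rfl⟩
  have hR2 : R = Fintype.card V - ∑ u, ∑ v, z u v := by
    rw [← hR, Finset.sum_sub_distrib]
    simp
  have hdR : (d : ℝ) + 1 ≤ R := by
    rw [hR2, hd]
    push_cast
    linarith
  have hR0 : 0 < R := lt_of_lt_of_le (by positivity) hdR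
  obtain ⟨ι, hι, lam, σ, hlam, hσ, hsum, hx⟩ := hdec (V ⊕ Fin d) _ (selectExt_mp hz hR hdR)
  -- number of moved points
  have hcardX : Fintype.card (V ⊕ Fin d) = 2 * (N + d) + 1 := by
    rw [Fintype.card_sum, hd, Fintype.card_fin]
    ring
  obtain ⟨m, hm⟩ : ∃ m : ι → ℕ, ∀ i, m i = (univ.filter (fun x => σ i x ≠ x)).card :=
    ⟨_, fun _ => rfl⟩
  have hmle : ∀ i, m i ≤ 2 * (N + d) := by
    intro i
    have h1 := select_even_moved (σ i) (hσ i)
    have h2 := Finset.card_le_univ (univ.filter (fun x => σ i x ≠ x))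
    rw [hcardX] at h2
    rw [← hm] at h1 h2
    obtain ⟨c, hc⟩ := h1
    omega
  have hmle2 : ∀ i, m i ≠ 2 * (N + d) → (m i : ℝ) ≤ 2 * (N + d) - 2 := by
    intro i hi
    have h1 := select_even_moved (σ i) (hσ i)
    rw [← hm] at h1
    obtain ⟨c, hc⟩ := h1
    have h2 := hmle i
    have h3 : m i + 2 ≤ 2 * (N + d) := by omega
    have h4 : ((m i + 2 : ℕ) : ℝ) ≤ ((2 * (N + d) : ℕ) : ℝ) := by exact_mod_cast h3
    push_cast at h4
    linarith
  have hdiag : ∀ u, selectExt z R d u u = 0 := (selectExt_mp hz hR hdR).diag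
  have havg : ∑ i, lam i * (m i : ℝ) = ∑ u, ∑ v, z u v + 2 * d := by
    have h1 := select_avg lam σ hx (fun _ _ => (1 : ℝ))
    have h2 : ∑ i, lam i * (m i : ℝ) =
        ∑ i, lam i * ∑ u ∈ univ.filter (fun u => σ i u ≠ u), (1 : ℝ) := by
      apply Finset.sum_congr rfl
      intro i _
      rw [hm i]
      simp
    rw [h2, h1]
    simp only [one_mul]
    rw [select_sum_ne _ hdiag, Fintype.sum_sum_type]
    have e1 : ∑ u : V, ∑ v : V ⊕ Fin d, selectExt z R d (Sum.inl u) v =
        ∑ u, ∑ v, z u v + d := by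
      have : ∀ u : V, ∑ v : V ⊕ Fin d, selectExt z R d (Sum.inl u) v =
          ∑ v, z u v + d * ((1 - ∑ w, z u w) / R) := by
        intro u
        rw [Fintype.sum_sum_type]
        show ∑ v, z u v + ∑ _j : Fin d, (1 - ∑ w, z u w) / R = _
        rw [Finset.sum_const, Finset.card_univ, Fintype.card_fin, nsmul_eq_mul]
      rw [Finset.sum_congr rfl fun u _ => this u, Finset.sum_add_distrib, ← Finset.mul_sum,
        ← Finset.sum_div, hR, div_self hR0.ne', mul_one]
    have e2 : ∑ j : Fin d, ∑ v : V ⊕ Fin d, selectExt z R d (Sum.inr j) v = d := by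
      have : ∀ j : Fin d, ∑ v : V ⊕ Fin d, selectExt z R d (Sum.inr j) v = 1 := by
        intro j
        rw [Fintype.sum_sum_type]
        show ∑ v, (1 - ∑ w, z v w) / R + ∑ _j : Fin d, (0 : ℝ) = _
        rw [← Finset.sum_div, hR, Finset.sum_const_zero, add_zero, div_self hR0.ne']
      rw [Finset.sum_congr rfl fun j _ => this j]
      simp
    rw [e1, e2]
    ring
  -- the good matchings
  obtain ⟨g, hg⟩ : ∃ g, g = ∑ i ∈ univ.filter (fun i => m i = 2 * (N + d)), lam i := ⟨_, rfl⟩
  have hgq : q / 2 ≤ g := by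
    have h1 : ∑ i, lam i * (m i : ℝ) ≤
        ∑ i, lam i * (2 * (N + d) - 2 + (if m i = 2 * (N + d) then 2 else 0)) := by
      apply Finset.sum_le_sum
      intro i _
      apply mul_le_mul_of_nonneg_left _ (hlam i)
      split_ifs with h
      · rw [h]
        push_cast
        linarith
      · rw [add_zero]
        exact hmle2 i h
    have h2 : ∑ i, lam i * (2 * ((N : ℝ) + d) - 2 + (if m i = 2 * (N + d) then 2 else 0)) =
        (2 * (N + d) - 2) + 2 * g := by
      have h3 : ∀ i, lam i * (2 * ((N : ℝ) + d) - 2 + (if m i = 2 * (N + d) then 2 else 0)) =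
          (2 * (N + d) - 2) * lam i + 2 * (if m i = 2 * (N + d) then lam i else 0) := by
        intro i
        split_ifs <;> ring
      rw [Finset.sum_congr rfl fun i _ => h3 i, Finset.sum_add_distrib, ← Finset.mul_sum, hsum,
        ← Finset.mul_sum, ← Finset.sum_filter, ← hg, mul_one]
    rw [havg, h2] at h1
    linarith
  -- restriction to `V`
  obtain ⟨τ, hτ⟩ : ∃ τ : ι → V → V, ∀ i v, (∀ u, σ i (Sum.inl v) = Sum.inl u → τ i v = u) ∧
      (∀ j, σ i (Sum.inl v) = Sum.inr j → τ i v = v) := by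
    refine ⟨fun i v => Sum.elim id (fun _ => v) (σ i (Sum.inl v)), fun i v => ⟨?_, ?_⟩⟩
    · intro u hu
      simp [hu]
    · intro j hj
      simp [hj]
  have hττ : ∀ i v, τ i (τ i v) = v := by
    intro i v
    rcases hc : σ i (Sum.inl v) with u | j
    · rw [(hτ i v).1 u hc]
      apply (hτ i u).1 v
      rw [← hc, hσ]
    · have h1 := (hτ i v).2 j hc
      rw [h1, h1]
  have hτmoved : ∀ i v, τ i v ≠ v → σ i (Sum.inl v) = Sum.inl (τ i v) := by
    intro i v hv
    rcases hc : σ i (Sum.inl v) with u | j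
    · rw [(hτ i v).1 u hc]
    · exact absurd ((hτ i v).2 j hc) hv
  -- weights
  have hW : ∑ i, lam i * ∑ v ∈ univ.filter (fun v => τ i v ≠ v), w v (τ i v) < q := by
    have h1 : ∀ u v : V, u ≠ v → ∑ i, (if τ i u = v then lam i else 0) = z u v := by
      intro u v huv
      have := hx (Sum.inl u) (Sum.inl v) (by simpa using huv)
      rw [show selectExt z R d (Sum.inl u) (Sum.inl v) = z u v from rfl] at this
      rw [← this]
      apply Finset.sum_congr rfl
      intro i _
      by_cases h : τ i u = v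
      · have h2 := hτmoved i u (by rw [h]; exact huv.symm)
        rw [if_pos h, if_pos (by rw [h2, h])]
      · rw [if_neg h, if_neg]
        intro h3
        exact h ((hτ i u).1 v h3)
    rw [select_avg lam τ h1 w, select_sum_ne (fun u v => w u v * z u v)
      (fun u => by rw [hz.diag]; ring)]
    exact hweight
  -- choice of a good matching
  have hex : ∃ i, m i = 2 * (N + d) ∧ 0 < lam i ∧
      ∑ v ∈ univ.filter (fun v => τ i v ≠ v), w v (τ i v) < 2 := by
    by_contra hcon
    push Not at hcon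
    have h1 : ∑ i ∈ univ.filter (fun i => m i = 2 * (N + d)), lam i * 2 ≤
        ∑ i, lam i * ∑ v ∈ univ.filter (fun v => τ i v ≠ v), w v (τ i v) := by
      calc ∑ i ∈ univ.filter (fun i => m i = 2 * (N + d)), lam i * 2
          ≤ ∑ i ∈ univ.filter (fun i => m i = 2 * (N + d)),
            lam i * ∑ v ∈ univ.filter (fun v => τ i v ≠ v), w v (τ i v) := by
            apply Finset.sum_le_sum
            intro i hi
            rcases (hlam i).eq_or_lt with h0 | h0
            · rw [← h0]
              simp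
            · exact mul_le_mul_of_nonneg_left (hcon i (Finset.mem_filter.1 hi).2 h0) h0.le
        _ ≤ _ := by
            apply Finset.sum_le_sum_of_subset_of_nonneg (Finset.filter_subset _ _)
            intro i _ _
            exact mul_nonneg (hlam i) (Finset.sum_nonneg fun v _ => hw _ _)
    rw [← Finset.sum_mul, ← hg] at h1
    linarith
  obtain ⟨i, hmi, hli, hWi⟩ := hex
  refine ⟨τ i, hττ i, ?_, ?_, hWi⟩
  · intro v hv
    have h1 := hx (Sum.inl v) (Sum.inl (τ i v)) (by
      intro h
      exact hv (Sum.inl.inj h).symm)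
    rw [show selectExt z R d (Sum.inl v) (Sum.inl (τ i v)) = z v (τ i v) from rfl] at h1
    rw [← h1]
    apply lt_of_lt_of_le hli
    have h2 : (if σ i (Sum.inl v) = Sum.inl (τ i v) then lam i else 0) = lam i :=
      if_pos (hτmoved i v hv)
    conv_lhs => rw [← h2]
    apply Finset.single_le_sum
      (f := fun i' => if σ i' (Sum.inl v) = Sum.inl (τ i v) then lam i' else 0) _ (mem_univ i)
    intro i' _
    split_ifs
    · exact hlam i'
    · exact le_rfl
  · -- count
    obtain ⟨P, hP⟩ : ∃ P : Finset V, ∀ v, v ∈ P ↔ ∃ j, σ i (Sum.inl v) = Sum.inr j :=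
      ⟨univ.filter (fun v => ∃ j, σ i (Sum.inl v) = Sum.inr j), by simp⟩
    have hPcard : P.card ≤ d := by
      have : P.card ≤ (univ : Finset (Fin d)).card := by
        choose f hf using fun v : P => (hP v.1).1 v.2
        have hinj : Function.Injective f := by
          intro a b hab
          have h1 := hf a
          have h2 := hf b
          rw [hab, ← h2] at h1
          have h3 := congrArg (σ i) h1
          rw [hσ, hσ] at h3
          exact Subtype.ext (Sum.inl.inj h3)
        have h4 := Fintype.card_le_of_injective f hinj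
        rw [Fintype.card_coe] at h4
        rw [Finset.card_univ]
        exact h4
      rw [Finset.card_univ, Fintype.card_fin] at this
      exact this
    have hsub : univ.filter (fun x => σ i x ≠ x) ⊆
        ((univ.filter (fun v => τ i v ≠ v)) ∪ P).disjSum (univ : Finset (Fin d)) := by
      intro x hx'
      have hx' := (Finset.mem_filter.1 hx').2
      rcases x with v | j
      · rw [Finset.inl_mem_disjSum, Finset.mem_union]
        rcases hc : σ i (Sum.inl v) with u | j
        · left
          refine Finset.mem_filter.2 ⟨mem_univ _, ?_⟩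
          rw [(hτ i v).1 u hc]
          rintro rfl
          exact hx' hc
        · right
          exact (hP v).2 ⟨j, hc⟩
      · rw [Finset.inr_mem_disjSum]
        exact mem_univ _
    have h1 := Finset.card_le_card hsub
    rw [← hm, hmi, Finset.card_disjSum, Finset.card_univ, Fintype.card_fin] at h1
    have h2 := Finset.card_union_le (univ.filter (fun v => τ i v ≠ v)) P
    omega

theorem select (hdec : ∀ (X : Type) [Fintype X] [DecidableEq X] (x : X → X → ℝ), MP x → MDec x)
    {z : V → V → ℝ} (hz : MP z) {w : V → V → ℝ} (hw : ∀ u v, 0 ≤ w u v)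
    {N : ℕ} (hN : 2 * N + 1 ≤ Fintype.card V) {q : ℝ} (hq : 0 < q) (hq2 : q ≤ 2)
    (hsize : 2 * (N : ℝ) - 2 + q ≤ ∑ u, ∑ v, z u v)
    (hweight : ∑ u, ∑ v, w u v * z u v < q) :
    ∃ τ : V → V, (∀ v, τ (τ v) = v) ∧ (∀ v, τ v ≠ v → 0 < z v (τ v)) ∧
      2 * N ≤ (univ.filter (fun v => τ v ≠ v)).card ∧
      ∑ v ∈ univ.filter (fun v => τ v ≠ v), w v (τ v) < 2 := by
  by_cases hle : ∑ u, ∑ v, z u v ≤ 2 * N
  · exact select_main hdec hz hw hN hq hsize hle hweight
  push Not at hle
  rcases Nat.eq_zero_or_pos N with h0 | h0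
  · subst h0
    exact ⟨id, fun v => rfl, fun v hv => absurd rfl hv, Nat.zero_le _, by simp⟩
  have hN0 : (0 : ℝ) < N := by exact_mod_cast h0
  obtain ⟨c, hc⟩ : ∃ c, c = 2 * (N : ℝ) / ∑ u, ∑ v, z u v := ⟨_, rfl⟩
  have hS0 : 0 < ∑ u, ∑ v, z u v := by linarith
  have hc0 : 0 < c := by
    rw [hc]
    positivity
  have hc1 : c ≤ 1 := by
    rw [hc, div_le_one hS0]
    exact hle.le
  have hle' : ∀ u v, c * z u v ≤ z u v := fun u v => by
    have := hz.nonneg u v
    nlinarith
  have hz' : MP (fun u v => c * z u v) := by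
    refine ⟨fun u v => mul_nonneg hc0.le (hz.nonneg u v), fun u v => ?_, fun u => ?_,
      fun u => ?_, fun U hU => ?_⟩
    · show c * z u v = c * z v u
      rw [hz.symm]
    · show c * z u u = 0
      rw [hz.diag, mul_zero]
    · exact (Finset.sum_le_sum fun v _ => hle' u v).trans (hz.deg u)
    · exact (Finset.sum_le_sum fun u _ => Finset.sum_le_sum fun v _ => hle' u v).trans
        (hz.odd U hU)
  have hsum : ∑ u, ∑ v, c * z u v = 2 * N := by
    simp only [← Finset.mul_sum]
    rw [hc, div_mul_cancel₀ _ hS0.ne']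
  obtain ⟨τ, h1, h2, h3, h4⟩ := select_main hdec hz' hw hN hq
    (by rw [hsum]; linarith) hsum.le (by
      refine lt_of_le_of_lt ?_ hweight
      exact Finset.sum_le_sum fun u _ => Finset.sum_le_sum fun v _ =>
        mul_le_mul_of_nonneg_left (hle' u v) (hw u v))
  exact ⟨τ, h1, fun v hv => (mul_pos_iff_of_pos_left hc0).1 (h2 v hv), h3, h4⟩

end Pool.Agent.H.MP_f0eba7_co
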