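import Mathlib
import Pool.Agent.H.MP_f0eba7_co.Defs

/-!
Truncation to the matching polytope (D of the skeleton).
-/

namespace Pool.Agent.H.MP_f0eba7_co

open Finset

namespace TruncAux

/-- total weight inside `S` -/
noncomputable def zz {V : Type} (z : V → V → ℝ) (S : Finset V) : ℝ := ∑ u ∈ S, ∑ v ∈ S, z u v

lemma zz_eq {V : Type} [Fintype V] [DecidableEq V] (z : V → V → ℝ) (S : Finset V) :
    zz z S = ∑ u, ∑ v, (if u ∈ S ∧ v ∈ S then z u v else 0) := by
  unfold zz
  rw [← Finset.sum_subset (Finset.subset_univ S)]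
  · refine Finset.sum_congr rfl fun u hu => ?_
    rw [← Finset.sum_subset (Finset.subset_univ S)]
    · refine Finset.sum_congr rfl fun v hv => ?_
      simp [hu, hv]
    · intro v _ hv
      simp [hv]
  · intro u _ hu
    simp [hu]

lemma sum_ind {V : Type} [Fintype V] [DecidableEq V] (z : V → V → ℝ) (S : Finset V) :
    ∑ u ∈ S, ∑ v, z u v = ∑ u, ∑ v, (if u ∈ S then z u v else 0) := by
  rw [← Finset.sum_subset (Finset.subset_univ S)]
  · refine Finset.sum_congr rfl fun u hu => ?_
    simp [hu]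
  · intro u _ hu
    simp [hu]

lemma sum_ind' {V : Type} [Fintype V] [DecidableEq V] (z : V → V → ℝ)
    (hs : ∀ u v, z u v = z v u) (S : Finset V) :
    ∑ u ∈ S, ∑ v, z u v = ∑ u, ∑ v, (if v ∈ S then z u v else 0) := by
  rw [sum_ind, Finset.sum_comm]
  refine Finset.sum_congr rfl fun u _ => Finset.sum_congr rfl fun v _ => ?_
  rw [hs v u]

lemma supermod {V : Type} [Fintype V] [DecidableEq V] (z : V → V → ℝ)
    (h0 : ∀ u v, 0 ≤ z u v) (W W' : Finset V) :
    zz z W + zz z W' ≤ zz z (W ∩ W') + zz z (W ∪ W') := by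
  rw [zz_eq, zz_eq, zz_eq, zz_eq, ← Finset.sum_add_distrib, ← Finset.sum_add_distrib]
  refine Finset.sum_le_sum fun u _ => ?_
  rw [← Finset.sum_add_distrib, ← Finset.sum_add_distrib]
  refine Finset.sum_le_sum fun v _ => ?_
  have h := h0 u v
  by_cases h1 : u ∈ W <;> by_cases h2 : v ∈ W <;> by_cases h3 : u ∈ W' <;>
    by_cases h4 : v ∈ W' <;> simp [h1, h2, h3, h4, h]

lemma uncross_even {V : Type} [Fintype V] [DecidableEq V] (z : V → V → ℝ)
    (h0 : ∀ u v, 0 ≤ z u v) (hs : ∀ u v, z u v = z v u) (W W' : Finset V) :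
    zz z W + zz z W' ≤ zz z (W \ W') + zz z (W' \ W) + 2 * ∑ u ∈ W ∩ W', ∑ v, z u v := by
  have e : 2 * ∑ u ∈ W ∩ W', ∑ v, z u v =
      ∑ u, ∑ v, (if u ∈ W ∩ W' then z u v else 0) +
      ∑ u, ∑ v, (if v ∈ W ∩ W' then z u v else 0) := by
    rw [← sum_ind, ← sum_ind' z hs]
    ring
  rw [e, zz_eq, zz_eq, zz_eq, zz_eq, ← Finset.sum_add_distrib, ← Finset.sum_add_distrib,
    ← Finset.sum_add_distrib, ← Finset.sum_add_distrib]
  refine Finset.sum_le_sum fun u _ => ?_
  rw [← Finset.sum_add_distrib, ← Finset.sum_add_distrib,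
    ← Finset.sum_add_distrib, ← Finset.sum_add_distrib]
  refine Finset.sum_le_sum fun v _ => ?_
  have h := h0 u v
  by_cases h1 : u ∈ W <;> by_cases h2 : v ∈ W <;> by_cases h3 : u ∈ W' <;>
    by_cases h4 : v ∈ W' <;> simp [h1, h2, h3, h4, h]

/-- the truncation polytope -/
def KK {V : Type} [Fintype V] (y : V → V → ℝ) : Set (V → V → ℝ) :=
  {z | (∀ u v, 0 ≤ z u v) ∧ (∀ u v, z u v ≤ y u v) ∧ (∀ u v, z u v = z v u) ∧
    ∀ W : Finset V, Odd W.card → zz z W ≤ (W.card : ℝ) - 1}

lemma continuous_zz {V : Type} [Fintype V] (W : Finset V) :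
    Continuous (fun z : V → V → ℝ => zz z W) := by
  unfold zz
  fun_prop

lemma isCompact_KK {V : Type} [Fintype V] (y : V → V → ℝ) : IsCompact (KK y) := by
  have hc : IsCompact (Set.Icc (0 : V → V → ℝ) y) := isCompact_Icc
  refine hc.of_isClosed_subset ?_ ?_
  · have e : KK y = (⋂ u, ⋂ v, {z : V → V → ℝ | 0 ≤ z u v}) ∩ (⋂ u, ⋂ v, {z : V → V → ℝ | z u v ≤ y u v}) ∩
      (⋂ u, ⋂ v, {z : V → V → ℝ | z u v = z v u}) ∩
      (⋂ W : Finset V, ⋂ (_ : Odd W.card), {z : V → V → ℝ | zz z W ≤ (W.card : ℝ) - 1}) := by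
      ext z
      simp only [KK, Set.mem_ofPred_eq, Set.mem_inter_iff, Set.mem_iInter]
      tauto
    rw [e]
    refine IsClosed.inter (IsClosed.inter (IsClosed.inter ?_ ?_) ?_) ?_
    · exact isClosed_iInter fun u => isClosed_iInter fun v =>
        isClosed_le continuous_const (by fun_prop)
    · exact isClosed_iInter fun u => isClosed_iInter fun v =>
        isClosed_le (by fun_prop) continuous_const
    · exact isClosed_iInter fun u => isClosed_iInter fun v =>
        isClosed_eq (by fun_prop) (by fun_prop)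
    · exact isClosed_iInter fun W => isClosed_iInter fun _ =>
        isClosed_le (continuous_zz W) continuous_const
  · intro z hz
    exact ⟨fun u v => hz.1 u v, fun u v => hz.2.1 u v⟩

lemma zero_mem_KK {V : Type} [Fintype V] {y : V → V → ℝ} (h0 : ∀ u v, 0 ≤ y u v) :
    (0 : V → V → ℝ) ∈ KK y := by
  refine ⟨fun u v => le_refl _, fun u v => h0 u v, fun u v => rfl, ?_⟩
  intro W hW
  have h1 : 1 ≤ W.card := hW.pos
  have h2 : (1 : ℝ) ≤ (W.card : ℝ) := by exact_mod_cast h1
  simp only [zz, Pi.zero_apply, Finset.sum_const_zero]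
  linarith

lemma exists_max {V : Type} [Fintype V] {y : V → V → ℝ} (h0 : ∀ u v, 0 ≤ y u v) :
    ∃ z ∈ KK y, ∀ z' ∈ KK y, zz z' univ ≤ zz z univ := by
  obtain ⟨z, hz, hmax⟩ := (isCompact_KK y).exists_isMaxOn ⟨0, zero_mem_KK h0⟩
    (continuous_zz (univ : Finset V)).continuousOn
  exact ⟨z, hz, fun z' hz' => hmax hz'⟩

/-- bump -/
noncomputable def bump {V : Type} [DecidableEq V] (z : V → V → ℝ) (a b : V) (ε : ℝ) :
    V → V → ℝ :=
  fun u v => z u v + ((if u = a ∧ v = b then ε else 0) + (if u = b ∧ v = a then ε else 0))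

lemma zz_bump {V : Type} [Fintype V] [DecidableEq V] (z : V → V → ℝ) (a b : V) (ε : ℝ)
    (S : Finset V) :
    zz (bump z a b ε) S = zz z S + (if a ∈ S ∧ b ∈ S then 2 * ε else 0) := by
  unfold zz bump
  simp only [Finset.sum_add_distrib]
  congr 1
  have e1 : ∑ u ∈ S, ∑ v ∈ S, (if u = a ∧ v = b then ε else 0) =
      if a ∈ S ∧ b ∈ S then ε else 0 := by
    by_cases ha : a ∈ S
    · rw [Finset.sum_eq_single a]
      · by_cases hb : b ∈ S
        · rw [Finset.sum_eq_single b]
          · simp [ha, hb]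
          · intro v _ hv
            simp [hv]
          · intro h
            exact absurd hb h
        · rw [Finset.sum_eq_zero]
          · simp [hb]
          · intro v hv
            have : v ≠ b := fun h => hb (h ▸ hv)
            simp [this]
      · intro u _ hu
        simp [hu]
      · intro h
        exact absurd ha h
    · rw [Finset.sum_eq_zero]
      · simp [ha]
      · intro u hu
        have : u ≠ a := fun h => ha (h ▸ hu)
        simp [this]
  have e2 : ∑ u ∈ S, ∑ v ∈ S, (if u = b ∧ v = a then ε else 0) =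
      if a ∈ S ∧ b ∈ S then ε else 0 := by
    by_cases hb : b ∈ S
    · rw [Finset.sum_eq_single b]
      · by_cases ha : a ∈ S
        · rw [Finset.sum_eq_single a]
          · simp [ha, hb]
          · intro v _ hv
            simp [hv]
          · intro h
            exact absurd ha h
        · rw [Finset.sum_eq_zero]
          · simp [ha]
          · intro v hv
            have : v ≠ a := fun h => ha (h ▸ hv)
            simp [this]
      · intro u _ hu
        simp [hu]
      · intro h
        exact absurd hb h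
    · rw [Finset.sum_eq_zero]
      · simp [hb]
      · intro u hu
        have : u ≠ b := fun h => hb (h ▸ hu)
        simp [this]
  rw [e1, e2]
  split_ifs
  · ring
  · ring

lemma tight_of_lt {V : Type} [Fintype V] [DecidableEq V] {y z : V → V → ℝ}
    (hs : ∀ u v, y u v = y v u) (hd : ∀ u, y u u = 0)
    (hz : z ∈ KK y) (hmax : ∀ z' ∈ KK y, zz z' univ ≤ zz z univ) {a b : V}
    (hab : z a b < y a b) :
    ∃ W : Finset V, Odd W.card ∧ zz z W = (W.card : ℝ) - 1 ∧ a ∈ W ∧ b ∈ W := by
  by_contra hcon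
  have hne : a ≠ b := by
    rintro rfl
    have h1 := hz.1 a a
    rw [hd a] at hab
    linarith
  have hslack : ∀ W : Finset V, Odd W.card → a ∈ W → b ∈ W → zz z W < (W.card : ℝ) - 1 := by
    intro W hW ha hb
    rcases lt_or_eq_of_le (hz.2.2.2 W hW) with h | h
    · exact h
    · exact absurd ⟨W, hW, h, ha, hb⟩ hcon
  have hev : ∀ W : Finset V, ∀ᶠ ε in nhdsWithin (0 : ℝ) (Set.Ioi 0),
      Odd W.card → a ∈ W → b ∈ W → zz z W + 2 * ε ≤ (W.card : ℝ) - 1 := by
    intro W
    by_cases h : Odd W.card ∧ a ∈ W ∧ b ∈ W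
    · have h1 := hslack W h.1 h.2.1 h.2.2
      have h2 : ∀ᶠ ε in nhdsWithin (0 : ℝ) (Set.Ioi 0),
          ε < ((W.card : ℝ) - 1 - zz z W) / 2 := by
        refine nhdsWithin_le_nhds ?_
        exact gt_mem_nhds (by linarith)
      filter_upwards [h2] with ε hε _ _ _
      linarith
    · refine Filter.Eventually.of_forall fun ε h1 h2 h3 => ?_
      exact absurd ⟨h1, h2, h3⟩ h
  have hev2 := (Filter.eventually_all (l := nhdsWithin (0 : ℝ) (Set.Ioi 0))).2 hev
  have hev3 : ∀ᶠ ε in nhdsWithin (0 : ℝ) (Set.Ioi 0), ε < y a b - z a b :=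
    nhdsWithin_le_nhds (gt_mem_nhds (by linarith))
  obtain ⟨ε, ⟨h1, h2⟩, h3⟩ := ((hev2.and hev3).and self_mem_nhdsWithin).exists
  have hε : 0 < ε := h3
  have hmem : bump z a b ε ∈ KK y := by
    refine ⟨?_, ?_, ?_, ?_⟩
    · intro u v
      have := hz.1 u v
      unfold bump
      split_ifs <;> linarith
    · intro u v
      have h4 := hz.2.1 u v
      unfold bump
      by_cases c1 : u = a ∧ v = b
      · have c2 : ¬ (u = b ∧ v = a) := by
          rintro ⟨h, _⟩
          exact hne (c1.1.symm.trans h)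
        rw [if_pos c1, if_neg c2, c1.1, c1.2]
        linarith
      · by_cases c2 : u = b ∧ v = a
        · rw [if_neg c1, if_pos c2, c2.1, c2.2, hs b a, hz.2.2.1 b a]
          linarith
        · rw [if_neg c1, if_neg c2]
          linarith
    · intro u v
      unfold bump
      rw [hz.2.2.1 u v]
      congr 1
      rw [add_comm]
      congr 1
      · simp only [and_comm]
      · simp only [and_comm]
    · intro W hW
      rw [zz_bump]
      by_cases h : a ∈ W ∧ b ∈ W
      · rw [if_pos h]
        exact h1 W hW h.1 h.2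
      · rw [if_neg h]
        have := hz.2.2.2 W hW
        linarith
  have := hmax _ hmem
  rw [zz_bump] at this
  simp only [Finset.mem_univ, and_self, if_true] at this
  linarith

end TruncAux

open TruncAux in
theorem trunc {V : Type} [Fintype V] [DecidableEq V]
    {y : V → V → ℝ} (h0 : ∀ u v, 0 ≤ y u v) (hs : ∀ u v, y u v = y v u)
    (hd : ∀ u, y u u = 0) (hdeg : ∀ u, ∑ v, y u v ≤ 1) :
    ∃ z : V → V → ℝ, MP z ∧ (∀ u v, z u v ≤ y u v) ∧ ∃ F : Finset (Finset V),
      (∀ W ∈ F, Odd W.card) ∧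
      (∀ W ∈ F, (W.card : ℝ) - 1 < ∑ u ∈ W, ∑ v ∈ W, y u v) ∧
      (∀ W ∈ F, ∀ W' ∈ F, W ≠ W' → Disjoint W W') ∧
      ∑ u, ∑ v, z u v =
        ∑ u, ∑ v, y u v - ∑ W ∈ F, (∑ u ∈ W, ∑ v ∈ W, y u v - ((W.card : ℝ) - 1)) := by
  classical
  obtain ⟨z, hz, hmax⟩ := exists_max h0
  have hzdeg : ∀ u, ∑ v, z u v ≤ 1 := fun u =>
    (Finset.sum_le_sum fun v _ => hz.2.1 u v).trans (hdeg u)
  have hzdeg' : ∀ a b, z a b < y a b → ∑ v, z a v < 1 := by
    intro a b hab
    refine lt_of_lt_of_le ?_ (hdeg a)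
    exact Finset.sum_lt_sum (fun v _ => hz.2.1 a v) ⟨b, Finset.mem_univ _, hab⟩
  refine ⟨z, ⟨hz.1, hz.2.2.1, ?_, hzdeg, hz.2.2.2⟩, hz.2.1, ?_⟩
  · intro u
    have h1 := hz.1 u u
    have h2 := hz.2.1 u u
    rw [hd u] at h2
    linarith
  -- the families
  let good : Finset (Finset V) → Prop := fun F =>
    (∀ W ∈ F, Odd W.card ∧ zz z W = (W.card : ℝ) - 1) ∧
    ∀ a b, z a b < y a b → ∃ W ∈ F, a ∈ W ∧ b ∈ W
  have hgood : (univ.filter good).Nonempty := by
    refine ⟨univ.filter (fun W => Odd W.card ∧ zz z W = (W.card : ℝ) - 1), ?_⟩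
    rw [Finset.mem_filter]
    refine ⟨Finset.mem_univ _, ?_, ?_⟩
    · intro W hW
      exact (Finset.mem_filter.1 hW).2
    · intro a b hab
      obtain ⟨W, h1, h2, h3, h4⟩ := tight_of_lt hs hd hz hmax hab
      exact ⟨W, Finset.mem_filter.2 ⟨Finset.mem_univ _, h1, h2⟩, h3, h4⟩
  obtain ⟨F, hF, hmin⟩ := Finset.exists_min_image (univ.filter good)
    (fun F => ∑ W ∈ F, W.card) hgood
  have hF1 : good F := (Finset.mem_filter.1 hF).2
  have hmin' : ∀ F', good F' → ∑ W ∈ F, W.card ≤ ∑ W ∈ F', W.card := fun F' h =>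
    hmin F' (Finset.mem_filter.2 ⟨Finset.mem_univ _, h⟩)
  have hins : ∀ (A : Finset V) (G : Finset (Finset V)),
      ∑ W ∈ insert A G, W.card ≤ A.card + ∑ W ∈ G, W.card := by
    intro A G
    by_cases h : A ∈ G
    · rw [Finset.insert_eq_of_mem h]
      omega
    · rw [Finset.sum_insert h]
  -- disjointness
  have hdisj : ∀ W ∈ F, ∀ W' ∈ F, W ≠ W' → Disjoint W W' := by
    intro W hW W' hW' hne
    by_contra hnd
    have hI : (W ∩ W').Nonempty := by
      rw [Finset.nonempty_iff_ne_empty]
      intro h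
      exact hnd (Finset.disjoint_iff_inter_eq_empty.2 h)
    have hIpos : 0 < (W ∩ W').card := hI.card_pos
    have hcard := Finset.card_union_add_card_inter W W'
    obtain ⟨hWo, hWt⟩ := hF1.1 W hW
    obtain ⟨hWo', hWt'⟩ := hF1.1 W' hW'
    have hcR : ((W ∪ W').card : ℝ) + ((W ∩ W').card : ℝ) = (W.card : ℝ) + (W'.card : ℝ) := by
      exact_mod_cast hcard
    rcases Nat.even_or_odd (W ∩ W').card with he | ho
    · -- even intersection
      have hA : (W \ W').card + (W ∩ W').card = W.card := Finset.card_sdiff_add_card_inter W W'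
      have hA' : (W' \ W).card + (W ∩ W').card = W'.card := by
        have := Finset.card_sdiff_add_card_inter W' W
        rwa [Finset.inter_comm] at this
      have hAo : Odd (W \ W').card := by
        have : Odd ((W \ W').card + (W ∩ W').card) := by rw [hA]; exact hWo
        rcases Nat.even_or_odd (W \ W').card with h | h
        · exact absurd (h.add he) (by rw [Nat.not_even_iff_odd]; exact this)
        · exact h
      have hAo' : Odd (W' \ W).card := by
        have : Odd ((W' \ W).card + (W ∩ W').card) := by rw [hA']; exact hWo'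
        rcases Nat.even_or_odd (W' \ W).card with h | h
        · exact absurd (h.add he) (by rw [Nat.not_even_iff_odd]; exact this)
        · exact h
      have h1 := uncross_even z hz.1 hz.2.2.1 W W'
      have h2 := hz.2.2.2 _ hAo
      have h3 := hz.2.2.2 _ hAo'
      have h4 : ∑ u ∈ W ∩ W', ∑ v, z u v ≤ ((W ∩ W').card : ℝ) := by
        calc ∑ u ∈ W ∩ W', ∑ v, z u v ≤ ∑ u ∈ W ∩ W', (1 : ℝ) :=
              Finset.sum_le_sum fun u _ => hzdeg u
          _ = _ := by simp
      have hAR : ((W \ W').card : ℝ) + ((W ∩ W').card : ℝ) = (W.card : ℝ) := by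
        exact_mod_cast hA
      have hAR' : ((W' \ W).card : ℝ) + ((W ∩ W').card : ℝ) = (W'.card : ℝ) := by
        exact_mod_cast hA'
      have h5 : zz z (W \ W') = ((W \ W').card : ℝ) - 1 := by linarith
      have h6 : ∑ u ∈ W ∩ W', ∑ v, z u v = ((W ∩ W').card : ℝ) := by linarith
      have h7 : ∀ u ∈ W ∩ W', ∀ b, ¬ z u b < y u b := by
        intro u hu b hub
        have h8 := hzdeg' u b hub
        have : ∑ u ∈ W ∩ W', ∑ v, z u v < ∑ u ∈ W ∩ W', (1 : ℝ) :=
          Finset.sum_lt_sum (fun u _ => hzdeg u) ⟨u, hu, h8⟩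
        rw [h6] at this
        simp at this
      have h7' : ∀ u ∈ W ∩ W', ∀ b, ¬ z b u < y b u := by
        intro u hu b
        rw [hz.2.2.1 b u, hs b u]
        exact h7 u hu b
      have hg : good (insert (W \ W') (F.erase W)) := by
        refine ⟨?_, ?_⟩
        · intro X hX
          rcases Finset.mem_insert.1 hX with rfl | hX
          · exact ⟨hAo, h5⟩
          · exact hF1.1 X (Finset.mem_of_mem_erase hX)
        · intro a b hab
          obtain ⟨X, hX, ha, hb⟩ := hF1.2 a b hab
          by_cases hXW : X = W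
          · subst hXW
            refine ⟨X \ W', Finset.mem_insert_self _ _, ?_, ?_⟩
            · rw [Finset.mem_sdiff]
              refine ⟨ha, fun h => ?_⟩
              exact h7 a (Finset.mem_inter.2 ⟨ha, h⟩) b hab
            · rw [Finset.mem_sdiff]
              refine ⟨hb, fun h => ?_⟩
              exact h7' b (Finset.mem_inter.2 ⟨hb, h⟩) a hab
          · exact ⟨X, Finset.mem_insert_of_mem (Finset.mem_erase.2 ⟨hXW, hX⟩), ha, hb⟩
      have h9 := hmin' _ hg
      have h10 := hins (W \ W') (F.erase W)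
      have h11 := Finset.add_sum_erase F (fun W => W.card) hW
      omega
    · -- odd intersection
      have hUo : Odd (W ∪ W').card := by
        have h1 : Even (W.card + W'.card) := hWo.add_odd hWo'
        rw [← hcard] at h1
        rcases Nat.even_or_odd (W ∪ W').card with h | h
        · exact absurd h1 (by rw [Nat.not_even_iff_odd]; exact h.add_odd ho)
        · exact h
      have h1 := supermod z hz.1 W W'
      have h2 := hz.2.2.2 _ ho
      have h3 := hz.2.2.2 _ hUo
      have h4 : zz z (W ∪ W') = ((W ∪ W').card : ℝ) - 1 := by linarith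
      have hg : good (insert (W ∪ W') ((F.erase W).erase W')) := by
        refine ⟨?_, ?_⟩
        · intro X hX
          rcases Finset.mem_insert.1 hX with rfl | hX
          · exact ⟨hUo, h4⟩
          · exact hF1.1 X (Finset.mem_of_mem_erase (Finset.mem_of_mem_erase hX))
        · intro a b hab
          obtain ⟨X, hX, ha, hb⟩ := hF1.2 a b hab
          by_cases hXW : X = W
          · subst hXW
            exact ⟨X ∪ W', Finset.mem_insert_self _ _, Finset.mem_union_left _ ha,
              Finset.mem_union_left _ hb⟩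
          · by_cases hXW' : X = W'
            · subst hXW'
              exact ⟨W ∪ X, Finset.mem_insert_self _ _, Finset.mem_union_right _ ha,
                Finset.mem_union_right _ hb⟩
            · exact ⟨X, Finset.mem_insert_of_mem (Finset.mem_erase.2 ⟨hXW',
                Finset.mem_erase.2 ⟨hXW, hX⟩⟩), ha, hb⟩
      have h9 := hmin' _ hg
      have h10 := hins (W ∪ W') ((F.erase W).erase W')
      have h11 := Finset.add_sum_erase F (fun W => W.card) hW
      have h12 := Finset.add_sum_erase (F.erase W) (fun W => W.card)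
        (Finset.mem_erase.2 ⟨hne.symm, hW'⟩)
      omega
  -- every member contains an R-pair
  have hR : ∀ W ∈ F, ∃ a ∈ W, ∃ b ∈ W, z a b < y a b := by
    intro W hW
    by_contra hcon
    push Not at hcon
    have hg : good (F.erase W) := by
      refine ⟨fun X hX => hF1.1 X (Finset.mem_of_mem_erase hX), ?_⟩
      intro a b hab
      obtain ⟨X, hX, ha, hb⟩ := hF1.2 a b hab
      refine ⟨X, Finset.mem_erase.2 ⟨?_, hX⟩, ha, hb⟩
      rintro rfl
      exact absurd hab (not_lt.2 (hcon a ha b hb))
    have h9 := hmin' _ hg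
    have h11 := Finset.add_sum_erase F (fun W => W.card) hW
    have h12 : 0 < W.card := (hF1.1 W hW).1.pos
    omega
  refine ⟨F, fun W hW => (hF1.1 W hW).1, ?_, hdisj, ?_⟩
  · intro W hW
    rw [← (hF1.1 W hW).2]
    obtain ⟨a, ha, b, hb, hab⟩ := hR W hW
    unfold zz
    refine Finset.sum_lt_sum (fun u _ => Finset.sum_le_sum fun v _ => hz.2.1 u v)
      ⟨a, ha, Finset.sum_lt_sum (fun v _ => hz.2.1 a v) ⟨b, hb, hab⟩⟩
  · -- the sum
    have e1 : ∀ W ∈ F, ∑ u ∈ W, ∑ v ∈ W, y u v - ((W.card : ℝ) - 1) =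
        ∑ u, ∑ v, (if u ∈ W ∧ v ∈ W then (y u v - z u v) else 0) := by
      intro W hW
      rw [← (hF1.1 W hW).2]
      have := zz_eq (fun u v => y u v - z u v) W
      rw [← this]
      unfold zz
      simp only [Finset.sum_sub_distrib]
    rw [Finset.sum_congr rfl e1]
    have e2 : ∑ W ∈ F, ∑ u, ∑ v, (if u ∈ W ∧ v ∈ W then (y u v - z u v) else 0) =
        ∑ u, ∑ v, (y u v - z u v) := by
      rw [Finset.sum_comm]
      refine Finset.sum_congr rfl fun u _ => ?_
      rw [Finset.sum_comm]
      refine Finset.sum_congr rfl fun v _ => ?_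
      by_cases huv : z u v < y u v
      · obtain ⟨X, hX, hu, hv⟩ := hF1.2 u v huv
        rw [Finset.sum_eq_single X]
        · simp [hu, hv]
        · intro W hW hWX
          rw [if_neg]
          rintro ⟨h, _⟩
          exact Finset.disjoint_left.1 (hdisj W hW X hX hWX) h hu
        · intro h
          exact absurd hX h
      · have h1 : y u v - z u v = 0 := by
          have := hz.2.1 u v
          push Not at huv
          linarith
        rw [h1]
        simp
    rw [e2]
    simp only [Finset.sum_sub_distrib]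
    ring

end Pool.Agent.H.MP_f0eba7_co
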