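import Pool.Agent.H.MP_f0eba7_co.Defs

/-!
Reduction of the general case to the core (job 418 of MP_f0eba7_co).
-/

namespace Pool.Agent.H.MP_f0eba7_co

open Finset

/-- G: the reduction to the core, the core theorem being a hypothesis. -/
theorem upper_of
    (hcore : ∀ (V C : Type) [Fintype V] [DecidableEq V] [Fintype C] [DecidableEq C]
      (mate : V → V) (_ : ∀ v, mate (mate v) = v) (L : V → Finset C) (k : ℕ)
      (_ : ∀ v, (L v).card = k) (_ : Fintype.card V + 1 ≤ 2 * k)
      (_ : Fintype.card V + (univ.filter (fun v => mate v = v)).card ≤ 2 * k)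
      (_ : Fintype.card C < Fintype.card V)
      (_ : ∀ S : Finset C, S.card ≤ (nb L S).card),
      ∃ f : V → C, (∀ v, f v ∈ L v) ∧
        ∀ u v, u ≠ v → f u = f v → mate u = v ∧ k + 1 ≤ deg L (f v))
    {V C : Type} [Fintype V] [DecidableEq V] [DecidableEq C]
    {mate : V → V} (hmate : ∀ v, mate (mate v) = v) {L : V → Finset C} {k : ℕ}
    (hL : ∀ v, (L v).card = k) (hV : Fintype.card V + 1 ≤ 2 * k)
    (hfix : Fintype.card V + (univ.filter (fun v => mate v = v)).card ≤ 2 * k) :
    ∃ f : V → C, (∀ v, f v ∈ L v) ∧
      ∀ u v, u ≠ v → f u = f v → mate u = v ∧ k + 1 ≤ deg L (f v) := by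
  classical
  obtain ⟨T, -, hT⟩ := Finset.exists_max_image (univ : Finset (Finset V))
    (fun T => (T.card : ℤ) - ((T.biUnion L).card : ℤ)) ⟨∅, mem_univ _⟩
  have hmax : ∀ A : Finset V, (A.card : ℤ) - ((A.biUnion L).card : ℤ)
      ≤ (T.card : ℤ) - ((T.biUnion L).card : ℤ) := fun A => hT A (mem_univ _)
  by_cases hle : (T.card : ℤ) - ((T.biUnion L).card : ℤ) ≤ 0
  · have hH : ∀ s : Finset V, s.card ≤ (s.biUnion L).card := by
      intro s
      have := hmax s
      omega
    obtain ⟨f, hf, hfm⟩ := (Finset.all_card_le_biUnion_card_iff_exists_injective L).1 hH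
    exact ⟨f, hfm, fun u v huv h => absurd (hf h) huv⟩
  · set N := T.biUnion L with hN
    have hNT : N.card < T.card := by omega
    have hLN : ∀ v ∈ T, L v ⊆ N := fun v hv => Finset.subset_biUnion_of_mem L hv
    -- the restricted data
    let mate' : {v // v ∈ T} → {v // v ∈ T} := fun v =>
      if h : mate v.1 ∈ T then ⟨mate v.1, h⟩ else v
    let L' : {v // v ∈ T} → Finset {c // c ∈ N} := fun v => Finset.subtype (fun c => c ∈ N) (L v.1)
    have hL'mem : ∀ (v : {v // v ∈ T}) (c : {c // c ∈ N}), c ∈ L' v ↔ c.1 ∈ L v.1 := by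
      intro v c
      simp [L']
    have hmate'1 : ∀ v : {v // v ∈ T}, ∀ h : mate v.1 ∈ T, mate' v = ⟨mate v.1, h⟩ := by
      intro v h
      simp [mate', h]
    have hmate'2 : ∀ v : {v // v ∈ T}, mate v.1 ∉ T → mate' v = v := by
      intro v h
      simp [mate', h]
    have hmate' : ∀ v, mate' (mate' v) = v := by
      intro v
      by_cases h : mate v.1 ∈ T
      · rw [hmate'1 v h]
        have h2 : mate (mate v.1) ∈ T := by rw [hmate]; exact v.2
        rw [hmate'1 ⟨mate v.1, h⟩ h2]
        exact Subtype.ext (hmate v.1)
      · rw [hmate'2 v h, hmate'2 v h]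
    have hL' : ∀ v, (L' v).card = k := by
      intro v
      rw [← hL v.1]
      have : (L' v).map (Function.Embedding.subtype _) = L v.1 := by
        rw [Finset.subtype_map]
        exact Finset.filter_true_of_mem fun c hc => hLN v.1 v.2 hc
      rw [← this, Finset.card_map]
    have hcardV : Fintype.card {v // v ∈ T} = T.card := Fintype.card_coe T
    have hcardC : Fintype.card {c // c ∈ N} = N.card := Fintype.card_coe N
    have hTV : T.card ≤ Fintype.card V := Finset.card_le_univ T
    have hV' : Fintype.card {v // v ∈ T} + 1 ≤ 2 * k := by omega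
    have hfix' : Fintype.card {v // v ∈ T}
        + (univ.filter (fun v => mate' v = v)).card ≤ 2 * k := by
      have h1 : (univ.filter (fun v => mate' v = v)).card
          ≤ (T.filter (fun v => mate v = v)).card + (T.filter (fun v => mate v ∉ T)).card := by
        rw [← Finset.card_map (Function.Embedding.subtype (fun v => v ∈ T))]
        refine le_trans (Finset.card_le_card ?_) (Finset.card_union_le _ _)
        intro v hv
        rw [Finset.mem_map] at hv
        obtain ⟨w, hw, rfl⟩ := hv
        rw [Finset.mem_filter] at hw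
        rw [Finset.mem_union, Finset.mem_filter, Finset.mem_filter]
        by_cases h : mate w.1 ∈ T
        · left
          refine ⟨w.2, ?_⟩
          have h2 := hw.2
          rw [hmate'1 w h] at h2
          exact congrArg Subtype.val h2
        · right
          exact ⟨w.2, h⟩
      have h2 : (T.filter (fun v => mate v ∉ T)).card ≤ Tᶜ.card := by
        refine Finset.card_le_card_of_injOn mate ?_ ?_
        · intro v hv
          have hv' := Finset.mem_filter.1 hv
          simpa using hv'.2
        · intro u _ v _ huv
          rw [← hmate u, ← hmate v, huv]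
      have h3 : (T.filter (fun v => mate v = v)).card
          ≤ (univ.filter (fun v => mate v = v)).card :=
        Finset.card_le_card (Finset.filter_subset_filter _ (subset_univ _))
      have h4 : T.card + Tᶜ.card = Fintype.card V := Finset.card_add_card_compl T
      omega
    have hC' : Fintype.card {c // c ∈ N} < Fintype.card {v // v ∈ T} := by omega
    have hHall' : ∀ S : Finset {c // c ∈ N}, S.card ≤ (nb L' S).card := by
      intro S
      set S0 : Finset C := S.map (Function.Embedding.subtype _) with hS0
      set B : Finset V := (nb L' S).map (Function.Embedding.subtype _) with hB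
      have hBT : B ⊆ T := by
        intro v hv
        rw [hB, Finset.mem_map] at hv
        obtain ⟨w, _, rfl⟩ := hv
        exact w.2
      have hS0N : S0 ⊆ N := by
        intro v hv
        rw [hS0, Finset.mem_map] at hv
        obtain ⟨w, _, rfl⟩ := hv
        exact w.2
      have h1 := hmax (T \ B)
      have h2 : (T \ B).biUnion L ⊆ N \ S0 := by
        intro c hc
        rw [Finset.mem_biUnion] at hc
        obtain ⟨v, hv, hcv⟩ := hc
        rw [Finset.mem_sdiff] at hv ⊢
        refine ⟨hLN v hv.1 hcv, fun hcS => hv.2 ?_⟩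
        rw [hS0, Finset.mem_map] at hcS
        obtain ⟨c', hc', rfl⟩ := hcS
        rw [hB, Finset.mem_map]
        refine ⟨⟨v, hv.1⟩, ?_, rfl⟩
        unfold nb
        rw [Finset.mem_filter]
        exact ⟨mem_univ _, c', hc', (hL'mem ⟨v, hv.1⟩ c').2 hcv⟩
      have h3 := Finset.card_le_card h2
      rw [Finset.card_sdiff_of_subset hS0N] at h3
      rw [Finset.card_sdiff_of_subset hBT] at h1
      have h4 : S0.card = S.card := Finset.card_map _
      have h5 : B.card = (nb L' S).card := Finset.card_map _
      have h6 := Finset.card_le_card hBT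
      have h7 := Finset.card_le_card hS0N
      omega
    obtain ⟨f', hf'1, hf'2⟩ := hcore {v // v ∈ T} {c // c ∈ N} mate' hmate' L' k hL' hV' hfix'
      hC' hHall'
    -- the vertices outside `T`
    have hH : ∀ s : Finset {v // v ∉ T}, s.card ≤ (s.biUnion (fun v => L v.1 \ N)).card := by
      intro s
      set A : Finset V := s.map (Function.Embedding.subtype _) with hA
      have hAc : A.card = s.card := Finset.card_map _
      have hdisj : Disjoint T A := by
        rw [Finset.disjoint_right]
        intro v hv
        rw [hA, Finset.mem_map] at hv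
        obtain ⟨w, _, rfl⟩ := hv
        exact w.2
      have h1 := hmax (T ∪ A)
      rw [Finset.card_union_of_disjoint hdisj] at h1
      have h2 : (T ∪ A).biUnion L ⊆ N ∪ s.biUnion (fun v => L v.1 \ N) := by
        intro c hc
        rw [Finset.mem_biUnion] at hc
        obtain ⟨v, hv, hcv⟩ := hc
        rw [Finset.mem_union] at hv ⊢
        by_cases hcN : c ∈ N
        · exact Or.inl hcN
        · right
          rcases hv with hv | hv
          · exact absurd (hLN v hv hcv) hcN
          · rw [hA, Finset.mem_map] at hv
            obtain ⟨w, hw, rfl⟩ := hv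
            rw [Finset.mem_biUnion]
            exact ⟨w, hw, Finset.mem_sdiff.2 ⟨hcv, hcN⟩⟩
      have h3 := (Finset.card_le_card h2).trans (Finset.card_union_le _ _)
      omega
    obtain ⟨g, hg, hgm⟩ :=
      (Finset.all_card_le_biUnion_card_iff_exists_injective (fun v : {v // v ∉ T} => L v.1 \ N)).1
        hH
    refine ⟨fun v => if h : v ∈ T then (f' ⟨v, h⟩).1 else g ⟨v, h⟩, ?_, ?_⟩
    · intro v
      by_cases h : v ∈ T
      · simp only [h, dif_pos]
        exact (hL'mem _ _).1 (hf'1 ⟨v, h⟩)
      · simp only [h, dif_neg, not_false_iff]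
        exact (Finset.mem_sdiff.1 (hgm ⟨v, h⟩)).1
    · intro u v huv hf
      by_cases hu : u ∈ T <;> by_cases hv : v ∈ T
      · simp only [hu, hv, dif_pos] at hf ⊢
        have h1 : f' ⟨u, hu⟩ = f' ⟨v, hv⟩ := Subtype.ext hf
        have h2 : (⟨u, hu⟩ : {v // v ∈ T}) ≠ ⟨v, hv⟩ := fun h => huv (congrArg Subtype.val h)
        obtain ⟨h3, h4⟩ := hf'2 _ _ h2 h1
        constructor
        · by_cases hm : mate u ∈ T
          · rw [hmate'1 ⟨u, hu⟩ hm] at h3
            exact congrArg Subtype.val h3
          · rw [hmate'2 ⟨u, hu⟩ hm] at h3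
            exact absurd h3 h2
        · refine h4.trans ?_
          unfold deg
          rw [← Finset.card_map (Function.Embedding.subtype (fun v => v ∈ T))]
          refine Finset.card_le_card ?_
          intro w hw
          rw [Finset.mem_map] at hw
          obtain ⟨w', hw', rfl⟩ := hw
          rw [Finset.mem_filter] at hw' ⊢
          exact ⟨mem_univ _, (hL'mem _ _).1 hw'.2⟩
      · exfalso
        simp only [hu, hv, dif_pos, dif_neg, not_false_iff] at hf
        have h1 := (Finset.mem_sdiff.1 (hgm ⟨v, hv⟩)).2
        rw [← hf] at h1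
        exact h1 (f' ⟨u, hu⟩).2
      · exfalso
        simp only [hu, hv, dif_pos, dif_neg, not_false_iff] at hf
        have h1 := (Finset.mem_sdiff.1 (hgm ⟨u, hu⟩)).2
        rw [hf] at h1
        exact h1 (f' ⟨v, hv⟩).2
      · exfalso
        simp only [hu, hv, dif_neg, not_false_iff] at hf
        exact huv (congrArg Subtype.val (hg hf))

end Pool.Agent.H.MP_f0eba7_co
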