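import Pool.Agent.H.MP_f0eba7_co.Defs
import Pool.Agent.H.MP_f0eba7_co.Poly
import Pool.Agent.H.MP_f0eba7_co.Double
import Pool.Agent.H.MP_f0eba7_co.Select
import Pool.Agent.H.MP_f0eba7_co.Trunc
import Pool.Agent.H.MP_f0eba7_co.Count
import Pool.Agent.H.MP_f0eba7_co.OddIneq
import Pool.Agent.H.MP_f0eba7_co.ExistsU
import Pool.Agent.H.MP_f0eba7_co.ColOfU
import Pool.Agent.H.MP_f0eba7_co.Upper
import Pool.Agent.H.MP_f0eba7_co.Lower
import Pool.Agent.H.MP_f0eba7_co.Choosable
import Pool.Agent.H.MP_f0eba7_co.NotChoosable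

/-!
Assembly: the core theorem and the general choosability theorem for complete multipartite graphs.
-/

namespace Pool.Agent.H.MP_f0eba7_co

open Finset

variable {V C : Type} [Fintype V] [DecidableEq V] [Fintype C] [DecidableEq C]

theorem mp_dec {z : V → V → ℝ} (hz : MP z) : MDec z := mdec_of_dbl (pm_polytope (dbl_pmp hz))

theorem ymul_symm {mate : V → V} (hmate : ∀ v, mate (mate v) = v) (L : V → Finset C) (k : ℕ)
    (x x' : V ⊕ C) : ymul mate L k x x' = ymul mate L k x' x := by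
  rcases x with u | c <;> rcases x' with v | c'
  · simp only [ymul]
    by_cases h : mate u = v ∧ u ≠ v
    · have h' : mate v = u ∧ v ≠ u := ⟨by rw [← h.1, hmate], fun e => h.2 e.symm⟩
      rw [if_pos h, if_pos h']
      unfold gam
      rw [h.1, h'.1, inter_comm (L u) (L v)]
    · have h' : ¬ (mate v = u ∧ v ≠ u) := by
        rintro ⟨h1, h2⟩
        exact h ⟨by rw [← h1, hmate], fun e => h2 e.symm⟩
      rw [if_neg h, if_neg h']
  · rfl
  · rfl
  · rfl

theorem ymul_diag (mate : V → V) (L : V → Finset C) (k : ℕ) (x : V ⊕ C) :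
    ymul mate L k x x = 0 := by
  rcases x with u | c <;> simp [ymul]

theorem wgt_nonneg (mate : V → V) (L : V → Finset C) (k δ : ℕ) (x x' : V ⊕ C) :
    0 ≤ wgt mate L k δ x x' := by
  rcases x with u | c <;> rcases x' with v | c' <;> simp only [wgt] <;> try exact le_rfl
  split_ifs
  · positivity
  · exact le_rfl

theorem wgt_ymul_le (mate : V → V) (L : V → Finset C)
    (k δ : ℕ) :
    ∑ x : V ⊕ C, ∑ x' : V ⊕ C, wgt mate L k δ x x' * (ymul mate L k x x' : ℝ) ≤
      ((univ.filter (fun v => mate v ≠ v ∧ 1 ≤ gam mate L k v ∧ gam mate L k v < δ)).card : ℝ) := by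
  rw [Fintype.sum_sum_type]
  have h2 : ∑ c : C, ∑ x' : V ⊕ C, wgt mate L k δ (Sum.inr c) x' *
      (ymul mate L k (Sum.inr c) x' : ℝ) = 0 := by
    apply sum_eq_zero
    intro c _
    apply sum_eq_zero
    intro x' _
    simp [wgt]
  rw [h2, add_zero, card_filter]
  push_cast
  apply sum_le_sum
  intro v _
  rw [Fintype.sum_sum_type]
  have h3 : ∑ c : C, wgt mate L k δ (Sum.inl v) (Sum.inr c) *
      (ymul mate L k (Sum.inl v) (Sum.inr c) : ℝ) = 0 := by
    apply sum_eq_zero
    intro c _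
    simp [wgt]
  rw [h3, add_zero, sum_eq_single (mate v)]
  · by_cases hv : mate v ≠ v
    · simp only [wgt, ymul, true_and]
      have hv' : v ≠ mate v := fun e => hv e.symm
      by_cases h1 : gam mate L k v < δ
      · rw [if_pos ⟨hv', h1⟩, if_pos hv']
        by_cases h0 : 1 ≤ gam mate L k v
        · rw [if_pos ⟨hv, h0, h1⟩, div_mul_eq_mul_div, one_mul, div_le_one (by positivity)]
          linarith
        · have : gam mate L k v = 0 := by omega
          rw [this]; simp
      · rw [if_neg (show ¬ (v ≠ mate v ∧ gam mate L k v < δ) from fun h => h1 h.2), zero_mul]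
        split_ifs <;> norm_num
    · simp only [wgt, ymul, true_and]
      rw [if_neg (fun h => hv (fun e => h.1 e.symm))]
      rw [zero_mul]
      split_ifs <;> norm_num
  · intro u _ hu
    simp only [wgt, ymul]
    rw [if_neg (fun h => hu h.1.symm)]
    simp
  · intro h
    exact absurd (mem_univ _) h

theorem exists_tau {mate : V → V} (hmate : ∀ v, mate (mate v) = v) {L : V → Finset C} {k : ℕ}
    (hL : ∀ v, (L v).card = k) (hV : Fintype.card V + 1 ≤ 2 * k)
    (hfix : Fintype.card V + (univ.filter (fun v => mate v = v)).card ≤ 2 * k)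
    (hC : Fintype.card C < Fintype.card V) :
    ∃ τ : V ⊕ C → V ⊕ C, (∀ x, τ (τ x) = x) ∧ (∀ x, τ x ≠ x → 0 < ymul mate L k x (τ x)) ∧
      2 * Fintype.card V ≤
        (univ.filter (fun x => τ x ≠ x)).card + 2 * (big L k).card ∧
      ∑ x ∈ univ.filter (fun x => τ x ≠ x),
        wgt mate L k (Fintype.card V - Fintype.card C) x (τ x) < 2 := by
  have hk : 0 < k := by omega
  have hkR : (0 : ℝ) < k := by exact_mod_cast hk
  set δ := Fintype.card V - Fintype.card C with hδ
  have hβ := big_card hL hV hC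
  rw [← hδ] at hβ
  have hβC : (big L k).card ≤ Fintype.card C := card_le_univ _
  set y : V ⊕ C → V ⊕ C → ℝ := fun x x' => (ymul mate L k x x' : ℝ) / k with hy
  have hy0 : ∀ u v, 0 ≤ y u v := fun u v => by positivity
  obtain ⟨z, hz, hzy, F, hF1, hF2, hF3, hF4⟩ := trunc (y := y) hy0
    (fun u v => by simp only [hy]; rw [ymul_symm hmate])
    (fun u => by simp only [hy]; rw [ymul_diag]; simp)
    (fun u => by
      simp only [hy]
      rw [← sum_div, div_le_one hkR]
      exact_mod_cast ymul_deg hmate hL u)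
  -- the relevant vertices
  set R := univ.filter (fun v => mate v ≠ v ∧ 1 ≤ gam mate L k v ∧ gam mate L k v < δ) with hR
  have hRV : R.card ≤ Fintype.card V := card_le_univ _
  set q : ℝ := (1 + (R.card : ℝ)) / k with hq
  have hq0 : 0 < q := by positivity
  have hq2 : q ≤ 2 := by
    rw [hq, div_le_iff₀ hkR]
    have : R.card + 1 ≤ 2 * k := by omega
    have : ((R.card + 1 : ℕ) : ℝ) ≤ ((2 * k : ℕ) : ℝ) := by exact_mod_cast this
    push_cast at this
    linarith
  set N := Fintype.card V - (big L k).card with hN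
  have hNR : (N : ℝ) = (Fintype.card V : ℝ) - ((big L k).card : ℝ) := by
    rw [hN, Nat.cast_sub (by omega)]
  have hcard : 2 * N + 1 ≤ Fintype.card (V ⊕ C) := by
    rw [Fintype.card_sum]; omega
  -- size
  have hodd := odd_ineq hmate hL hβ F hF1 hF3 (fun W hW => by
    have h := hF2 W hW
    simp only [hy] at h
    simp_rw [← sum_div] at h
    rw [lt_div_iff₀ hkR] at h
    have h' : ((k * W.card : ℕ) : ℝ) < ((∑ x ∈ W, ∑ x' ∈ W, ymul mate L k x x' + k : ℕ) : ℝ) := by
      push_cast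
      linarith
    exact_mod_cast h')
  have hodd' : (∑ W ∈ F, ((k : ℝ) - (k * W.card - ∑ x ∈ W, ∑ x' ∈ W,
      (ymul mate L k x x' : ℝ)))) + (R.card : ℝ) ≤
      Fintype.card V + ∑ v ∈ univ.filter (fun v => mate v ≠ v), (omi mate L k v : ℝ) := by
    exact_mod_cast hodd
  have hsz := size_ineq hmate hL hfix
  have hsz' : 2 * (k : ℝ) * Fintype.card V +
      ∑ v ∈ univ.filter (fun v => mate v ≠ v), (omi mate L k v : ℝ) ≤
      ∑ x : V ⊕ C, ∑ x' : V ⊕ C, (ymul mate L k x x' : ℝ) + 2 * k * (big L k).card := by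
    exact_mod_cast hsz
  have hsumy : ∑ x, ∑ x', y x x' = (∑ x : V ⊕ C, ∑ x' : V ⊕ C, (ymul mate L k x x' : ℝ)) / k := by
    simp only [hy]
    simp_rw [← sum_div]
  have hsumF : ∑ W ∈ F, (∑ u ∈ W, ∑ v ∈ W, y u v - ((W.card : ℝ) - 1)) =
      (∑ W ∈ F, ((k : ℝ) - (k * W.card - ∑ x ∈ W, ∑ x' ∈ W,
      (ymul mate L k x x' : ℝ)))) / k := by
    rw [sum_div]
    apply sum_congr rfl
    intro W _
    simp only [hy]
    simp_rw [← sum_div]
    field_simp
    ring
  have hVR : (Fintype.card V : ℝ) + 1 ≤ 2 * k := by exact_mod_cast hV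
  have hsize : 2 * (N : ℝ) - 2 + q ≤ ∑ u, ∑ v, z u v := by
    rw [hF4, hsumy, hsumF, ← sub_div, le_div_iff₀ hkR, hq, hNR]
    have : (2 * ((Fintype.card V : ℝ) - ((big L k).card : ℝ)) - 2 + (1 + (R.card : ℝ)) / k) * k =
      2 * k * Fintype.card V - 2 * k * (big L k).card - 2 * k + 1 + R.card := by
      field_simp
      ring
    rw [this]
    linarith
  have hweight : ∑ u, ∑ v, wgt mate L k δ u v * z u v < q := by
    have h1 : ∑ u, ∑ v, wgt mate L k δ u v * z u v ≤
        ∑ u, ∑ v, wgt mate L k δ u v * y u v :=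
      sum_le_sum fun u _ => sum_le_sum fun v _ =>
        mul_le_mul_of_nonneg_left (hzy u v) (wgt_nonneg _ _ _ _ _ _)
    have h2 : ∑ u, ∑ v, wgt mate L k δ u v * y u v =
        (∑ x : V ⊕ C, ∑ x' : V ⊕ C, wgt mate L k δ x x' * (ymul mate L k x x' : ℝ)) / k := by
      simp only [hy]
      simp_rw [← mul_div_assoc, ← sum_div]
    have h3 := wgt_ymul_le mate L k δ
    rw [← hR] at h3
    have h4 : (∑ x : V ⊕ C, ∑ x' : V ⊕ C, wgt mate L k δ x x' * (ymul mate L k x x' : ℝ)) / k
        < q := by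
      rw [hq, div_lt_div_iff_of_pos_right hkR]
      linarith
    linarith
  obtain ⟨τ, h1, h2, h3, h4⟩ := select (fun X _ _ x hx => mp_dec hx) hz
    (w := wgt mate L k δ) (wgt_nonneg _ _ _ _) hcard hq0 hq2 hsize hweight
  refine ⟨τ, h1, ?_, ?_, h4⟩
  · intro x hx
    have h5 := h2 x hx
    have h6 := lt_of_lt_of_le h5 (hzy x (τ x))
    simp only [hy] at h6
    by_contra h7
    have h8 : ymul mate L k x (τ x) = 0 := by omega
    rw [h8] at h6
    simp at h6
  · omega

/-- The core theorem. -/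
theorem core {mate : V → V} (hmate : ∀ v, mate (mate v) = v) {L : V → Finset C} {k : ℕ}
    (hL : ∀ v, (L v).card = k) (hV : Fintype.card V + 1 ≤ 2 * k)
    (hfix : Fintype.card V + (univ.filter (fun v => mate v = v)).card ≤ 2 * k)
    (hC : Fintype.card C < Fintype.card V)
    (hHall : ∀ S : Finset C, S.card ≤ (nb L S).card) :
    ∃ f : V → C, (∀ v, f v ∈ L v) ∧
      ∀ u v, u ≠ v → f u = f v → mate u = v ∧ k + 1 ≤ deg L (f v) := by
  obtain ⟨τ, h1, h2, h3, h4⟩ := exists_tau hmate hL hV hfix hC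
  have hδ : Fintype.card V = Fintype.card C + (Fintype.card V - Fintype.card C) := by omega
  obtain ⟨U, u1, u2, _, u4, u5, u6⟩ := exists_U hmate hδ hHall h1 h2 h3 h4
  exact col_of_U hmate hL hV hδ u1 u2 u4 u5 u6

end Pool.Agent.H.MP_f0eba7_co

namespace Pool.Agent.H.MP_f0eba7_co

open Finset

/-- Proportional choosability of `K_{n_1,...,n_t}` for every `k ≥ ∑ ⌈n_i/2⌉` with
`2k > ∑ n_i`. -/
theorem choosable {t : ℕ} (n : Fin t → ℕ) (k : ℕ)
    (h1 : ∑ i, n i + 1 ≤ 2 * k) (h2 : ∑ i, (n i + 1) / 2 ≤ k) : PropChoosable (K n) k :=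
  choosable_of_le (fun _ _ _ _ _ _ hm _ _ hL hV hfix =>
    lower hm (by omega) hL (upper_of (fun _ _ _ _ _ _ _ hm' _ _ hL' hV' hfix' hC' hH' =>
      core hm' hL' hV' hfix' hC' hH') hm hL hV hfix)) n k h1 h2

end Pool.Agent.H.MP_f0eba7_co
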