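import Pool.Agent.H.MP_f0eba7_co.FinalDefs

/-!
Lower bounds for the proportional choice number of complete multipartite graphs.
-/

namespace Pool.Agent.H.MP_f0eba7_co

open Finset

/-- The vertices of the part `i`. -/
private def NotChoosable_part {t : ℕ} (n : Fin t → ℕ) (i : Fin t) :
    Finset (Σ i : Fin t, Fin (n i)) := univ.filter fun v => v.1 = i

private lemma NotChoosable_card_part {t : ℕ} (n : Fin t → ℕ) (i : Fin t) :
    (NotChoosable_part n i).card = n i := by
  have h : NotChoosable_part n i = (univ : Finset (Fin (n i))).map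
      ⟨fun j => (⟨i, j⟩ : Σ i : Fin t, Fin (n i)), fun a b h => by simpa using h⟩ := by
    ext ⟨i', j'⟩
    simp only [NotChoosable_part, mem_filter, mem_univ, true_and, mem_map,
      Function.Embedding.coeFn_mk]
    constructor
    · rintro rfl; exact ⟨j', rfl⟩
    · rintro ⟨j, hj⟩
      exact (congrArg Sigma.fst hj).symm
  rw [h, card_map, card_univ, Fintype.card_fin]

private lemma NotChoosable_same_part {t : ℕ} {n : Fin t → ℕ} {C : Type} [DecidableEq C]
    {L : (Σ i : Fin t, Fin (n i)) → Finset C} {k : ℕ} {f : (Σ i : Fin t, Fin (n i)) → C}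
    (hf : PropColouring (K n) L k f) {u v : Σ i : Fin t, Fin (n i)} (h : f u = f v) :
    u.1 = v.1 := by
  by_contra hne
  exact hf.2.1 u v (by simpa [K] using hne) h

/-- the sum over the parts of the numbers of colours used on the parts -/
private lemma NotChoosable_sum_image {t : ℕ} {n : Fin t → ℕ} {C : Type} [DecidableEq C]
    {f : (Σ i : Fin t, Fin (n i)) → C} (hf : ∀ u v, f u = f v → u.1 = v.1) (S : Finset C)
    (hS : ∀ v, f v ∈ S) : ∑ i, ((NotChoosable_part n i).image f).card ≤ S.card := by
  rw [← card_biUnion]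
  · apply card_le_card
    intro c hc
    obtain ⟨i, _, hc⟩ := mem_biUnion.mp hc
    obtain ⟨v, _, rfl⟩ := mem_image.mp hc
    exact hS v
  · intro i _ j _ hij
    rw [Function.onFun, disjoint_left]
    intro c hc hc'
    obtain ⟨u, hu, rfl⟩ := mem_image.mp hc
    obtain ⟨v, hv, hvu⟩ := mem_image.mp hc'
    simp only [NotChoosable_part, mem_filter, mem_univ, true_and] at hu hv
    exact hij (by rw [← hu, ← hv]; exact (hf v u hvu).symm)

/-- parity of the number of vertices of a part which use colours with classes of two elements -/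
private lemma NotChoosable_even {t : ℕ} {n : Fin t → ℕ} {C : Type} [DecidableEq C]
    {f : (Σ i : Fin t, Fin (n i)) → C} (hf : ∀ u v, f u = f v → u.1 = v.1) (S : Finset C)
    (hS : ∀ c ∈ S, (univ.filter fun v => f v = c).card = 2) (i : Fin t) :
    Even ((NotChoosable_part n i).filter fun v => f v ∈ S).card := by
  rw [card_eq_sum_card_fiberwise (f := f) (t := S) (by
    intro v hv
    exact (mem_filter.mp hv).2)]
  apply Finset.even_sum
  intro c hc
  by_cases h : ∃ v, v.1 = i ∧ f v = c
  · obtain ⟨v, hv, hvc⟩ := h
    have h1 : (((NotChoosable_part n i).filter fun v => f v ∈ S).filter fun v => f v = c) =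
        univ.filter fun v => f v = c := by
      ext w
      simp only [NotChoosable_part, mem_filter, mem_univ, true_and]
      constructor
      · exact fun h => h.2
      · intro h
        refine ⟨⟨?_, by rw [h]; exact hc⟩, h⟩
        rw [← hv]
        exact hf w v (h.trans hvc.symm)
    rw [h1, hS c hc]
    exact even_two
  · have h1 : (((NotChoosable_part n i).filter fun v => f v ∈ S).filter fun v => f v = c) =
        ∅ := by
      rw [filter_eq_empty_iff]
      intro w hw hwc
      simp only [NotChoosable_part, mem_filter, mem_univ, true_and] at hw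
      exact h ⟨w, hw.1, hwc⟩
    rw [h1, card_empty]
    exact Even.zero

private lemma NotChoosable_two_div {k : ℕ} (hk : 1 ≤ k) : (((2 * k : ℕ) : ℚ) / k) = 2 := by
  have : (k : ℚ) ≠ 0 := by exact_mod_cast (by omega : k ≠ 0)
  push_cast
  field_simp

/-- a set of `2 k` vertices meeting some part in an odd number of vertices -/
private lemma NotChoosable_exists_U {t : ℕ} (ht : 2 ≤ t) (n : Fin t → ℕ) (hn : ∀ i, 1 ≤ n i)
    (k : ℕ) (hk : 1 ≤ k) (h : 2 * k < Fintype.card (Σ i : Fin t, Fin (n i))) :
    ∃ U : Finset (Σ i : Fin t, Fin (n i)), U.card = 2 * k ∧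
      ∃ i, ¬ Even ((NotChoosable_part n i).filter fun v => v ∈ U).card := by
  classical
  obtain ⟨U, -, hU⟩ := exists_subset_card_eq (n := 2 * k)
    (s := (univ : Finset (Σ i : Fin t, Fin (n i)))) (by rw [card_univ]; exact h.le)
  by_cases hodd : ∃ i, ¬ Even ((NotChoosable_part n i).filter fun v => v ∈ U).card
  · exact ⟨U, hU, hodd⟩
  push Not at hodd
  -- two vertices in different parts
  obtain ⟨u, v, hu, hv, huv⟩ : ∃ u v : Σ i : Fin t, Fin (n i), u ∈ U ∧ v ∉ U ∧ u.1 ≠ v.1 := by
    by_contra hcon
    push Not at hcon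
    obtain ⟨u₀, hu₀⟩ : U.Nonempty := by
      rw [← card_pos]; omega
    obtain ⟨v₀, hv₀⟩ : ∃ v, v ∉ U := by
      by_contra hall
      push Not at hall
      have : U = univ := eq_univ_of_forall hall
      rw [this, card_univ] at hU
      omega
    have hall : ∀ w : Σ i : Fin t, Fin (n i), w.1 = u₀.1 := by
      intro w
      by_cases hw : w ∈ U
      · rw [hcon w v₀ hw hv₀, hcon u₀ v₀ hu₀ hv₀]
      · exact (hcon u₀ w hu₀ hw).symm
    have h0 := hall ⟨⟨0, by omega⟩, ⟨0, hn _⟩⟩
    have h1 := hall ⟨⟨1, by omega⟩, ⟨0, hn _⟩⟩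
    have := h0.trans h1.symm
    simp at this
  refine ⟨insert v (U.erase u), ?_, u.1, ?_⟩
  · rw [card_insert_of_notMem (fun h1 => hv (mem_of_mem_erase h1)), card_erase_of_mem hu, hU]
    omega
  · have h1 : ((NotChoosable_part n u.1).filter fun w => w ∈ insert v (U.erase u)) =
        ((NotChoosable_part n u.1).filter fun w => w ∈ U).erase u := by
      ext w
      simp only [NotChoosable_part, mem_filter, mem_univ, true_and, mem_insert, mem_erase]
      constructor
      · rintro ⟨h2, rfl | ⟨h3, h4⟩⟩
        · exact absurd h2.symm huv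
        · exact ⟨h3, h2, h4⟩
      · rintro ⟨h2, h3, h4⟩
        exact ⟨h3, Or.inr ⟨h2, h4⟩⟩
    have hmem : u ∈ (NotChoosable_part n u.1).filter fun w => w ∈ U := by
      simp only [NotChoosable_part, mem_filter, mem_univ, true_and]; exact hu
    rw [h1, card_erase_of_mem hmem]
    have h2 := hodd u.1
    have h3 : 0 < ((NotChoosable_part n u.1).filter fun w => w ∈ U).card :=
      card_pos.mpr ⟨u, hmem⟩
    rw [Nat.not_even_iff_odd]
    exact Nat.Even.sub_odd h3 h2 odd_one

/-- I2 -/
theorem not_choosable_of_lt {t : ℕ} (ht : 2 ≤ t) (n : Fin t → ℕ) (hn : ∀ i, 1 ≤ n i) (k : ℕ)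
    (hk : 1 ≤ k) (h : k < ∑ i, (n i + 1) / 2) : ¬ PropChoosable (K n) k := by
  classical
  intro hP
  have hk0 : (0 : ℚ) < k := by exact_mod_cast hk
  rcases le_or_gt (Fintype.card (Σ i : Fin t, Fin (n i))) (2 * k) with hN | hN
  · -- constant lists
    obtain ⟨f, hf⟩ := hP ℕ (fun _ => range k) (fun _ => card_range k)
    have hsame : ∀ u v, f u = f v → u.1 = v.1 := fun u v => NotChoosable_same_part hf
    have h1 := NotChoosable_sum_image (n := n) hsame (range k) hf.1
    rw [card_range] at h1
    have h2 : ∀ i, (n i + 1) / 2 ≤ ((NotChoosable_part n i).image f).card := by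
      intro i
      have h3 : (NotChoosable_part n i).card ≤ 2 * ((NotChoosable_part n i).image f).card := by
        apply card_le_mul_card_image
        intro c hc
        obtain ⟨v, _, rfl⟩ := mem_image.mp hc
        have h4 : (univ.filter fun w => f w = f v).card ≤ 2 := by
          have hle : ((univ.filter fun w : Σ i : Fin t, Fin (n i) =>
              f v ∈ range k).card : ℚ) / k ≤ 2 := by
            rw [div_le_iff₀ hk0]
            have : (univ.filter fun w : Σ i : Fin t, Fin (n i) => f v ∈ range k).card ≤
                2 * k := (card_filter_le _ _).trans (by rw [card_univ]; exact hN)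
            exact_mod_cast this
          have hc2 : ⌈((univ.filter fun w : Σ i : Fin t, Fin (n i) =>
              f v ∈ range k).card : ℚ) / k⌉ ≤ 2 := Int.ceil_le.mpr (by exact_mod_cast hle)
          rcases hf.2.2 (f v) ⟨v, hf.1 v⟩ with h5 | h5
          · have := (Int.floor_le_ceil (((univ.filter fun w : Σ i : Fin t, Fin (n i) =>
              f v ∈ range k).card : ℚ) / k)).trans hc2
            rw [← h5] at this
            exact_mod_cast this
          · rw [← h5] at hc2
            exact_mod_cast hc2
        refine (card_le_card ?_).trans h4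
        exact filter_subset_filter _ (subset_univ _)
      rw [NotChoosable_card_part] at h3
      omega
    have h3 := sum_le_sum fun i (_ : i ∈ univ) => h2 i
    omega
  · -- private lists outside a set of `2 k` vertices
    obtain ⟨U, hU, i, hi⟩ := NotChoosable_exists_U ht n hn k hk hN
    set g : (Σ i : Fin t, Fin (n i)) → Option (Σ i : Fin t, Fin (n i)) :=
      fun v => if v ∈ U then none else some v with hg
    obtain ⟨f, hf⟩ := hP (Option (Σ i : Fin t, Fin (n i)) × ℕ) (fun v => {g v} ×ˢ range k)
      (fun v => by rw [card_product, card_singleton, card_range, one_mul])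
    have hsame : ∀ u v, f u = f v → u.1 = v.1 := fun u v => NotChoosable_same_part hf
    set S : Finset (Option (Σ i : Fin t, Fin (n i)) × ℕ) := {none} ×ˢ range k with hS
    have hfU : ∀ v, f v ∈ S ↔ v ∈ U := by
      intro v
      have h1 := hf.1 v
      rw [mem_product, mem_singleton, mem_range] at h1
      rw [hS, mem_product, mem_singleton, mem_range, h1.1]
      constructor
      · rintro ⟨h2, _⟩
        by_contra hv
        simp only [hg, if_neg hv] at h2
        exact absurd h2 (by simp)
      · intro hv
        exact ⟨by simp only [hg, if_pos hv], h1.2⟩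
    have hcls : ∀ c ∈ S, (univ.filter fun v => f v = c).card = 2 := by
      intro c hc
      rw [hS, mem_product, mem_singleton, mem_range] at hc
      have h1 : (univ.filter fun v => c ∈ ({g v} ×ˢ range k : Finset _)) = U := by
        ext v
        simp only [mem_filter, mem_univ, true_and, mem_product, mem_singleton, mem_range]
        rw [hc.1]
        constructor
        · rintro ⟨h2, _⟩
          by_contra hv
          simp only [hg, if_neg hv] at h2
          exact absurd h2 (by simp)
        · intro hv
          exact ⟨by simp only [hg, if_pos hv], hc.2⟩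
      have h2 : (∃ v, c ∈ ({g v} ×ˢ range k : Finset _)) := by
        obtain ⟨v, hv⟩ : U.Nonempty := by rw [← card_pos]; omega
        exact ⟨v, by rw [← h1, mem_filter] at hv; exact hv.2⟩
      have h3 := hf.2.2 c h2
      simp only [h1, hU] at h3
      rw [NotChoosable_two_div hk] at h3
      simp only [Int.floor_ofNat, Int.ceil_ofNat, or_self] at h3
      exact_mod_cast h3
    have h1 := NotChoosable_even hsame S hcls i
    apply hi
    have h2 : ((NotChoosable_part n i).filter fun v => v ∈ U) =
        (NotChoosable_part n i).filter fun v => f v ∈ S :=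
      filter_congr fun v _ => (hfU v).symm
    rw [h2]
    exact h1

/-- I3 -/
theorem not_choosable_H {t : ℕ} (ht : 2 ≤ t) (n : Fin t → ℕ) (hn : ∀ i, 1 ≤ n i)
    (heven : ∀ i, Even (n i)) (hmax : ∀ i, 2 * n i ≤ ∑ j, n j) :
    ¬ PropChoosable (K n) ((∑ i, n i) / 2) := by
  classical
  intro hP
  have hcardV : Fintype.card (Σ i : Fin t, Fin (n i)) = ∑ i, n i := by
    rw [Fintype.card_sigma]; simp
  obtain ⟨s, hs⟩ : Even (∑ i, n i) := Finset.even_sum _ fun i _ => heven i
  have hs1 : 1 ≤ s := by
    have h1 := hmax ⟨0, by omega⟩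
    have h2 := hn ⟨0, by omega⟩
    omega
  have hs2 : (∑ i, n i) / 2 = s := by omega
  rw [hs2] at hP
  have hs0 : (0 : ℚ) < s := by exact_mod_cast hs1
  obtain ⟨f, hf⟩ := hP (ℕ ⊕ Fin t) (fun v => (range (s - 1)).disjSum {v.1})
    (fun v => by rw [card_disjSum, card_range, card_singleton]; omega)
  have hsame : ∀ u v, f u = f v → u.1 = v.1 := fun u v => NotChoosable_same_part hf
  set S : Finset (ℕ ⊕ Fin t) := (range (s - 1)).disjSum ∅ with hS
  have hcls : ∀ c ∈ S, (univ.filter fun v => f v = c).card = 2 := by
    intro c hc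
    rw [hS, mem_disjSum] at hc
    rcases hc with ⟨b, hb, rfl⟩ | ⟨b, hb, _⟩
    swap
    · exact absurd hb (notMem_empty b)
    have h1 : (univ.filter fun v : Σ i : Fin t, Fin (n i) =>
        (Sum.inl b : ℕ ⊕ Fin t) ∈ (range (s - 1)).disjSum {v.1}) = univ := by
      rw [filter_eq_self]
      intro v _
      exact inl_mem_disjSum.mpr hb
    have h2 : ∃ v : Σ i : Fin t, Fin (n i),
        (Sum.inl b : ℕ ⊕ Fin t) ∈ (range (s - 1)).disjSum {v.1} :=
      ⟨⟨⟨0, by omega⟩, ⟨0, hn _⟩⟩, inl_mem_disjSum.mpr hb⟩
    have h3 := hf.2.2 _ h2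
    simp only [h1, card_univ, hcardV, hs] at h3
    rw [← two_mul, NotChoosable_two_div hs1] at h3
    simp only [Int.floor_ofNat, Int.ceil_ofNat, or_self] at h3
    exact_mod_cast h3
  -- the private colours are not used
  have hpriv : ∀ v, f v ∈ S := by
    intro v
    by_contra hv
    have h1 := hf.1 v
    rw [mem_disjSum] at h1
    have hfv : f v = Sum.inr v.1 := by
      rcases h1 with ⟨b, hb, hb'⟩ | ⟨b, hb, hb'⟩
      · exact absurd (by rw [hS, mem_disjSum]; exact Or.inl ⟨b, hb, hb'⟩) hv
      · rw [← hb', mem_singleton.mp hb]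
    set i := v.1 with hi
    -- the class of the private colour
    have h2 : (univ.filter fun w => f w = Sum.inr i).card ≤ 1 := by
      have h3 : (univ.filter fun w : Σ i : Fin t, Fin (n i) =>
          (Sum.inr i : ℕ ⊕ Fin t) ∈ (range (s - 1)).disjSum {w.1}) = NotChoosable_part n i := by
        ext w
        simp only [NotChoosable_part, mem_filter, mem_univ, true_and, inr_mem_disjSum,
          mem_singleton]
        exact eq_comm
      have h4 := hf.2.2 (Sum.inr i) ⟨v, by rw [inr_mem_disjSum, mem_singleton]⟩
      simp only [h3, NotChoosable_card_part] at h4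
      have h5 : ⌈(n i : ℚ) / s⌉ ≤ 1 := by
        rw [Int.ceil_le, div_le_iff₀ hs0]
        have h6 : n i ≤ s := by have := hmax i; omega
        push_cast
        rw [one_mul]
        exact_mod_cast h6
      rcases h4 with h4 | h4
      · have := (Int.floor_le_ceil ((n i : ℚ) / s)).trans h5
        rw [← h4] at this
        exact_mod_cast this
      · rw [← h4] at h5
        exact_mod_cast h5
    have h3 : 1 ≤ (univ.filter fun w => f w = Sum.inr i).card :=
      card_pos.mpr ⟨v, by rw [mem_filter]; exact ⟨mem_univ _, hfv⟩⟩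
    have h4 := NotChoosable_even hsame S hcls i
    have h5 := card_filter_add_card_filter_not (s := NotChoosable_part n i) (fun w => f w ∈ S)
    have h6 : ((NotChoosable_part n i).filter fun w => ¬ f w ∈ S) =
        univ.filter fun w => f w = Sum.inr i := by
      ext w
      simp only [NotChoosable_part, mem_filter, mem_univ, true_and]
      constructor
      · rintro ⟨h7, h8⟩
        have h9 := hf.1 w
        rw [mem_disjSum] at h9
        rcases h9 with ⟨b, hb, hb'⟩ | ⟨b, hb, hb'⟩
        · exact absurd (by rw [hS, mem_disjSum]; exact Or.inl ⟨b, hb, hb'⟩) h8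
        · rw [← hb', mem_singleton.mp hb, h7]
      · intro h7
        refine ⟨hsame w v (h7.trans hfv.symm), ?_⟩
        rw [h7, ← hfv]; exact hv
    rw [h6, NotChoosable_card_part] at h5
    have h7 := heven i
    rw [← h5] at h7
    have h8 : (univ.filter fun w => f w = Sum.inr i).card = 1 := by omega
    rw [h8] at h7
    obtain ⟨a, ha⟩ := h4
    obtain ⟨b, hb⟩ := h7
    omega
  have h1 := card_eq_sum_card_fiberwise (f := f) (s := univ) (t := S) (fun v _ => hpriv v)
  rw [sum_congr rfl hcls, sum_const, card_univ, hcardV, hs, hS, card_disjSum, card_range,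
    card_empty, smul_eq_mul] at h1
  omega

end Pool.Agent.H.MP_f0eba7_co
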