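import Pool.Agent.H.MP_f0eba7_co.Defs

/-!
Contraction and gluing for the perfect matching polytope (MP_f0eba7_co).
-/

namespace Pool.Agent.H.MP_f0eba7_co

open Finset

variable {V C : Type} [Fintype V] [DecidableEq V] [Fintype C] [DecidableEq C]

namespace PolyGlue

/-- With all degrees one, a cut is the number of vertices minus twice the inner weight. -/
theorem cut_eq {W : Type} [Fintype W] [DecidableEq W] {x : W → W → ℝ}
    (hd : ∀ u, ∑ v, x u v = 1) (S : Finset W) :
    ∑ u ∈ S, ∑ v ∈ Sᶜ, x u v = (S.card : ℝ) - ∑ u ∈ S, ∑ v ∈ S, x u v := by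
  have h : ∀ u, ∑ v ∈ Sᶜ, x u v = 1 - ∑ v ∈ S, x u v := by
    intro u
    have := Finset.sum_add_sum_compl S (fun v => x u v)
    have h2 := hd u
    linarith
  simp only [h, Finset.sum_sub_distrib, Finset.sum_const, nsmul_eq_mul, mul_one]

omit [Fintype V] [DecidableEq V] in
theorem sum_subtype_mem (U : Finset V) (g : V → ℝ) :
    ∑ b : {v // v ∈ U}, g b.1 = ∑ v ∈ U, g v := by
  rw [← Finset.sum_coe_sort U g]

theorem contr_deg {x : V → V → ℝ} (hx : PMP x) {U : Finset V}
    (ht : ∑ u ∈ U, ∑ v ∈ Uᶜ, x u v = 1) (a : Option {v // v ∈ U}) :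
    ∑ b, contr x U a b = 1 := by
  rw [Fintype.sum_option]
  cases a with
  | none =>
    simp only [contr, zero_add]
    rw [sum_subtype_mem U (fun u => ∑ v ∈ Uᶜ, x u v)]
    exact ht
  | some a =>
    simp only [contr]
    rw [sum_subtype_mem U (fun v => x a.1 v), add_comm, Finset.sum_add_sum_compl]
    exact hx.deg _

theorem contr_symm {x : V → V → ℝ} (hx : PMP x) {U : Finset V} (a b : Option {v // v ∈ U}) :
    contr x U a b = contr x U b a := by
  cases a <;> cases b <;> simp [contr, hx.symm]

theorem odd_aux {x : V → V → ℝ} (hx : PMP x) {U : Finset V}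
    (ht : ∑ u ∈ U, ∑ v ∈ Uᶜ, x u v = 1) (S : Finset (Option {v // v ∈ U}))
    (hn : none ∉ S) (hS : Odd S.card) :
    1 ≤ ∑ a ∈ S, ∑ b ∈ Sᶜ, contr x U a b := by
  have hS' : S = (Finset.eraseNone S).map Function.Embedding.some := by
    rw [Finset.map_some_eraseNone, Finset.erase_eq_of_notMem hn]
  set T' := Finset.eraseNone S with hT'
  set T := T'.map (Function.Embedding.subtype (fun v => v ∈ U)) with hT
  have hcard : S.card = T.card := by
    rw [hS', Finset.card_map, hT, Finset.card_map]
  rw [cut_eq (contr_deg hx ht) S]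
  have h1 := hx.odd T (hcard ▸ hS)
  rw [cut_eq hx.deg T] at h1
  have h2 : ∑ a ∈ S, ∑ b ∈ S, contr x U a b = ∑ u ∈ T, ∑ v ∈ T, x u v := by
    rw [hS', hT]
    simp only [Finset.sum_map]
    rfl
  rw [h2, hcard]
  exact h1

end PolyGlue

open PolyGlue in
/-- A1 -/
theorem contr_pmp {x : V → V → ℝ} (hx : PMP x) {U : Finset V} (hU : Odd U.card)
    (ht : ∑ u ∈ U, ∑ v ∈ Uᶜ, x u v = 1) : PMP (contr x U) := by
  refine ⟨?_, contr_symm hx, ?_, contr_deg hx ht, ?_⟩
  · intro a b
    cases a <;> cases b <;> simp only [contr, le_refl]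
    · exact Finset.sum_nonneg fun v _ => hx.nonneg _ _
    · exact Finset.sum_nonneg fun v _ => hx.nonneg _ _
    · exact hx.nonneg _ _
  · intro a
    cases a <;> simp [contr, hx.diag]
  · intro S hS
    by_cases hn : none ∈ S
    · have hc : Odd (Sᶜ).card := by
        have h1 : S.card + (Sᶜ).card = U.card + 1 := by
          rw [Finset.card_add_card_compl, Fintype.card_option, Fintype.card_coe]
        have h2 : Even (S.card + (Sᶜ).card) := by
          rw [h1]; exact hU.add_one
        rw [Nat.even_add] at h2
        rw [← Nat.not_even_iff_odd]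
        intro h3
        exact (Nat.not_even_iff_odd.2 hS) (h2.2 h3)
      have h3 := odd_aux hx ht Sᶜ (by simpa using hn) hc
      rw [compl_compl] at h3
      rw [Finset.sum_comm]
      simpa only [contr_symm hx] using h3
    · exact odd_aux hx ht S hn hS

namespace PolyGlue

/-- The element matched with `none`. -/
theorem exists_none {P : Type} {s : Option P → Option P} (hs : IsPM s) :
    ∃ p, s none = some p := by
  cases h : s none with
  | none => exact absurd h (hs.2 none)
  | some p => exact ⟨p, rfl⟩

/-- Reindexing a weighted sum over matchings by the mate of `none`. -/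
theorem sum_reindex {P ι : Type} [Fintype P] [DecidableEq P] [Fintype ι] (lam : ι → ℝ)
    (s : ι → Option P → Option P) (w : ι → P) (hw : ∀ i, s i none = some (w i))
    (Y : P → ℝ) (hY : ∀ p, ∑ i, (if s i none = some p then lam i else 0) = Y p) (g : P → ℝ) :
    ∑ i, lam i * g (w i) = ∑ p, Y p * g p := by
  have h1 : ∀ i, lam i * g (w i) = ∑ p, (if s i none = some p then lam i else 0) * g p := by
    intro i
    rw [Finset.sum_eq_single (w i)]
    · rw [if_pos (hw i)]
    · intro p _ hp
      rw [if_neg, zero_mul]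
      rw [hw i]
      intro h
      exact hp (Option.some.inj h).symm
    · intro h; exact absurd (Finset.mem_univ _) h
  simp only [h1]
  rw [Finset.sum_comm]
  refine Finset.sum_congr rfl fun p _ => ?_
  rw [← Finset.sum_mul, hY]

/-- The glued matching. -/
def gl {P Q : Type} (s : Option P → Option P) (t : Option Q → Option Q) (p : P) (q : Q) :
    P ⊕ Q → P ⊕ Q
  | Sum.inl a => match s (some a) with
    | some b => Sum.inl b
    | none => Sum.inr q
  | Sum.inr a => match t (some a) with
    | some b => Sum.inr b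
    | none => Sum.inl p

theorem gl_inl_some {P Q : Type} {s : Option P → Option P} {t : Option Q → Option Q} {p : P}
    {q : Q} {a b : P} (h : s (some a) = some b) : gl s t p q (Sum.inl a) = Sum.inl b := by
  simp [gl, h]

theorem gl_inl_none {P Q : Type} {s : Option P → Option P} {t : Option Q → Option Q} {p : P}
    {q : Q} {a : P} (h : s (some a) = none) : gl s t p q (Sum.inl a) = Sum.inr q := by
  simp [gl, h]

theorem gl_inr_some {P Q : Type} {s : Option P → Option P} {t : Option Q → Option Q} {p : P}
    {q : Q} {a b : Q} (h : t (some a) = some b) : gl s t p q (Sum.inr a) = Sum.inr b := by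
  simp [gl, h]

theorem gl_inr_none {P Q : Type} {s : Option P → Option P} {t : Option Q → Option Q} {p : P}
    {q : Q} {a : Q} (h : t (some a) = none) : gl s t p q (Sum.inr a) = Sum.inl p := by
  simp [gl, h]

theorem none_iff {P : Type} {s : Option P → Option P} (hs : IsPM s) {p : P}
    (hp : s none = some p) (a : P) : s (some a) = none ↔ p = a := by
  constructor
  · intro h
    have := hs.1 (some a)
    rw [h, hp] at this
    exact Option.some.inj this
  · rintro rfl
    rw [← hp, hs.1]

theorem gl_isPM {P Q : Type} {s : Option P → Option P} {t : Option Q → Option Q}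
    (hs : IsPM s) (ht : IsPM t) {p : P} {q : Q} (hp : s none = some p) (hq : t none = some q) :
    IsPM (gl s t p q) := by
  constructor
  · rintro (a | a)
    · cases h : s (some a) with
      | some b =>
        rw [gl_inl_some h, gl_inl_some (a := b) (b := a) (by rw [← h, hs.1])]
      | none =>
        rw [gl_inl_none h, gl_inr_none ((none_iff ht hq q).2 rfl), (none_iff hs hp a).1 h]
    · cases h : t (some a) with
      | some b =>
        rw [gl_inr_some h, gl_inr_some (a := b) (b := a) (by rw [← h, ht.1])]
      | none =>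
        rw [gl_inr_none h, gl_inl_none ((none_iff hs hp p).2 rfl), (none_iff ht hq a).1 h]
  · rintro (a | a)
    · cases h : s (some a) with
      | some b =>
        rw [gl_inl_some h]
        intro h2
        exact hs.2 (some a) (h.trans (congrArg some (Sum.inl.inj h2)))
      | none => rw [gl_inl_none h]; simp
    · cases h : t (some a) with
      | some b =>
        rw [gl_inr_some h]
        intro h2
        exact ht.2 (some a) (h.trans (congrArg some (Sum.inr.inj h2)))
      | none => rw [gl_inr_none h]; simp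

theorem gl_eq_inl_inl {P Q : Type} {s : Option P → Option P} {t : Option Q → Option Q} {p : P}
    {q : Q} (a b : P) : gl s t p q (Sum.inl a) = Sum.inl b ↔ s (some a) = some b := by
  cases h : s (some a) with
  | some c => rw [gl_inl_some h]; simp
  | none => rw [gl_inl_none h]; simp

theorem gl_eq_inr_inr {P Q : Type} {s : Option P → Option P} {t : Option Q → Option Q} {p : P}
    {q : Q} (a b : Q) : gl s t p q (Sum.inr a) = Sum.inr b ↔ t (some a) = some b := by
  cases h : t (some a) with
  | some c => rw [gl_inr_some h]; simp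
  | none => rw [gl_inr_none h]; simp

theorem gl_eq_inl_inr {P Q : Type} {s : Option P → Option P} {t : Option Q → Option Q} {p : P}
    {q : Q} (a : P) (b : Q) :
    gl s t p q (Sum.inl a) = Sum.inr b ↔ s (some a) = none ∧ q = b := by
  cases h : s (some a) with
  | some c => rw [gl_inl_some h]; simp
  | none => rw [gl_inl_none h]; simp

theorem gl_eq_inr_inl {P Q : Type} {s : Option P → Option P} {t : Option Q → Option Q} {p : P}
    {q : Q} (a : Q) (b : P) :
    gl s t p q (Sum.inr a) = Sum.inl b ↔ t (some a) = none ∧ p = b := by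
  cases h : t (some a) with
  | some c => rw [gl_inr_some h]; simp
  | none => rw [gl_inr_none h]; simp

/-- Inner entries on one side. -/
theorem inner_sum {P Q ι κ : Type} [Fintype P] [Fintype Q] [DecidableEq P] [DecidableEq Q]
    [Fintype ι] [Fintype κ]
    {lam : ι → ℝ} {s : ι → Option P → Option P} {w : ι → P}
    (hw : ∀ i, s i none = some (w i)) (h0 : ∀ i, 0 ≤ lam i)
    {mu : κ → ℝ} {t : κ → Option Q → Option Q} {z : κ → Q}
    (hz : ∀ j, t j none = some (z j))
    {Y : P → ℝ} (hY : ∀ p, ∑ i, (if s i none = some p then lam i else 0) = Y p)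
    {X : Q → ℝ} (hX : ∀ q, ∑ j, (if t j none = some q then mu j else 0) = X q)
    {g : P → Q → ℝ} (hg : ∀ p, ∑ q, g p q = Y p)
    (hg0 : ∀ p q, X q = 0 → g p q = 0) (c : ι → ℝ) (hc : ∀ i, c i = lam i ∨ c i = 0) :
    ∑ i, ∑ j, (c i * mu j * (g (w i) (z j) / (Y (w i) * X (z j)))) = ∑ i, c i := by
  refine Finset.sum_congr rfl fun i _ => ?_
  have h1 : ∑ j, c i * mu j * (g (w i) (z j) / (Y (w i) * X (z j))) =
      c i * ∑ j, mu j * (g (w i) (z j) / (Y (w i) * X (z j))) := by
    rw [Finset.mul_sum]
    exact Finset.sum_congr rfl fun j _ => by ring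
  rw [h1, sum_reindex mu t z hz X hX (fun q => g (w i) q / (Y (w i) * X q))]
  have h2 : ∀ q, X q * (g (w i) q / (Y (w i) * X q)) = g (w i) q / Y (w i) := by
    intro q
    by_cases hq : X q = 0
    · rw [hq, hg0 _ _ hq]; simp
    · field_simp
  simp only [h2]
  rw [← Finset.sum_div, hg]
  by_cases hYi : Y (w i) = 0
  · have h3 : lam i = 0 := by
      have h4 := hY (w i)
      rw [hYi] at h4
      have h5 := (Finset.sum_eq_zero_iff_of_nonneg (fun i _ => by
        split_ifs
        · exact h0 i
        · exact le_refl _)).1 h4 i (Finset.mem_univ i)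
      rw [if_pos (hw i)] at h5
      exact h5
    rcases hc i with h | h
    · rw [h, h3]; simp
    · rw [h]; simp
  · rw [div_self hYi, mul_one]

/-- Gluing on a sum type. -/
theorem glue_sum {P Q ι κ : Type} [Fintype P] [Fintype Q] [DecidableEq P] [DecidableEq Q]
    [Fintype ι] [Fintype κ]
    {x : P ⊕ Q → P ⊕ Q → ℝ} (hx0 : ∀ u v, 0 ≤ x u v) (hxs : ∀ u v, x u v = x v u)
    (htot : ∑ p, ∑ q, x (Sum.inl p) (Sum.inr q) = 1)
    {lam : ι → ℝ} {s : ι → Option P → Option P} (h0 : ∀ i, 0 ≤ lam i) (hs : ∀ i, IsPM (s i))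
    (hY : ∀ p, ∑ i, (if s i none = some p then lam i else 0) =
      ∑ q, x (Sum.inl p) (Sum.inr q))
    (hP : ∀ p p', ∑ i, (if s i (some p) = some p' then lam i else 0) =
      x (Sum.inl p) (Sum.inl p'))
    {mu : κ → ℝ} {t : κ → Option Q → Option Q} (k0 : ∀ j, 0 ≤ mu j) (ht : ∀ j, IsPM (t j))
    (hX : ∀ q, ∑ j, (if t j none = some q then mu j else 0) =
      ∑ p, x (Sum.inl p) (Sum.inr q))
    (hQ : ∀ q q', ∑ j, (if t j (some q) = some q' then mu j else 0) =
      x (Sum.inr q) (Sum.inr q')) :
    Dec x := by
  classical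
  choose w hw using fun i => exists_none (hs i)
  choose z hz using fun j => exists_none (ht j)
  set Y : P → ℝ := fun p => ∑ q, x (Sum.inl p) (Sum.inr q) with hYdef
  set X : Q → ℝ := fun q => ∑ p, x (Sum.inl p) (Sum.inr q) with hXdef
  have hY0 : ∀ p q, Y p = 0 → x (Sum.inl p) (Sum.inr q) = 0 := fun p q h =>
    (Finset.sum_eq_zero_iff_of_nonneg (fun q _ => hx0 _ _)).1 h q (Finset.mem_univ q)
  have hX0 : ∀ p q, X q = 0 → x (Sum.inl p) (Sum.inr q) = 0 := fun p q h =>
    (Finset.sum_eq_zero_iff_of_nonneg (fun p _ => hx0 _ _)).1 h p (Finset.mem_univ p)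
  set g : P → Q → ℝ := fun p q => x (Sum.inl p) (Sum.inr q) / (Y p * X q) with hgdef
  have hkey : ∀ p q, Y p * (X q * g p q) = x (Sum.inl p) (Sum.inr q) := by
    intro p q
    by_cases h1 : Y p = 0
    · rw [h1, hY0 p q h1]; simp
    by_cases h2 : X q = 0
    · rw [h2, hX0 p q h2]; simp
    · simp only [hgdef]
      field_simp
  -- a general double sum
  have hdouble : ∀ G : P → Q → ℝ,
      ∑ i, ∑ j, lam i * mu j * G (w i) (z j) = ∑ p, ∑ q, Y p * (X q * G p q) := by
    intro G
    have h1 : ∀ i, ∑ j, lam i * mu j * G (w i) (z j) = lam i * ∑ q, X q * G (w i) q := by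
      intro i
      rw [← sum_reindex mu t z hz X hX (fun q => G (w i) q), Finset.mul_sum]
      exact Finset.sum_congr rfl fun j _ => by ring
    simp only [h1]
    rw [sum_reindex lam s w hw Y hY (fun p => ∑ q, X q * G p q)]
    exact Finset.sum_congr rfl fun p _ => by rw [Finset.mul_sum]
  refine ⟨ι × κ, inferInstance, fun ij => lam ij.1 * mu ij.2 * g (w ij.1) (z ij.2),
    fun ij => gl (s ij.1) (t ij.2) (w ij.1) (z ij.2), ?_, ?_, ?_, ?_⟩
  · rintro ⟨i, j⟩
    have : 0 ≤ g (w i) (z j) := by
      simp only [hgdef]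
      exact div_nonneg (hx0 _ _) (mul_nonneg (Finset.sum_nonneg fun _ _ => hx0 _ _)
        (Finset.sum_nonneg fun _ _ => hx0 _ _))
    exact mul_nonneg (mul_nonneg (h0 i) (k0 j)) this
  · rintro ⟨i, j⟩
    exact gl_isPM (hs i) (ht j) (hw i) (hz j)
  · rw [Fintype.sum_prod_type]
    simp only
    rw [hdouble g]
    simp only [hkey]
    exact htot
  · intro a b
    rw [Fintype.sum_prod_type]
    have hcross : ∀ p q, ∑ i, ∑ j, (if p = w i ∧ q = z j then
        lam i * mu j * g (w i) (z j) else 0) = x (Sum.inl p) (Sum.inr q) := by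
      intro p q
      have h1 := hdouble (fun p' q' => if p = p' ∧ q = q' then g p' q' else 0)
      rw [← hkey p q]
      rw [Finset.sum_eq_single p, Finset.sum_eq_single q] at h1
      · simp only [and_self, if_true] at h1
        rw [← h1]
        refine Finset.sum_congr rfl fun i _ => Finset.sum_congr rfl fun j _ => ?_
        split_ifs <;> simp
      · intro q' _ hq'
        rw [if_neg (fun h => hq' h.2.symm)]; simp
      · intro h; exact absurd (Finset.mem_univ _) h
      · intro p' _ hp'
        refine Finset.sum_eq_zero fun q' _ => ?_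
        rw [if_neg (fun h => hp' h.1.symm)]; simp
      · intro h; exact absurd (Finset.mem_univ _) h
    rcases a with a | a <;> rcases b with b | b
    · -- inside P
      simp only [gl_eq_inl_inl]
      rw [← hP a b]
      have h1 : ∑ i, ∑ j, ((if s i (some a) = some b then lam i else 0) * mu j *
          g (w i) (z j)) = ∑ i, (if s i (some a) = some b then lam i else 0) :=
        inner_sum (lam := lam) (mu := mu) (c := fun i =>
        if s i (some a) = some b then lam i else 0) hw h0 hz hY hX
        (g := fun p q => x (Sum.inl p) (Sum.inr q)) (fun p => rfl) hX0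
        (fun i => by
          by_cases hh : s i (some a) = some b
          · left; exact if_pos hh
          · right; exact if_neg hh)
      rw [← h1]
      refine Finset.sum_congr rfl fun i _ => Finset.sum_congr rfl fun j _ => ?_
      split_ifs
      · rfl
      · simp
    · -- P to Q
      simp only [gl_eq_inl_inr]
      rw [← hcross a b]
      refine Finset.sum_congr rfl fun i _ => Finset.sum_congr rfl fun j _ => ?_
      simp only [none_iff (hs i) (hw i), eq_comm (a := w i), eq_comm (a := z j)]
    · -- Q to P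
      simp only [gl_eq_inr_inl]
      rw [hxs, ← hcross b a]
      refine Finset.sum_congr rfl fun i _ => Finset.sum_congr rfl fun j _ => ?_
      simp only [none_iff (ht j) (hz j), eq_comm (a := w i), eq_comm (a := z j), and_comm]
    · -- inside Q
      simp only [gl_eq_inr_inr]
      rw [← hQ a b]
      have h1 : ∑ j, ∑ i, ((if t j (some a) = some b then mu j else 0) * lam i *
          (x (Sum.inl (w i)) (Sum.inr (z j)) / (X (z j) * Y (w i)))) =
          ∑ j, (if t j (some a) = some b then mu j else 0) :=
        inner_sum (lam := mu) (mu := lam) (c := fun j =>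
        if t j (some a) = some b then mu j else 0) hz k0 hw hX hY
        (g := fun q p => x (Sum.inl p) (Sum.inr q)) (fun q => rfl) (fun q p h => hY0 p q h)
        (fun j => by
          by_cases hh : t j (some a) = some b
          · left; exact if_pos hh
          · right; exact if_neg hh)
      rw [← h1, Finset.sum_comm]
      refine Finset.sum_congr rfl fun i _ => Finset.sum_congr rfl fun j _ => ?_
      split_ifs
      · change lam _ * mu _ * (x _ _ / (Y _ * X _)) = _
        rw [mul_comm (Y _) (X _), mul_comm (lam _) (mu _)]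
      · simp

end PolyGlue

open PolyGlue in
/-- A2 -/
theorem glue {x : V → V → ℝ} (hx : PMP x) {U : Finset V} (hU : Odd U.card)
    (hUc : Odd Uᶜ.card) (ht : ∑ u ∈ U, ∑ v ∈ Uᶜ, x u v = 1)
    (h1 : Dec (contr x U)) (h2 : Dec (contr x Uᶜ)) : Dec x := by
  obtain ⟨ι, hι, lam, s, h0, hs, -, hl⟩ := h1
  obtain ⟨κ, hκ, mu, t, k0, ht', -, hm⟩ := h2
  let e : V ≃ {v // v ∈ U} ⊕ {v // v ∈ Uᶜ} :=
    { toFun := fun v => if h : v ∈ U then Sum.inl ⟨v, h⟩ else Sum.inr ⟨v, Finset.mem_compl.2 h⟩
      invFun := Sum.elim (fun v => v.1) (fun v => v.1)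
      left_inv := by
        intro v
        by_cases h : v ∈ U <;> simp [h]
      right_inv := by
        rintro (v | v)
        · simp [v.2]
        · have := Finset.mem_compl.1 v.2
          simp [this] }
  have heL : ∀ v : {v // v ∈ U}, e.symm (Sum.inl v) = v.1 := fun v => rfl
  have heR : ∀ v : {v // v ∈ Uᶜ}, e.symm (Sum.inr v) = v.1 := fun v => rfl
  have key : Dec (fun a b => x (e.symm a) (e.symm b)) := by
    refine glue_sum (lam := lam) (s := s) (mu := mu) (t := t)
      (x := fun a b => x (e.symm a) (e.symm b))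
      (fun _ _ => hx.nonneg _ _) (fun _ _ => hx.symm _ _) ?_ h0 hs ?_ ?_ k0 ht' ?_ ?_
    · simp only [heL, heR]
      rw [sum_subtype_mem U (fun u => ∑ v : {v // v ∈ Uᶜ}, x u v.1)]
      rw [← ht]
      exact Finset.sum_congr rfl fun u _ => sum_subtype_mem Uᶜ (fun v => x u v)
    · intro p
      rw [hl none (some p)]
      simp only [contr, heL, heR]
      rw [sum_subtype_mem Uᶜ (fun v => x p.1 v)]
    · intro p p'
      rw [hl (some p) (some p')]
      rfl
    · intro q
      rw [hm none (some q)]
      simp only [contr, heL, heR, compl_compl]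
      rw [sum_subtype_mem U (fun v => x v q.1)]
      exact Finset.sum_congr rfl fun v _ => hx.symm _ _
    · intro q q'
      rw [hm (some q) (some q')]
      rfl
  obtain ⟨ι', hι', lam', σ, a0, a1, a2, a3⟩ := key
  refine ⟨ι', hι', lam', fun i v => e.symm (σ i (e v)), a0, ?_, a2, ?_⟩
  · intro i
    refine ⟨fun v => ?_, fun v h => ?_⟩
    · simp [(a1 i).1]
    · apply (a1 i).2 (e v)
      have := congrArg e h
      simpa using this
  · intro u v
    have := a3 (e u) (e v)
    simp only [Equiv.symm_apply_apply] at this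
    rw [← this]
    refine Finset.sum_congr rfl fun i _ => ?_
    have h3 : (e.symm (σ i (e u)) = v) ↔ (σ i (e u) = e v) := by
      rw [Equiv.symm_apply_eq]
    simp only [h3]

end Pool.Agent.H.MP_f0eba7_co
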